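import Mathlib

/-!
# Homogeneous spaces of linear algebraic groups as spaces with functions

Classical language over the complex numbers: a variety is a set with a Zariski topology and,
for every point, the complex valued functions that are regular near that point.
-/

set_option autoImplicit false

open MvPolynomial
open scoped Topology LinearAlgebra.Projectivization

namespace Pool.Agent.H774R3

/-- A space with functions: a (Zariski) topology on `X` and, for every point `x`, the predicate
that a complex valued function is regular near `x`. -/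
structure FnSpace (X : Type) where
  /-- the topology -/
  top : TopologicalSpace X
  /-- `reg x f` means that the function `f` is regular in a neighbourhood of `x` -/
  reg : X → (X → ℂ) → Prop

/-- Affine space `ℂ^σ`: the basic open sets are the sets `q ≠ 0`, and a function is regular near `x`
if it equals a quotient `p / q` of polynomials on a basic open set `q ≠ 0` containing `x`. -/
def affineSpace (σ : Type) : FnSpace (σ → ℂ) where
  top := TopologicalSpace.generateFrom
    {U | ∃ q : MvPolynomial σ ℂ, U = {x | eval x q ≠ 0}}
  reg x f := ∃ p q : MvPolynomial σ ℂ, eval x q ≠ 0 ∧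
    ∀ y, eval y q ≠ 0 → f y = eval y p / eval y q

/-- Projective space `ℙ(ℂ^κ)`: the basic open sets are the sets `q ≠ 0` with `q` homogeneous, and
a function is regular near `z` if it equals a quotient `p / q` of homogeneous polynomials of the
same degree on a basic open set `q ≠ 0` containing `z`. -/
def projSpace (κ : Type) : FnSpace (ℙ ℂ (κ → ℂ)) where
  top := TopologicalSpace.generateFrom
    {U | ∃ (n : ℕ) (q : MvPolynomial κ ℂ), q.IsHomogeneous n ∧ U = {z | eval z.rep q ≠ 0}}
  reg z f := ∃ (n : ℕ) (p q : MvPolynomial κ ℂ), p.IsHomogeneous n ∧ q.IsHomogeneous n ∧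
    eval z.rep q ≠ 0 ∧ ∀ w : ℙ ℂ (κ → ℂ), eval w.rep q ≠ 0 → f w = eval w.rep p / eval w.rep q

/-- The structure induced on `Y` by an (injective) map `i` to a space with functions: the induced
topology, and the functions that are locally restrictions of regular functions. -/
def FnSpace.induced {X Y : Type} (S : FnSpace X) (i : Y → X) : FnSpace Y where
  top := S.top.induced i
  reg y f := ∃ g : X → ℂ, S.reg (i y) g ∧
    ∃ U : Set Y, IsOpen[S.top.induced i] U ∧ y ∈ U ∧ ∀ z ∈ U, f z = g (i z)

/-- The quotient structure on `Y` for a surjective map `π`: the quotient topology, and the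
functions whose composition with `π` is regular on the preimage of a neighbourhood. -/
def FnSpace.coinduced {X Y : Type} (S : FnSpace X) (π : X → Y) : FnSpace Y where
  top := S.top.coinduced π
  reg y f := ∃ V : Set Y, IsOpen[S.top.coinduced π] V ∧ y ∈ V ∧
    ∀ x, π x ∈ V → S.reg x (fun x' => f (π x'))

/-- A bijection is an isomorphism of spaces with functions if it is a homeomorphism and identifies
the regular functions. -/
def IsIso {X Y : Type} (S : FnSpace X) (T : FnSpace Y) (e : X ≃ Y) : Prop :=
  (∀ U : Set Y, IsOpen[T.top] U ↔ IsOpen[S.top] (e ⁻¹' U)) ∧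
  ∀ (x : X) (f : Y → ℂ), T.reg (e x) f ↔ S.reg x (fun x' => f (e x'))

/-- The entries of an invertible matrix, as a point of the affine space of all matrices. -/
def entries {ι : Type} [Fintype ι] [DecidableEq ι] (g : GL ι ℂ) : ι × ι → ℂ :=
  fun ij => (g : Matrix ι ι ℂ) ij.1 ij.2

/-- The structure of `GL_ι(ℂ)` as an (affine) variety. -/
def glSpace (ι : Type) [Fintype ι] [DecidableEq ι] : FnSpace (GL ι ℂ) :=
  (affineSpace (ι × ι)).induced entries

/-- The structure of variety on a subgroup `G` of `GL_ι(ℂ)`. -/
def grpSpace {ι : Type} [Fintype ι] [DecidableEq ι] (G : Subgroup (GL ι ℂ)) : FnSpace G :=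
  (glSpace ι).induced Subtype.val

/-- The homogeneous space `G / K` (for `K ≤ G ≤ GL_ι(ℂ)`) with its quotient structure. -/
def homSpace {ι : Type} [Fintype ι] [DecidableEq ι] (G K : Subgroup (GL ι ℂ)) :
    FnSpace (G ⧸ K.subgroupOf G) :=
  (grpSpace G).coinduced QuotientGroup.mk

/-- A space with functions is a quasi-affine variety if it is isomorphic to a Zariski locally
closed subset of an affine space. -/
def IsQuasiAffine {X : Type} (S : FnSpace X) : Prop :=
  ∃ (σ : Type) (_ : Fintype σ) (Y : Set (σ → ℂ)),
    @IsLocallyClosed _ (affineSpace σ).top Y ∧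
    ∃ e : X ≃ Y, IsIso S ((affineSpace σ).induced Subtype.val) e

/-- A space with functions is a quasi-projective variety if it is isomorphic to a Zariski locally
closed subset of a projective space. -/
def IsQuasiProjective {X : Type} (S : FnSpace X) : Prop :=
  ∃ (κ : Type) (_ : Fintype κ) (Y : Set (ℙ ℂ (κ → ℂ))),
    @IsLocallyClosed _ (projSpace κ).top Y ∧
    ∃ e : X ≃ Y, IsIso S ((projSpace κ).induced Subtype.val) e

/-- Condition (C1): the variety has a projective compactification `Xbar` (a Zariski closed
irreducible subset of a projective space) whose boundary `Z = Xbar \ X` is Zariski closed of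
codimension at least two, i.e. between every irreducible closed subset of `Z` and `Xbar` there is
strictly another irreducible closed subset. -/
def HasSmallCompactification {X : Type} (S : FnSpace X) : Prop :=
  ∃ (κ : Type) (_ : Fintype κ) (Xbar Z : Set (ℙ ℂ (κ → ℂ))),
    IsClosed[(projSpace κ).top] Xbar ∧ @IsIrreducible _ (projSpace κ).top Xbar ∧
    IsClosed[(projSpace κ).top] Z ∧ Z ⊆ Xbar ∧
    (∀ Z₁ ⊆ Z, IsClosed[(projSpace κ).top] Z₁ → @IsIrreducible _ (projSpace κ).top Z₁ →
      ∃ Z₂, IsClosed[(projSpace κ).top] Z₂ ∧ @IsIrreducible _ (projSpace κ).top Z₂ ∧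
        Z₁ ⊂ Z₂ ∧ Z₂ ⊂ Xbar) ∧
    ∃ e : X ≃ ↥(Xbar \ Z), IsIso S ((projSpace κ).induced Subtype.val) e

/-- Condition (C3): there is no closed subgroup `K` with `H ≤ K < G` such that `G / K` is
quasi-affine. -/
def NoQuasiAffineQuotient {ι : Type} [Fintype ι] [DecidableEq ι] (G H : Subgroup (GL ι ℂ)) : Prop :=
  ∀ K : Subgroup (GL ι ℂ), IsClosed[(glSpace ι).top] (K : Set (GL ι ℂ)) →
    H ≤ K → K ≤ G → K ≠ G → ¬ IsQuasiAffine (homSpace G K)

end Pool.Agent.H774R3
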