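import Mathlib
import Pool.Agent.H774R3.Defs

set_option autoImplicit false

open MvPolynomial
open scoped Topology LinearAlgebra.Projectivization

namespace Pool.Agent.H774R3

/-! ### affine space -/

lemma affine_isOpen_D {σ : Type} (q : MvPolynomial σ ℂ) :
    IsOpen[(affineSpace σ).top] {x | eval x q ≠ 0} :=
  TopologicalSpace.isOpen_generateFrom_of_mem ⟨q, rfl⟩

lemma affine_basis {σ : Type} {U : Set (σ → ℂ)} (hU : IsOpen[(affineSpace σ).top] U)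
    {x : σ → ℂ} (hx : x ∈ U) :
    ∃ q : MvPolynomial σ ℂ, eval x q ≠ 0 ∧ ∀ y, eval y q ≠ 0 → y ∈ U := by
  have hU' : TopologicalSpace.GenerateOpen
    {U | ∃ q : MvPolynomial σ ℂ, U = {x | eval x q ≠ 0}} U := hU
  clear hU
  induction hU' with
  | basic s hs =>
    obtain ⟨q, rfl⟩ := hs
    exact ⟨q, hx, fun y hy => hy⟩
  | univ => exact ⟨1, by simp, fun y _ => Set.mem_univ _⟩
  | inter s t _ _ ihs iht =>
    obtain ⟨q1, h1, h1'⟩ := ihs hx.1
    obtain ⟨q2, h2, h2'⟩ := iht hx.2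
    refine ⟨q1 * q2, by simp [h1, h2], fun y hy => ?_⟩
    rw [map_mul] at hy
    exact ⟨h1' y (left_ne_zero_of_mul hy), h2' y (right_ne_zero_of_mul hy)⟩
  | sUnion S _ ih =>
    obtain ⟨s, hs, hxs⟩ := hx
    obtain ⟨q, h1, h2⟩ := ih s hs hxs
    exact ⟨q, h1, fun y hy => ⟨s, hs, h2 y hy⟩⟩

/-! ### projective space -/

/-- value of a homogeneous polynomial at a scaled vector -/
lemma eval_smul_hom {κ : Type} {n : ℕ} {p : MvPolynomial κ ℂ} (hp : p.IsHomogeneous n)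
    (c : ℂ) (v : κ → ℂ) : eval (fun i => c * v i) p = c ^ n * eval v p := by
  rw [MvPolynomial.eval_eq, MvPolynomial.eval_eq, Finset.mul_sum]
  refine Finset.sum_congr rfl fun d hd => ?_
  have hd' : d.degree = n := by
    by_contra hne
    exact (mem_support_iff.mp hd) (hp.coeff_eq_zero hne)
  simp only [mul_pow, Finset.prod_mul_distrib]
  rw [Finset.prod_pow_eq_pow_sum]
  have : ∑ i ∈ d.support, d i = n := by rw [← hd']; rfl
  rw [this]; ring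

lemma proj_isOpen_D {κ : Type} {n : ℕ} {q : MvPolynomial κ ℂ} (hq : q.IsHomogeneous n) :
    IsOpen[(projSpace κ).top] {z : ℙ ℂ (κ → ℂ) | eval z.rep q ≠ 0} :=
  TopologicalSpace.isOpen_generateFrom_of_mem ⟨n, q, hq, rfl⟩

lemma proj_basis {κ : Type} {U : Set (ℙ ℂ (κ → ℂ))} (hU : IsOpen[(projSpace κ).top] U)
    {x : ℙ ℂ (κ → ℂ)} (hx : x ∈ U) :
    ∃ (n : ℕ) (q : MvPolynomial κ ℂ), q.IsHomogeneous n ∧ eval x.rep q ≠ 0 ∧
      ∀ y : ℙ ℂ (κ → ℂ), eval y.rep q ≠ 0 → y ∈ U := by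
  have hU' : TopologicalSpace.GenerateOpen
    {U | ∃ (n : ℕ) (q : MvPolynomial κ ℂ), q.IsHomogeneous n ∧
      U = {z : ℙ ℂ (κ → ℂ) | eval z.rep q ≠ 0}} U := hU
  clear hU
  induction hU' with
  | basic s hs =>
    obtain ⟨n, q, hq, rfl⟩ := hs
    exact ⟨n, q, hq, hx, fun y hy => hy⟩
  | univ => exact ⟨0, 1, isHomogeneous_one _ _, by simp, fun y _ => Set.mem_univ _⟩
  | inter s t _ _ ihs iht =>
    obtain ⟨n1, q1, hq1, h1, h1'⟩ := ihs hx.1
    obtain ⟨n2, q2, hq2, h2, h2'⟩ := iht hx.2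
    refine ⟨n1 + n2, q1 * q2, hq1.mul hq2, by simp [h1, h2], fun y hy => ?_⟩
    rw [map_mul] at hy
    exact ⟨h1' y (left_ne_zero_of_mul hy), h2' y (right_ne_zero_of_mul hy)⟩
  | sUnion S _ ih =>
    obtain ⟨s, hs, hxs⟩ := hx
    obtain ⟨n, q, hq, h1, h2⟩ := ih s hs hxs
    exact ⟨n, q, hq, h1, fun y hy => ⟨s, hs, h2 y hy⟩⟩

/-- nonvanishing of a homogeneous polynomial does not depend on the representative -/
lemma eval_rep_mk {κ : Type} {n : ℕ} {q : MvPolynomial κ ℂ} (hq : q.IsHomogeneous n)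
    {v : κ → ℂ} (hv : v ≠ 0) :
    ∃ c : ℂ, c ≠ 0 ∧ eval (Projectivization.mk ℂ v hv).rep q = c ^ n * eval v q ∧
      (∀ i, (Projectivization.mk ℂ v hv).rep i = c * v i) := by
  obtain ⟨a, ha⟩ := Projectivization.exists_smul_eq_mk_rep ℂ v hv
  refine ⟨(a : ℂ), a.ne_zero, ?_, ?_⟩
  · rw [← ha, ← eval_smul_hom hq]
    congr 1
  · intro i
    rw [← ha]; rfl

lemma rep_scale {κ : Type} {v : κ → ℂ} (hv : v ≠ 0) :
    ∃ c : ℂ, c ≠ 0 ∧ ∀ i, (Projectivization.mk ℂ v hv).rep i = c * v i := by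
  obtain ⟨a, ha⟩ := Projectivization.exists_smul_eq_mk_rep ℂ v hv
  exact ⟨(a : ℂ), a.ne_zero, fun i => by rw [← ha]; rfl⟩

end Pool.Agent.H774R3
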