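import Mathlib
set_option autoImplicit false
open Polynomial
namespace Pool.Agent.H774R3

/-- a polynomial with too many positive zeros and vanishing next coefficient is zero -/
lemma poly_zero_of_nc (f : ℂ[X]) (s : Finset ℕ) (n : ℕ → ℕ)
    (hdvd : ∀ i ∈ s, (X - C ((i : ℂ) + 1)) ^ (n i) ∣ f) (N : ℕ) (hN : f.natDegree ≤ N)
    (hN1 : 1 ≤ N) (hcoef : f.coeff (N - 1) = 0) (hsum : N ≤ ∑ i ∈ s, n i) : f = 0 := by
  by_contra hf
  have hcop : (s : Set ℕ).Pairwise (Function.onFun IsCoprime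
      fun i => (X - C ((i : ℂ) + 1)) ^ (n i)) := by
    intro i _ j _ hij
    apply IsCoprime.pow
    apply Polynomial.isCoprime_X_sub_C_of_isUnit_sub
    apply IsUnit.mk0
    intro h
    apply hij
    have h2 : (i : ℂ) = j := by linear_combination h
    exact_mod_cast h2
  have hP := Finset.prod_dvd_of_coprime hcop hdvd
  obtain ⟨h, hh⟩ := hP
  set P : ℂ[X] := ∏ i ∈ s, (X - C ((i : ℂ) + 1)) ^ (n i) with hPdef
  have hmon : ∀ i ∈ s, ((X - C ((i : ℂ) + 1)) ^ (n i)).Monic := fun i _ =>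
    (monic_X_sub_C _).pow _
  have hPm : P.Monic := monic_prod_of_monic _ _ hmon
  have hdeg : P.natDegree = ∑ i ∈ s, n i := by
    rw [hPdef, natDegree_prod_of_monic _ _ hmon]
    apply Finset.sum_congr rfl
    intro i _
    rw [(monic_X_sub_C _).natDegree_pow, natDegree_X_sub_C, mul_one]
  have hh0 : h ≠ 0 := by rintro rfl; apply hf; rw [hh, mul_zero]
  have hfd : f.natDegree = P.natDegree + h.natDegree := by
    rw [hh, natDegree_mul hPm.ne_zero hh0]
  have h1 : h.natDegree = 0 := by omega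
  have h2 : P.natDegree = N := by omega
  have hnc : P.nextCoeff = -∑ i ∈ s, (n i : ℂ) * ((i : ℂ) + 1) := by
    rw [hPdef, Monic.nextCoeff_prod _ _ hmon, ← Finset.sum_neg_distrib]
    apply Finset.sum_congr rfl
    intro i _
    rw [(monic_X_sub_C _).nextCoeff_pow, nextCoeff_X_sub_C, nsmul_eq_mul]
    ring
  rw [nextCoeff_of_natDegree_pos (by omega), h2] at hnc
  obtain ⟨c, hc⟩ := natDegree_eq_zero.mp h1
  have hc0 : c ≠ 0 := by rintro rfl; apply hh0; rw [← hc, C_0]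
  rw [hh, ← hc, coeff_mul_C, hnc] at hcoef
  have h3 := (mul_eq_zero.mp hcoef).resolve_right hc0
  rw [neg_eq_zero] at h3
  have h4 : (((∑ i ∈ s, n i * (i + 1) : ℕ)) : ℂ) = 0 := by
    rw [← h3]; push_cast; rfl
  have h5 : ∑ i ∈ s, n i * (i + 1) = 0 := by exact_mod_cast h4
  have h6 : ∑ i ∈ s, n i ≤ ∑ i ∈ s, n i * (i + 1) :=
    Finset.sum_le_sum fun i _ => Nat.le_mul_of_pos_right _ (Nat.succ_pos i)
  omega

end Pool.Agent.H774R3
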