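import Mathlib
import Pool.Agent.H774R3.NC
set_option autoImplicit false
open Polynomial
namespace Pool.Agent.H774R3

/-- triangle of exponents -/
def Tr (m : ℕ) : Finset (Σ _ : ℕ, ℕ) := (Finset.range m).sigma (fun j => Finset.range (m - j))

lemma mem_Tr {m : ℕ} {x : Σ _ : ℕ, ℕ} : x ∈ Tr m ↔ x.1 + x.2 < m := by
  simp only [Tr, Finset.mem_sigma, Finset.mem_range]; omega

lemma card_Tr (m : ℕ) : 2 * (Tr m).card = m * (m + 1) := by
  rw [Tr, Finset.card_sigma]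
  simp only [Finset.card_range]
  rw [← Finset.sum_range_reflect]
  have : ∀ j ∈ Finset.range m, m - (m - 1 - j) = j + 1 := by
    intro j hj; rw [Finset.mem_range] at hj; omega
  rw [Finset.sum_congr rfl this]
  clear this
  induction m with
  | zero => simp
  | succ m ih => rw [Finset.sum_range_succ, mul_add, ih]; ring

/-- basis elements -/
noncomputable def bas (x : Σ _ : ℕ, ℕ) : ℂ[X][X] :=
  X ^ (x.1 / 3) * C (X ^ (x.1 % 3)) * (X + C (X ^ 3)) ^ x.2

/-- the polynomial in the curve coordinate -/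
noncomputable def Psi {d : ℕ} (c : ↥(Tr (d + 1)) → ℂ) : ℂ[X][X] := ∑ x : ↥(Tr (d + 1)), c x • bas x.1

lemma Psi_add {d : ℕ} (c c' : ↥(Tr (d + 1)) → ℂ) : Psi (c + c') = Psi c + Psi c' := by
  simp only [Psi, Pi.add_apply, add_smul, Finset.sum_add_distrib]

lemma Psi_smul {d : ℕ} (a : ℂ) (c : ↥(Tr (d + 1)) → ℂ) : Psi (a • c) = a • Psi c := by
  simp only [Psi, Pi.smul_apply, smul_eq_mul, mul_smul, Finset.smul_sum]

/-- the conditions -/
noncomputable def conds (m : ℕ) : (↥(Tr (3 * m + 1 + 1)) → ℂ) →ₗ[ℂ]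
    ((Fin 9 × ↥(Tr m)) ⊕ (Fin 3 × Fin m) → ℂ) where
  toFun c := Sum.elim
    (fun y => (taylor (((y.1 : ℕ) : ℂ) + 1) ((Psi c).coeff y.2.1.1)).coeff y.2.1.2)
    (fun y => eval ((((9 + (y.1 : ℕ) : ℕ)) : ℂ) + 1) ((Psi c).coeff ((y.2 : ℕ) + 1)))
  map_add' c c' := by
    funext y
    rcases y with y | y <;> simp [Psi_add]
  map_smul' a c := by
    funext y
    rcases y with y | y <;> simp [Psi_smul]

lemma coeff_bas (x : Σ _ : ℕ, ℕ) (j : ℕ) (hj : j < x.1 / 3) : (bas x).coeff j = 0 := by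
  rw [bas, mul_assoc, mul_comm, coeff_mul_X_pow', if_neg (by omega)]

lemma coeff_bas_eq (x : Σ _ : ℕ, ℕ) : (bas x).coeff (x.1 / 3) = X ^ (x.1 % 3 + 3 * x.2) := by
  rw [bas, mul_assoc, mul_comm, coeff_mul_X_pow', if_pos le_rfl, Nat.sub_self,
    coeff_zero_eq_eval_zero]
  simp only [eval_mul, eval_C, eval_pow, eval_add, eval_X, zero_add]
  ring

lemma coeff_Psi {d : ℕ} (c : ↥(Tr (d + 1)) → ℂ) (j : ℕ) :
    (Psi c).coeff j = ∑ x : ↥(Tr (d + 1)), c x • (bas x.1).coeff j := by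
  rw [Psi, finsetSum_coeff]
  simp only [coeff_smul]

/-- Existence of plane curves of degree `3 m + 1` with nine `m`-fold points on the cuspidal cubic
that do not contain the cubic. -/
theorem exists_psi (m : ℕ) : ∃ c : ↥(Tr (3 * m + 1 + 1)) → ℂ,
    (∀ i : Fin 9, ∀ j, (X - C (((i : ℕ) : ℂ) + 1)) ^ (m - j) ∣ (Psi c).coeff j) ∧
    (Psi c).coeff 0 ≠ 0 := by
  classical
  have hcard : Module.finrank ℂ ((Fin 9 × ↥(Tr m)) ⊕ (Fin 3 × Fin m) → ℂ) <
      Module.finrank ℂ (↥(Tr (3 * m + 1 + 1)) → ℂ) := by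
    rw [Module.finrank_fintype_fun_eq_card, Module.finrank_fintype_fun_eq_card,
      Fintype.card_sum, Fintype.card_prod, Fintype.card_prod, Fintype.card_fin, Fintype.card_fin,
      Fintype.card_fin, Fintype.card_coe, Fintype.card_coe]
    have h1 := card_Tr m
    have h2 := card_Tr (3 * m + 1 + 1)
    nlinarith
  have hker := LinearMap.ker_ne_bot_of_finrank_lt (f := conds m) hcard
  obtain ⟨c, hc, hc0⟩ := Submodule.exists_mem_ne_zero_of_ne_bot hker
  rw [LinearMap.mem_ker] at hc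
  have hA : ∀ i : Fin 9, ∀ j, (X - C (((i : ℕ) : ℂ) + 1)) ^ (m - j) ∣ (Psi c).coeff j := by
    intro i j
    rw [X_sub_C_pow_dvd_iff, X_pow_dvd_iff]
    intro l hl
    have hx : (⟨j, l⟩ : Σ _ : ℕ, ℕ) ∈ Tr m := by rw [mem_Tr]; simp only; omega
    have := congrFun hc (Sum.inl (i, ⟨⟨j, l⟩, hx⟩))
    simpa [conds, taylor_apply] using this
  have hB : ∀ i : Fin 3, ∀ j, 1 ≤ j → j ≤ m →
      (X - C (((9 + (i : ℕ) : ℕ) : ℂ) + 1)) ∣ (Psi c).coeff j := by
    intro i j hj hjm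
    rw [dvd_iff_isRoot, IsRoot.def]
    have := congrFun hc (Sum.inr (i, ⟨j - 1, by omega⟩))
    simp only [conds, LinearMap.coe_mk, AddHom.coe_mk, Sum.elim_inr, Pi.zero_apply] at this
    rwa [Nat.sub_add_cancel hj] at this
  refine ⟨c, hA, ?_⟩
  -- minimal exponent
  have hex : ∃ k, ∃ x : ↥(Tr (3 * m + 1 + 1)), c x ≠ 0 ∧ x.1.1 / 3 = k := by
    obtain ⟨x, hx⟩ := Function.ne_iff.mp hc0
    exact ⟨_, x, hx, rfl⟩
  obtain ⟨⟨k, hk⟩, hmin⟩ : (∃ k, ∃ x : ↥(Tr (3 * m + 1 + 1)), c x ≠ 0 ∧ x.1.1 / 3 = k) ∧ True :=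
    ⟨hex, trivial⟩
  clear hmin hk k
  set k := Nat.find hex with hkdef
  obtain ⟨x0, hx0, hx0k⟩ := Nat.find_spec hex
  rw [← hkdef] at hx0k
  have hmin : ∀ x : ↥(Tr (3 * m + 1 + 1)), c x ≠ 0 → k ≤ x.1.1 / 3 := fun x hx =>
    Nat.find_min' hex ⟨x, hx, rfl⟩
  set f := (Psi c).coeff k with hf
  have hfsum : f = ∑ x : ↥(Tr (3 * m + 1 + 1)),
      if x.1.1 / 3 = k then c x • (X : ℂ[X]) ^ (x.1.1 % 3 + 3 * x.1.2) else 0 := by
    rw [hf, coeff_Psi]
    apply Finset.sum_congr rfl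
    intro x _
    by_cases hcx : c x = 0
    · simp [hcx]
    split_ifs with h1
    · rw [← h1, coeff_bas_eq]
    · rw [coeff_bas _ _ (lt_of_le_of_ne (hmin x hcx) (Ne.symm h1)), smul_zero]
  have hcoef : ∀ e, f.coeff e = ∑ x : ↥(Tr (3 * m + 1 + 1)),
      if x.1.1 / 3 = k ∧ e = x.1.1 % 3 + 3 * x.1.2 then c x else 0 := by
    intro e
    rw [hfsum, finsetSum_coeff]
    apply Finset.sum_congr rfl
    intro x _
    by_cases h1 : x.1.1 / 3 = k
    · by_cases h2 : e = x.1.1 % 3 + 3 * x.1.2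
      · rw [if_pos h1, if_pos ⟨h1, h2⟩, coeff_smul, coeff_X_pow, if_pos h2, smul_eq_mul, mul_one]
      · rw [if_pos h1, if_neg (fun h => h2 h.2), coeff_smul, coeff_X_pow, if_neg h2, smul_eq_mul,
          mul_zero]
    · rw [if_neg h1, if_neg (fun h => h1 h.1), coeff_zero]
  have hf0 : f ≠ 0 := by
    intro h0
    have h1 := hcoef (x0.1.1 % 3 + 3 * x0.1.2)
    rw [h0, coeff_zero, Finset.sum_eq_single x0] at h1
    · rw [if_pos ⟨hx0k, rfl⟩] at h1
      exact hx0 h1.symm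
    · intro x _ hxx
      rw [if_neg]
      rintro ⟨h2, h3⟩
      apply hxx
      have h4 : x.1.2 = x0.1.2 := by omega
      have h5 : x.1.1 = x0.1.1 := by omega
      exact Subtype.ext (Sigma.ext h5 (heq_of_eq h4))
    · intro h; exact absurd (Finset.mem_univ _) h
  rcases Nat.eq_zero_or_pos k with h0 | hpos
  · rw [← h0]; exact hf0
  exfalso
  have hx0m := mem_Tr.mp x0.2
  have hkm : k ≤ m := by omega
  set N := 3 * (3 * m + 1 - 3 * k) with hN
  apply hf0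
  apply poly_zero_of_nc f (Finset.range 12) (fun i => if i < 9 then m - k else 1) ?_ N ?_ ?_ ?_ ?_
  · intro i hi
    rw [Finset.mem_range] at hi
    split_ifs with h9
    · exact hA ⟨i, h9⟩ k
    · have := hB ⟨i - 9, by omega⟩ k hpos hkm
      simp only at this
      rw [show 9 + (i - 9) = i by omega] at this
      rw [pow_one]
      exact this
  · rw [natDegree_le_iff_coeff_eq_zero]
    intro e he
    rw [hcoef]
    apply Finset.sum_eq_zero
    intro x _
    rw [if_neg]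
    rintro ⟨h1, h2⟩
    have := mem_Tr.mp x.2
    omega
  · omega
  · rw [hcoef]
    apply Finset.sum_eq_zero
    intro x _
    rw [if_neg]
    rintro ⟨h1, h2⟩
    have := mem_Tr.mp x.2
    omega
  · rw [hN]
    simp [Finset.sum_range_succ]
    omega

end Pool.Agent.H774R3
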