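import Mathlib
import Pool.Agent.H774R3.Psi
set_option autoImplicit false
open Polynomial
namespace Pool.Agent.H774R3

/-- homogenisation -/
noncomputable def PhiH {R : Type} [CommRing R] [Algebra ℂ R] {d : ℕ} (c : ↥(Tr (d + 1)) → ℂ)
    (A B D : R) : R :=
  ∑ x : ↥(Tr (d + 1)), c x • ((D * B ^ 2 - A ^ 3) ^ (x.1.1 / 3) * A ^ (x.1.1 % 3) * D ^ x.1.2 *
    B ^ (d - x.1.1 - x.1.2))

lemma PhiH_map {R R' : Type} [CommRing R] [Algebra ℂ R] [CommRing R'] [Algebra ℂ R']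
    (g : R →ₐ[ℂ] R') {d : ℕ} (c : ↥(Tr (d + 1)) → ℂ) (A B D : R) :
    g (PhiH c A B D) = PhiH c (g A) (g B) (g D) := by
  simp only [PhiH, map_sum, map_smul, map_mul, map_pow, map_sub]

lemma PhiH_unit {R : Type} [CommRing R] [Algebra ℂ R] {d : ℕ} (c : ↥(Tr (d + 1)) → ℂ)
    (A B D B' : R) (hB : B * B' = 1) :
    PhiH c A B D = B ^ d * eval₂ (aeval (A * B') : ℂ[X] →ₐ[ℂ] R).toRingHom
      (D * B' - (A * B') ^ 3) (Psi c) := by
  rw [PhiH, Psi, eval₂_finsetSum, Finset.mul_sum]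
  apply Finset.sum_congr rfl
  intro x _
  have hx := mem_Tr.mp x.2
  have e1 : ∀ (r : ℂ) (q : ℂ[X][X]), eval₂ (aeval (A * B') : ℂ[X] →ₐ[ℂ] R).toRingHom
      (D * B' - (A * B') ^ 3) (r • q) = r • eval₂ (aeval (A * B') : ℂ[X] →ₐ[ℂ] R).toRingHom
      (D * B' - (A * B') ^ 3) q := by
    intro r q
    have : r • q = C (C r) * q := by
      ext i j; simp
    rw [this, eval₂_mul, eval₂_C, Algebra.smul_def]
    congr 1
    simp
  rw [e1, mul_smul_comm]
  congr 1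
  rw [bas]
  simp only [eval₂_mul, eval₂_pow, eval₂_add, eval₂_X, eval₂_C]
  have e2 : (aeval (A * B') : ℂ[X] →ₐ[ℂ] R).toRingHom (X : ℂ[X]) = A * B' := by simp
  rw [map_pow, map_pow, e2]
  have hd : B ^ d = (B ^ 3) ^ (x.1.1 / 3) * B ^ (x.1.1 % 3) * B ^ x.1.2 *
      B ^ (d - x.1.1 - x.1.2) := by
    rw [← pow_mul, ← pow_add, ← pow_add, ← pow_add]
    congr 1; omega
  have h3 : D * B ^ 2 - A ^ 3 = B ^ 3 * (D * B' - (A * B') ^ 3) := by
    have : B ^ 3 * (D * B' - (A * B') ^ 3) = D * B ^ 2 * (B * B') - A ^ 3 * (B * B') ^ 3 := by ring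
    rw [this, hB]; ring
  have h4 : A ^ (x.1.1 % 3) = B ^ (x.1.1 % 3) * (A * B') ^ (x.1.1 % 3) := by
    rw [← mul_pow]; congr 1
    linear_combination (-A) * hB
  have h5 : D ^ x.1.2 = B ^ x.1.2 * (D * B' - (A * B') ^ 3 + (A * B') ^ 3) ^ x.1.2 := by
    rw [← mul_pow]; congr 1
    linear_combination (-D) * hB
  rw [hd, h3, h4, h5, mul_pow]
  ring

lemma PhiH_curve {d : ℕ} (c : ↥(Tr (d + 1)) → ℂ) (K t : ℂ) (hK : K ≠ 0) :
    PhiH c (K * t) K (K * t ^ 3) = K ^ d * eval t ((Psi c).coeff 0) := by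
  rw [PhiH_unit c _ _ _ K⁻¹ (mul_inv_cancel₀ hK)]
  have h1 : K * t ^ 3 * K⁻¹ - (K * t * K⁻¹) ^ 3 = 0 := by field_simp; ring
  have h2 : K * t * K⁻¹ = t := by field_simp
  rw [h1, eval₂_at_zero, h2]
  rfl

theorem dvd_PhiH {R : Type} [CommRing R] [IsDomain R] [Algebra ℂ R] {m d : ℕ}
    (c : ↥(Tr (d + 1)) → ℂ) (τ : ℂ) (hc : ∀ j, (X - C τ) ^ (m - j) ∣ (Psi c).coeff j)
    (x A B D : R) (hx : Prime x) (hB : ¬ x ∣ B) (hA : x ∣ A - τ • B) (hD : x ∣ D - τ ^ 3 • B) :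
    x ^ m ∣ PhiH c A B D := by
  have hB0 : B ≠ 0 := by rintro rfl; exact hB (dvd_zero _)
  let R' := Localization.Away B
  let ι : R →ₐ[ℂ] R' := IsScalarTower.toAlgHom ℂ R R'
  have hι : ∀ r, ι r = algebraMap R R' r := fun r => rfl
  set B' : R' := IsLocalization.Away.invSelf B with hB'
  have hBB : ι B * B' = 1 := IsLocalization.Away.mul_invSelf B
  have h1 : ι x ^ m ∣ ι (PhiH c A B D) := by
    rw [PhiH_map, PhiH_unit c _ _ _ B' hBB]
    apply Dvd.dvd.mul_left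
    rw [eval₂_eq_sum_range]
    apply Finset.dvd_sum
    intro j _
    have hj : ι x ^ (m - j) ∣ (aeval (ι A * B') : ℂ[X] →ₐ[ℂ] R').toRingHom ((Psi c).coeff j) := by
      obtain ⟨q, hq⟩ := hc j
      rw [hq, map_mul, map_pow]
      apply Dvd.dvd.mul_right
      apply pow_dvd_pow_of_dvd
      obtain ⟨z, hz⟩ := hA
      refine ⟨ι z * B', ?_⟩
      have h2 : (aeval (ι A * B') : ℂ[X] →ₐ[ℂ] R').toRingHom (X - C τ) = ι A * B' -
          algebraMap ℂ R' τ := by simp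
      have h3 := congrArg ι hz
      rw [map_sub, map_smul, map_mul, Algebra.smul_def] at h3
      rw [h2]
      linear_combination B' * h3 + (algebraMap ℂ R' τ) * hBB
    have hjj : ι x ∣ ι D * B' - (ι A * B') ^ 3 := by
      obtain ⟨z, hz⟩ := hA
      obtain ⟨y, hy⟩ := hD
      have h3 := congrArg ι hz
      have h4 := congrArg ι hy
      rw [map_sub, map_smul, map_mul, Algebra.smul_def] at h3 h4
      have h5 : ι D * B' = algebraMap ℂ R' (τ ^ 3) + ι x * (ι y * B') := by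
        linear_combination B' * h4 + (algebraMap ℂ R' (τ ^ 3)) * hBB
      have h6 : ι A * B' = algebraMap ℂ R' τ + ι x * (ι z * B') := by
        linear_combination B' * h3 + (algebraMap ℂ R' τ) * hBB
      rw [h5, h6, map_pow]
      exact ⟨ι y * B' - 3 * (algebraMap ℂ R' τ) ^ 2 * (ι z * B') -
        3 * algebraMap ℂ R' τ * ι x * (ι z * B') ^ 2 - ι x ^ 2 * (ι z * B') ^ 3, by ring⟩
    by_cases hjm : j ≤ m
    · have : ι x ^ m = ι x ^ (m - j) * ι x ^ j := by rw [← pow_add, Nat.sub_add_cancel hjm]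
      rw [this]
      exact mul_dvd_mul hj (pow_dvd_pow_of_dvd hjj j)
    · apply Dvd.dvd.mul_left
      exact (pow_dvd_pow _ (by omega)).trans (pow_dvd_pow_of_dvd hjj j)
  obtain ⟨z, hz⟩ := h1
  obtain ⟨n, a, ha⟩ := IsLocalization.Away.surj B z
  have h2 : PhiH c A B D * B ^ n = x ^ m * a := by
    have hinj : Function.Injective (algebraMap R R') :=
      IsLocalization.injective R' (powers_le_nonZeroDivisors_of_noZeroDivisors hB0)
    apply hinj
    have h3 : ι (PhiH c A B D) * ι B ^ n = ι x ^ m * ι a := by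
      rw [hz, mul_assoc]
      congr 1
    rw [map_mul, map_mul, map_pow, map_pow]
    exact h3
  have h3 : x ^ m ∣ B ^ n * PhiH c A B D := ⟨a, by rw [← h2]; ring⟩
  exact hx.pow_dvd_of_dvd_mul_left m (fun h => hB (hx.dvd_of_dvd_pow h)) h3

end Pool.Agent.H774R3
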