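import Mathlib
import Pool.Agent.H774R3.Basic

set_option autoImplicit false

open MvPolynomial
open scoped Topology LinearAlgebra.Projectivization

namespace Pool.Agent.H774R3

/-- The `3 × 3` matrix of the affine transformation `u ↦ u 0 • p + u 1 • q + v` of the plane. -/
def aff (p q v : Fin 2 → ℂ) : Matrix (Fin 3) (Fin 3) ℂ :=
  !![p 0, q 0, v 0; p 1, q 1, v 1; 0, 0, 1]

/-- Block diagonal matrix with nine affine blocks. -/
def blk (p q v : Fin 9 → Fin 2 → ℂ) : Matrix (Fin 3 × Fin 9) (Fin 3 × Fin 9) ℂ :=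
  Matrix.blockDiagonal (fun i => aff (p i) (q i) (v i))

/-- determinant of a pair of plane vectors -/
def dt (p q : Fin 2 → ℂ) : ℂ := p 0 * q 1 - p 1 * q 0

/-- linear combination -/
def lc (p q u : Fin 2 → ℂ) : Fin 2 → ℂ := fun s => u 0 * p s + u 1 * q s

lemma aff_mul (p q v p' q' v' : Fin 2 → ℂ) :
    aff p q v * aff p' q' v' = aff (lc p q p') (lc p q q') (lc p q v' + v) := by
  ext a b
  fin_cases a <;> fin_cases b <;>
    simp [aff, lc, Matrix.mul_apply, Fin.sum_univ_three] <;> ring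

lemma blk_mul (p q v p' q' v' : Fin 9 → Fin 2 → ℂ) :
    blk p q v * blk p' q' v' = blk (fun i => lc (p i) (q i) (p' i)) (fun i => lc (p i) (q i) (q' i))
      (fun i => lc (p i) (q i) (v' i) + v i) := by
  unfold blk
  rw [← Matrix.blockDiagonal_mul]
  congr 1
  funext i
  exact aff_mul _ _ _ _ _ _

lemma blk_one : blk (fun _ => ![1, 0]) (fun _ => ![0, 1]) (fun _ => ![0, 0]) = 1 := by
  unfold blk
  rw [← Matrix.blockDiagonal_one]
  congr 1
  funext i
  ext a b
  fin_cases a <;> fin_cases b <;> simp [aff]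

/-- first column of the inverse -/
noncomputable def ip (p q : Fin 2 → ℂ) : Fin 2 → ℂ := ![q 1 / dt p q, - p 1 / dt p q]
/-- second column of the inverse -/
noncomputable def iq (p q : Fin 2 → ℂ) : Fin 2 → ℂ := ![- q 0 / dt p q, p 0 / dt p q]
/-- third column of the inverse -/
noncomputable def iv (p q v : Fin 2 → ℂ) : Fin 2 → ℂ := - lc (ip p q) (iq p q) v

lemma lc_ip {p q : Fin 2 → ℂ} (h : dt p q ≠ 0) : lc p q (ip p q) = ![1, 0] := by
  funext s
  fin_cases s
  · simp only [lc, ip, Fin.zero_eta, Matrix.cons_val_zero, Matrix.cons_val_one]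
    field_simp
    unfold dt; ring
  · simp only [lc, ip, Fin.mk_one, Matrix.cons_val_zero, Matrix.cons_val_one]
    field_simp
    ring

lemma lc_iq {p q : Fin 2 → ℂ} (h : dt p q ≠ 0) : lc p q (iq p q) = ![0, 1] := by
  funext s
  fin_cases s
  · simp only [lc, iq, Fin.zero_eta, Matrix.cons_val_zero, Matrix.cons_val_one]
    field_simp
    ring
  · simp only [lc, iq, Fin.mk_one, Matrix.cons_val_zero, Matrix.cons_val_one]
    field_simp
    unfold dt; ring

lemma lc_iv {p q v : Fin 2 → ℂ} (h : dt p q ≠ 0) : lc p q (iv p q v) + v = ![0, 0] := by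
  have h1 := congrFun (lc_ip h)
  have h2 := congrFun (lc_iq h)
  have e1 := h1 0
  have e2 := h1 1
  have e3 := h2 0
  have e4 := h2 1
  simp only [lc, Matrix.cons_val_zero, Matrix.cons_val_one, Matrix.cons_val_fin_one] at e1 e2 e3 e4
  funext s
  fin_cases s
  · simp only [lc, iv, Pi.add_apply, Pi.neg_apply, Fin.zero_eta, Matrix.cons_val_zero]
    linear_combination (-v 0) * e1 - v 1 * e3
  · simp only [lc, iv, Pi.add_apply, Pi.neg_apply, Fin.mk_one, Matrix.cons_val_one,
      Matrix.cons_val_fin_one]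
    linear_combination (-v 0) * e2 - v 1 * e4

lemma lc_ip' {p q : Fin 2 → ℂ} (h : dt p q ≠ 0) : lc (ip p q) (iq p q) p = ![1, 0] := by
  funext s
  fin_cases s
  · simp only [lc, ip, iq, Fin.zero_eta, Matrix.cons_val_zero]
    field_simp
    unfold dt; ring
  · simp only [lc, ip, iq, Fin.mk_one, Matrix.cons_val_one, Matrix.cons_val_fin_one]
    field_simp
    ring

lemma lc_iq' {p q : Fin 2 → ℂ} (h : dt p q ≠ 0) : lc (ip p q) (iq p q) q = ![0, 1] := by
  funext s
  fin_cases s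
  · simp only [lc, ip, iq, Fin.zero_eta, Matrix.cons_val_zero]
    field_simp
    ring
  · simp only [lc, ip, iq, Fin.mk_one, Matrix.cons_val_one, Matrix.cons_val_fin_one]
    field_simp
    unfold dt; ring

lemma lc_iv' {p q v : Fin 2 → ℂ} : lc (ip p q) (iq p q) v + iv p q v = ![0, 0] := by
  unfold iv
  rw [add_neg_cancel]
  funext s; fin_cases s <;> rfl

lemma dt_inv {p q : Fin 2 → ℂ} (h : dt p q ≠ 0) : dt (ip p q) (iq p q) ≠ 0 := by
  have : dt (ip p q) (iq p q) = 1 / dt p q := by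
    unfold dt ip iq
    simp only [Matrix.cons_val_zero, Matrix.cons_val_one]
    have h' : p 0 * q 1 - p 1 * q 0 ≠ 0 := h
    unfold dt
    field_simp
  rw [this]
  exact one_div_ne_zero h

/-- The invertible matrix with the given blocks. -/
noncomputable def mkGL (p q v : Fin 9 → Fin 2 → ℂ) (h : ∀ i, dt (p i) (q i) ≠ 0) :
    GL (Fin 3 × Fin 9) ℂ where
  val := blk p q v
  inv := blk (fun i => ip (p i) (q i)) (fun i => iq (p i) (q i)) (fun i => iv (p i) (q i) (v i))
  val_inv := by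
    rw [blk_mul, ← blk_one]
    congr 1 <;> funext i
    · exact lc_ip (h i)
    · exact lc_iq (h i)
    · exact lc_iv (h i)
  inv_val := by
    rw [blk_mul, ← blk_one]
    congr 1 <;> funext i
    · exact lc_ip' (h i)
    · exact lc_iq' (h i)
    · exact lc_iv'

lemma mkGL_inv_val (p q v : Fin 9 → Fin 2 → ℂ) (h : ∀ i, dt (p i) (q i) ≠ 0) :
    (((mkGL p q v h)⁻¹ : GL (Fin 3 × Fin 9) ℂ) : Matrix (Fin 3 × Fin 9) (Fin 3 × Fin 9) ℂ) =
    blk (fun i => ip (p i) (q i)) (fun i => iq (p i) (q i)) (fun i => iv (p i) (q i) (v i)) := rfl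

lemma dt_lc (p q p' q' : Fin 2 → ℂ) : dt (lc p q p') (lc p q q') = dt p q * dt p' q' := by
  simp only [dt, lc]; ring

/-- The group `G = (GL₂(ℂ) ⋉ ℂ²)⁹` of nonuples of affine transformations of the plane. -/
noncomputable def grpG : Subgroup (GL (Fin 3 × Fin 9) ℂ) where
  carrier := {g | ∃ p q v : Fin 9 → Fin 2 → ℂ, (∀ i, dt (p i) (q i) ≠ 0) ∧
    (g : Matrix (Fin 3 × Fin 9) (Fin 3 × Fin 9) ℂ) = blk p q v}
  mul_mem' := by
    rintro a b ⟨p, q, v, h, ha⟩ ⟨p', q', v', h', hb⟩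
    refine ⟨_, _, _, ?_, by rw [Units.val_mul, ha, hb, blk_mul]⟩
    intro i
    rw [dt_lc]
    exact mul_ne_zero (h i) (h' i)
  one_mem' := ⟨fun _ => ![1, 0], fun _ => ![0, 1], fun _ => ![0, 0], by intro i; simp [dt],
    by rw [Units.val_one]; exact blk_one.symm⟩
  inv_mem' := by
    rintro a ⟨p, q, v, h, ha⟩
    have : a = mkGL p q v h := Units.ext ha
    subst this
    exact ⟨_, _, _, fun i => dt_inv (h i), mkGL_inv_val p q v h⟩

/-- the point `t i = i + 1` of the parameter line of the cuspidal cubic -/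
noncomputable def tt (i : Fin 9) : ℂ := ((i : ℕ) : ℂ) + 1

/-- The subspace `W ⊆ ℂ⁹` of all `w` with `∑ w i = ∑ t i * w i = ∑ (t i)^3 * w i = 0`. -/
noncomputable def spW : Submodule ℂ (Fin 9 → ℂ) where
  carrier := {w | ∑ i, w i = 0 ∧ ∑ i, tt i * w i = 0 ∧ ∑ i, tt i ^ 3 * w i = 0}
  add_mem' := by
    rintro a b ⟨h1, h2, h3⟩ ⟨h1', h2', h3'⟩
    refine ⟨?_, ?_, ?_⟩ <;> simp only [Pi.add_apply, mul_add, Finset.sum_add_distrib, *, add_zero]
  zero_mem' := by simp
  smul_mem' := by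
    rintro c a ⟨h1, h2, h3⟩
    refine ⟨?_, ?_, ?_⟩
    · simp only [Pi.smul_apply, smul_eq_mul, ← Finset.mul_sum, h1, mul_zero]
    · simp only [Pi.smul_apply, smul_eq_mul]
      rw [show (∑ i, tt i * (c * a i)) = c * ∑ i, tt i * a i by
        rw [Finset.mul_sum]; exact Finset.sum_congr rfl fun i _ => by ring, h2, mul_zero]
    · simp only [Pi.smul_apply, smul_eq_mul]
      rw [show (∑ i, tt i ^ 3 * (c * a i)) = c * ∑ i, tt i ^ 3 * a i by
        rw [Finset.mul_sum]; exact Finset.sum_congr rfl fun i _ => by ring, h3, mul_zero]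

lemma mem_spW {w : Fin 9 → ℂ} : w ∈ spW ↔
    ∑ i, w i = 0 ∧ ∑ i, tt i * w i = 0 ∧ ∑ i, tt i ^ 3 * w i = 0 := Iff.rfl

/-- The subgroup `H ≤ G`: all blocks multiply the first basis vector by the same scalar `t`, and
translate by multiples `w i` of the first basis vector with `w ∈ W`. -/
noncomputable def grpH : Subgroup (GL (Fin 3 × Fin 9) ℂ) where
  carrier := {g | ∃ (t : ℂ) (q : Fin 9 → Fin 2 → ℂ) (w : Fin 9 → ℂ), t ≠ 0 ∧
    (∀ i, q i 1 ≠ 0) ∧ w ∈ spW ∧
    (g : Matrix (Fin 3 × Fin 9) (Fin 3 × Fin 9) ℂ) =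
      blk (fun _ => ![t, 0]) q (fun i => ![w i, 0])}
  mul_mem' := by
    rintro a b ⟨t, q, w, ht, hq, hw, ha⟩ ⟨t', q', w', ht', hq', hw', hb⟩
    refine ⟨t * t', fun i => lc ![t, 0] (q i) (q' i), w + t • w', mul_ne_zero ht ht', ?_,
      spW.add_mem hw (spW.smul_mem _ hw'), ?_⟩
    · intro i
      simp only [lc, Matrix.cons_val_one, Matrix.cons_val_fin_one]
      rw [mul_zero, zero_add]
      exact mul_ne_zero (hq' i) (hq i)
    · rw [Units.val_mul, ha, hb, blk_mul]
      congr 1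
      · funext i s; fin_cases s <;> simp [lc, mul_comm]
      · funext i s; fin_cases s <;> simp [lc]; ring
  one_mem' := ⟨1, fun _ => ![0, 1], 0, one_ne_zero, by simp, spW.zero_mem, by
    rw [Units.val_one, ← blk_one]
    congr 1⟩
  inv_mem' := by
    rintro a ⟨t, q, w, ht, hq, hw, ha⟩
    have hd : ∀ i, dt ![t, 0] (q i) ≠ 0 := by
      intro i; simp only [dt, Matrix.cons_val_zero, Matrix.cons_val_one, Matrix.cons_val_fin_one]
      rw [zero_mul, sub_zero]; exact mul_ne_zero ht (hq i)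
    have : a = mkGL (fun _ => ![t, 0]) q (fun i => ![w i, 0]) hd := Units.ext ha
    subst this
    refine ⟨t⁻¹, fun i => iq ![t, 0] (q i), (-t⁻¹) • w, inv_ne_zero ht, ?_,
      spW.smul_mem _ hw, ?_⟩
    · intro i
      simp only [iq, Matrix.cons_val_zero, Matrix.cons_val_one, Matrix.cons_val_fin_one]
      exact div_ne_zero ht (hd i)
    · rw [mkGL_inv_val]
      have hdt : ∀ i, dt ![t, 0] (q i) = t * q i 1 := by
        intro i; simp [dt]
      congr 1
      · funext i s
        have := hq i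
        fin_cases s
        · simp only [ip, hdt, Fin.zero_eta, Matrix.cons_val_zero]; field_simp
        · simp [ip]
      · funext i s
        have := hq i
        fin_cases s
        · simp only [iv, lc, ip, iq, hdt, Fin.zero_eta, Matrix.cons_val_zero, Pi.neg_apply,
            Pi.smul_apply, smul_eq_mul, Matrix.cons_val_one, Matrix.cons_val_fin_one]
          field_simp
          ring
        · simp [iv, lc, ip, iq]

lemma grpH_le : grpH ≤ grpG := by
  rintro a ⟨t, q, w, ht, hq, hw, ha⟩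
  refine ⟨_, _, _, ?_, ha⟩
  intro i
  simp only [dt, Matrix.cons_val_zero, Matrix.cons_val_one, Matrix.cons_val_fin_one]
  rw [zero_mul, sub_zero]; exact mul_ne_zero ht (hq i)

/-! ### coordinates on `G` and cosets -/

/-- first columns of the blocks -/
def pc (A : Matrix (Fin 3 × Fin 9) (Fin 3 × Fin 9) ℂ) : Fin 9 → Fin 2 → ℂ :=
  fun i s => A (Fin.castSucc s, i) (0, i)
/-- second columns of the blocks -/
def qc (A : Matrix (Fin 3 × Fin 9) (Fin 3 × Fin 9) ℂ) : Fin 9 → Fin 2 → ℂ :=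
  fun i s => A (Fin.castSucc s, i) (1, i)
/-- third columns of the blocks -/
def vc (A : Matrix (Fin 3 × Fin 9) (Fin 3 × Fin 9) ℂ) : Fin 9 → Fin 2 → ℂ :=
  fun i s => A (Fin.castSucc s, i) (2, i)

lemma pc_blk (p q v : Fin 9 → Fin 2 → ℂ) : pc (blk p q v) = p := by
  funext i s
  fin_cases s <;> simp [pc, blk, Matrix.blockDiagonal_apply, aff]
lemma qc_blk (p q v : Fin 9 → Fin 2 → ℂ) : qc (blk p q v) = q := by
  funext i s
  fin_cases s <;> simp [qc, blk, Matrix.blockDiagonal_apply, aff]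
lemma vc_blk (p q v : Fin 9 → Fin 2 → ℂ) : vc (blk p q v) = v := by
  funext i s
  fin_cases s <;> simp [vc, blk, Matrix.blockDiagonal_apply, aff]

lemma mkGL_val (p q v : Fin 9 → Fin 2 → ℂ) (h : ∀ i, dt (p i) (q i) ≠ 0) :
    ((mkGL p q v h : GL (Fin 3 × Fin 9) ℂ) : Matrix (Fin 3 × Fin 9) (Fin 3 × Fin 9) ℂ) =
    blk p q v := rfl

/-- element of `G` -/
noncomputable def mkG (p q v : Fin 9 → Fin 2 → ℂ) (h : ∀ i, dt (p i) (q i) ≠ 0) : grpG :=
  ⟨mkGL p q v h, p, q, v, h, rfl⟩

lemma exists_mkG (g : grpG) : ∃ p q v h, g = mkG p q v h := by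
  obtain ⟨g, p, q, v, h, hg⟩ := g
  exact ⟨p, q, v, h, Subtype.ext (Units.ext hg)⟩

lemma lc_smul_ip {p q : Fin 2 → ℂ} (h : dt p q ≠ 0) (t : ℂ) :
    lc (ip p q) (iq p q) (fun s => t * p s) = ![t, 0] := by
  have h1 := congrFun (lc_ip' h)
  have e1 := h1 0
  have e2 := h1 1
  simp only [lc, Matrix.cons_val_zero, Matrix.cons_val_one, Matrix.cons_val_fin_one] at e1 e2
  funext s
  fin_cases s
  · simp only [lc, Fin.zero_eta, Matrix.cons_val_zero]
    linear_combination t * e1
  · simp only [lc, Fin.mk_one, Matrix.cons_val_one, Matrix.cons_val_fin_one]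
    linear_combination t * e2

/-- the coset relation in coordinates -/
lemma coset_iff (p q v : Fin 9 → Fin 2 → ℂ) (h) (p' q' v' : Fin 9 → Fin 2 → ℂ) (h') :
    (QuotientGroup.mk (mkG p q v h) : grpG ⧸ grpH.subgroupOf grpG) =
      QuotientGroup.mk (mkG p' q' v' h') ↔
    ∃ (t : ℂ) (w : Fin 9 → ℂ), t ≠ 0 ∧ w ∈ spW ∧ p' = (fun i s => t * p i s) ∧
      v' = fun i s => v i s + w i * p i s := by
  rw [QuotientGroup.eq, Subgroup.mem_subgroupOf]
  have hval : (((mkG p q v h)⁻¹ * mkG p' q' v' h' : grpG) : GL (Fin 3 × Fin 9) ℂ) =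
    (mkGL p q v h)⁻¹ * mkGL p' q' v' h' := rfl
  rw [hval]
  constructor
  · rintro ⟨t, qq, w, ht, hq, hw, hh⟩
    have e : mkGL p' q' v' h' = mkGL p q v h * ((mkGL p q v h)⁻¹ * mkGL p' q' v' h') := by
      rw [mul_inv_cancel_left]
    have e2 := congrArg (fun g : GL (Fin 3 × Fin 9) ℂ =>
      (g : Matrix (Fin 3 × Fin 9) (Fin 3 × Fin 9) ℂ)) e
    simp only [mkGL_val] at e2
    rw [Units.val_mul, hh, mkGL_val, blk_mul] at e2
    refine ⟨t, w, ht, hw, ?_, ?_⟩
    · rw [← pc_blk p' q' v', e2, pc_blk]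
      funext i s
      simp [lc]
    · rw [← vc_blk p' q' v', e2, vc_blk]
      funext i s
      simp only [lc, Pi.add_apply, Matrix.cons_val_zero, Matrix.cons_val_one,
        Matrix.cons_val_fin_one]
      ring
  · rintro ⟨t, w, ht, hw, rfl, rfl⟩
    refine ⟨t, fun i => lc (ip (p i) (q i)) (iq (p i) (q i)) (q' i), w, ht, ?_, hw, ?_⟩
    · intro i h0
      have h1 := mul_ne_zero (dt_inv (h i)) (h' i)
      rw [← dt_lc, lc_smul_ip (h i)] at h1
      apply h1
      simp only at h0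
      simp only [dt, Matrix.cons_val_zero, Matrix.cons_val_one, Matrix.cons_val_fin_one]
      rw [h0]; ring
    · rw [Units.val_mul, mkGL_inv_val, mkGL_val, blk_mul]
      congr 1
      · funext i
        exact lc_smul_ip (h i) t
      · funext i
        have e1 := lc_smul_ip (h i) (w i)
        have e2 := lc_iv' (p := p i) (q := q i) (v := v i)
        funext s
        have e1' := congrFun e1 s
        have e2' := congrFun e2 s
        simp only [lc, Pi.add_apply] at e1' e2' ⊢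
        have e3 : (![(0 : ℂ), 0] : Fin 2 → ℂ) s = 0 := by fin_cases s <;> rfl
        rw [e3] at e2'
        linear_combination e1' + e2'

end Pool.Agent.H774R3
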