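import Mathlib
import Pool.Agent.H774R3.Basic

set_option autoImplicit false

open MvPolynomial
open scoped Topology LinearAlgebra.Projectivization

namespace Pool.Agent.H774R3

variable {ι : Type} [Fintype ι] [DecidableEq ι]

lemma gl_basis {U : Set (GL ι ℂ)} (hU : IsOpen[(glSpace ι).top] U) {g : GL ι ℂ} (hg : g ∈ U) :
    ∃ q : MvPolynomial (ι × ι) ℂ, eval (entries g) q ≠ 0 ∧
      ∀ g' : GL ι ℂ, eval (entries g') q ≠ 0 → g' ∈ U := by
  obtain ⟨s, hs, rfl⟩ := (@isOpen_induced_iff _ _ (affineSpace (ι × ι)).top U entries).mp hU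
  obtain ⟨q, h1, h2⟩ := affine_basis hs hg
  exact ⟨q, h1, fun g' hg' => h2 _ hg'⟩

lemma gl_open_D (q : MvPolynomial (ι × ι) ℂ) :
    IsOpen[(glSpace ι).top] {g : GL ι ℂ | eval (entries g) q ≠ 0} :=
  (@isOpen_induced_iff _ _ (affineSpace (ι × ι)).top _ entries).mpr ⟨_, affine_isOpen_D q, rfl⟩

lemma grp_basis {G : Subgroup (GL ι ℂ)} {U : Set G} (hU : IsOpen[(grpSpace G).top] U) {g : G}
    (hg : g ∈ U) : ∃ q : MvPolynomial (ι × ι) ℂ, eval (entries g.1) q ≠ 0 ∧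
      ∀ g' : G, eval (entries g'.1) q ≠ 0 → g' ∈ U := by
  obtain ⟨s, hs, rfl⟩ := (@isOpen_induced_iff _ _ (glSpace ι).top U Subtype.val).mp hU
  obtain ⟨q, h1, h2⟩ := gl_basis hs hg
  exact ⟨q, h1, fun g' hg' => h2 _ hg'⟩

lemma grp_open_D (G : Subgroup (GL ι ℂ)) (q : MvPolynomial (ι × ι) ℂ) :
    IsOpen[(grpSpace G).top] {g : G | eval (entries g.1) q ≠ 0} :=
  (@isOpen_induced_iff _ _ (glSpace ι).top _ Subtype.val).mpr ⟨_, gl_open_D q, rfl⟩

lemma grp_open_of_basis (G : Subgroup (GL ι ℂ)) (U : Set G)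
    (h : ∀ g ∈ U, ∃ q : MvPolynomial (ι × ι) ℂ, eval (entries g.1) q ≠ 0 ∧
      ∀ g' : G, eval (entries g'.1) q ≠ 0 → g' ∈ U) : IsOpen[(grpSpace G).top] U := by
  letI := (grpSpace G).top
  rw [isOpen_iff_forall_mem_open]
  intro g hg
  obtain ⟨q, h1, h2⟩ := h g hg
  exact ⟨_, fun g' hg' => h2 g' hg', grp_open_D G q, h1⟩

lemma grp_reg_iff {G : Subgroup (GL ι ℂ)} {g : G} {f : G → ℂ} :
    (grpSpace G).reg g f ↔ ∃ P Q : MvPolynomial (ι × ι) ℂ, eval (entries g.1) Q ≠ 0 ∧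
      ∀ g' : G, eval (entries g'.1) Q ≠ 0 →
        f g' = eval (entries g'.1) P / eval (entries g'.1) Q := by
  constructor
  · rintro ⟨g1, ⟨g2, ⟨P, Q, hQ, hPQ⟩, U, hU, hgU, hU'⟩, U2, hU2, hgU2, hU2'⟩
    obtain ⟨q1, h1, h1'⟩ := gl_basis (U := U) hU hgU
    obtain ⟨q2, h2, h2'⟩ := grp_basis (U := U2) hU2 hgU2
    refine ⟨P * (q1 * q2), Q * (q1 * q2), by
      simp only [map_mul]; exact mul_ne_zero hQ (mul_ne_zero h1 h2), fun g' hg' => ?_⟩
    simp only [map_mul] at hg' ⊢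
    have a1 := left_ne_zero_of_mul hg'
    have a2 := right_ne_zero_of_mul hg'
    have a3 := left_ne_zero_of_mul a2
    have a4 := right_ne_zero_of_mul a2
    rw [hU2' g' (h2' g' a4), hU' g'.1 (h1' g'.1 a3), hPQ _ a1, mul_div_mul_right _ _ a2]
  · rintro ⟨P, Q, hQ, hPQ⟩
    refine ⟨fun h => eval (entries h) P / eval (entries h) Q,
      ⟨fun x => eval x P / eval x Q, ⟨P, Q, hQ, fun y _ => rfl⟩, Set.univ,
        @isOpen_univ _ (glSpace ι).top, Set.mem_univ _, fun z _ => rfl⟩,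
      {g' : G | eval (entries g'.1) Q ≠ 0}, grp_open_D G Q, hQ, fun z hz => hPQ z hz⟩

/-- openness in the quotient -/
lemma hom_isOpen_iff {G K : Subgroup (GL ι ℂ)} {V : Set (G ⧸ K.subgroupOf G)} :
    IsOpen[(homSpace G K).top] V ↔
      IsOpen[(grpSpace G).top] {g : G | (QuotientGroup.mk g : G ⧸ K.subgroupOf G) ∈ V} :=
  Iff.rfl

/-- every regular function on `G / K` pulls back to a regular function on `G` -/
lemma hom_reg_pull {G K : Subgroup (GL ι ℂ)} {g : G} {f : G ⧸ K.subgroupOf G → ℂ}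
    (h : (homSpace G K).reg (QuotientGroup.mk g) f) :
    (grpSpace G).reg g (fun g' => f (QuotientGroup.mk g')) := by
  obtain ⟨V, _, hV, hV'⟩ := h
  exact hV' g hV

end Pool.Agent.H774R3
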