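import Mathlib
import Pool.Agent.H774R3.Grp
import Pool.Agent.H774R3.GrpTop

set_option autoImplicit false

open MvPolynomial
open scoped Topology LinearAlgebra.Projectivization

namespace Pool.Agent.H774R3

lemma diff_eval {σ : Type} (P : MvPolynomial σ ℂ) {a : ℂ → σ → ℂ}
    (ha : ∀ i, Differentiable ℂ (fun s => a s i)) : Differentiable ℂ (fun s => eval (a s) P) := by
  induction P using MvPolynomial.induction_on with
  | C c => simp only [eval_C]; exact differentiable_const c
  | add p q hp hq => simp only [map_add]; exact hp.add hq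
  | mul_X p i hp => simp only [map_mul, eval_X]; exact hp.mul (ha i)

lemma diff_curve {F : grpG → ℂ} (hreg : ∀ g, (grpSpace grpG).reg g F) {γ : ℂ → grpG}
    (hγ : ∀ i j, Differentiable ℂ (fun s => (((γ s : grpG) : GL (Fin 3 × Fin 9) ℂ) :
      Matrix (Fin 3 × Fin 9) (Fin 3 × Fin 9) ℂ) i j)) :
    Differentiable ℂ (fun s => F (γ s)) := by
  intro s0
  obtain ⟨P, Q, hQ, hPQ⟩ := grp_reg_iff.mp (hreg (γ s0))
  have hd : ∀ R : MvPolynomial ((Fin 3 × Fin 9) × (Fin 3 × Fin 9)) ℂ,
      Differentiable ℂ (fun s => eval (entries (γ s).1) R) :=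
    fun R => diff_eval R (fun ij => hγ ij.1 ij.2)
  have hev : (fun s => F (γ s)) =ᶠ[𝓝 s0]
      fun s => eval (entries (γ s).1) P / eval (entries (γ s).1) Q := by
    have hc : ContinuousAt (fun s => eval (entries (γ s).1) Q) s0 := (hd Q s0).continuousAt
    filter_upwards [hc.eventually_ne hQ] with s hs
    exact hPQ _ hs
  exact (hev.differentiableAt_iff).mpr ((hd P s0).div (hd Q s0) hQ)

lemma diff_mkG {p q v : ℂ → Fin 9 → Fin 2 → ℂ} (h : ∀ s i, dt (p s i) (q s i) ≠ 0)
    (hp : ∀ i a, Differentiable ℂ (fun s => p s i a))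
    (hq : ∀ i a, Differentiable ℂ (fun s => q s i a))
    (hv : ∀ i a, Differentiable ℂ (fun s => v s i a)) (x y : Fin 3 × Fin 9) :
    Differentiable ℂ (fun s => (((mkG (p s) (q s) (v s) (h s) : grpG) : GL (Fin 3 × Fin 9) ℂ) :
      Matrix (Fin 3 × Fin 9) (Fin 3 × Fin 9) ℂ) x y) := by
  have e : ∀ s, (((mkG (p s) (q s) (v s) (h s) : grpG) : GL (Fin 3 × Fin 9) ℂ) :
      Matrix (Fin 3 × Fin 9) (Fin 3 × Fin 9) ℂ) x y =
      if x.2 = y.2 then aff (p s x.2) (q s x.2) (v s x.2) x.1 y.1 else 0 := by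
    intro s
    change blk (p s) (q s) (v s) x y = _
    rw [blk, Matrix.blockDiagonal_apply]
  simp only [e]
  obtain ⟨a, i⟩ := x
  obtain ⟨b, j⟩ := y
  by_cases hij : i = j
  · subst hij
    simp only [if_true]
    fin_cases a <;> fin_cases b <;> simp [aff] <;>
      first | exact hp i _ | exact hq i _ | exact hv i _
  · simp only [if_neg hij]; exact differentiable_const 0

section
variable {F : grpG → ℂ} (hreg : ∀ g, (grpSpace grpG).reg g F)
  (hinv : ∀ g g' : grpG, (QuotientGroup.mk g : grpG ⧸ grpH.subgroupOf grpG) =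
    QuotientGroup.mk g' → F g = F g')

include hinv in
lemma F_q (p q v : Fin 9 → Fin 2 → ℂ) (h) (q' : Fin 9 → Fin 2 → ℂ) (h') :
    F (mkG p q v h) = F (mkG p q' v h') := by
  apply hinv
  rw [coset_iff]
  refine ⟨1, 0, one_ne_zero, spW.zero_mem, ?_, ?_⟩
  · funext i s; simp
  · funext i s; simp

include hreg hinv in
lemma F_step1 (p q v : Fin 9 → Fin 2 → ℂ) (h) (p' q' : Fin 9 → Fin 2 → ℂ) (h')
    (hd : ∀ i, dt (p i) (p' i) ≠ 0) :
    F (mkG p q v h) = F (mkG p' q' v h') := by
  have h1 : ∀ (s : ℂ) (i : Fin 9), dt ((fun i a => p i a + s * p' i a) i)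
      ((fun i a => p' i a / dt (p i) (p' i)) i) ≠ 0 := by
    intro s i
    have := hd i
    have e : dt ((fun i a => p i a + s * p' i a) i)
      ((fun i a => p' i a / dt (p i) (p' i)) i) = 1 := by
      simp only [dt]
      have h' : p i 0 * p' i 1 - p i 1 * p' i 0 ≠ 0 := hd i
      rw [← div_self h']
      ring
    rw [e]; exact one_ne_zero
  have h2 : ∀ (s : ℂ) (i : Fin 9), dt ((fun i a => s * p i a + p' i a) i)
      ((fun i a => - p i a / dt (p i) (p' i)) i) ≠ 0 := by
    intro s i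
    have := hd i
    have e : dt ((fun i a => s * p i a + p' i a) i)
      ((fun i a => - p i a / dt (p i) (p' i)) i) = 1 := by
      simp only [dt]
      have h' : p i 0 * p' i 1 - p i 1 * p' i 0 ≠ 0 := hd i
      rw [← div_self h']
      ring
    rw [e]; exact one_ne_zero
  let γ1 : ℂ → grpG := fun s => mkG _ _ v (h1 s)
  let γ2 : ℂ → grpG := fun s => mkG _ _ v (h2 s)
  have d1 : Differentiable ℂ (fun s => F (γ1 s)) := by
    apply diff_curve hreg
    intro x y
    exact diff_mkG (p := fun s i a => p i a + s * p' i a)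
      (q := fun _ i a => p' i a / dt (p i) (p' i)) (v := fun _ => v) h1
      (fun i a => by fun_prop) (fun i a => by fun_prop) (fun i a => by fun_prop) x y
  have d2 : Differentiable ℂ (fun s => F (γ2 s)) := by
    apply diff_curve hreg
    intro x y
    exact diff_mkG (p := fun s i a => s * p i a + p' i a)
      (q := fun _ i a => - p i a / dt (p i) (p' i)) (v := fun _ => v) h2
      (fun i a => by fun_prop) (fun i a => by fun_prop) (fun i a => by fun_prop) x y
  have h12 : ∀ s : ℂ, s ≠ 0 → F (γ1 s) = F (γ2 s⁻¹) := by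
    intro s hs
    symm
    apply hinv
    rw [coset_iff]
    refine ⟨s, 0, hs, spW.zero_mem, ?_, ?_⟩
    · funext i a; field_simp
    · funext i a; simp
  obtain ⟨C1, hC1⟩ := (isCompact_closedBall (0 : ℂ) 1).exists_bound_of_continuousOn
    d1.continuous.continuousOn
  obtain ⟨C2, hC2⟩ := (isCompact_closedBall (0 : ℂ) 1).exists_bound_of_continuousOn
    d2.continuous.continuousOn
  have hb : Bornology.IsBounded (Set.range (fun s => F (γ1 s))) := by
    rw [isBounded_iff_forall_norm_le]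
    refine ⟨max C1 C2, ?_⟩
    rintro _ ⟨s, rfl⟩
    by_cases hs : ‖s‖ ≤ 1
    · exact le_max_of_le_left (hC1 s (by simpa using hs))
    · push Not at hs
      have hs0 : s ≠ 0 := by rintro rfl; simp at hs; linarith
      change ‖F (γ1 s)‖ ≤ _
      rw [h12 s hs0]
      apply le_max_of_le_right
      apply hC2
      simp only [Metric.mem_closedBall, dist_zero_right, norm_inv]
      exact inv_le_one_of_one_le₀ hs.le
  have hc : ∀ s, F (γ1 s) = F (γ1 0) := fun s => d1.apply_eq_apply_of_bounded hb s 0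
  have hc2 : ∀ s : ℂ, s ≠ 0 → F (γ2 s) = F (γ1 0) := by
    intro s hs
    have := h12 s⁻¹ (inv_ne_zero hs)
    rw [inv_inv] at this
    rw [← this, hc]
  have hc3 : F (γ2 0) = F (γ1 0) := by
    have hcont : Filter.Tendsto (fun s => F (γ2 s)) (𝓝[≠] 0) (𝓝 (F (γ2 0))) :=
      (d2.continuous.tendsto 0).mono_left nhdsWithin_le_nhds
    have hev : (fun s => F (γ2 s)) =ᶠ[𝓝[≠] 0] fun _ => F (γ1 0) := by
      filter_upwards [self_mem_nhdsWithin] with s hs
      exact hc2 s hs
    exact tendsto_nhds_unique (hcont.congr' hev) tendsto_const_nhds |>.symm ▸ rfl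
  have e1 : F (γ1 0) = F (mkG p q v h) := by
    apply hinv
    rw [coset_iff]
    refine ⟨1, 0, one_ne_zero, spW.zero_mem, ?_, ?_⟩
    · funext i a; simp
    · funext i a; simp
  have e2 : F (γ2 0) = F (mkG p' q' v h') := by
    apply hinv
    rw [coset_iff]
    refine ⟨1, 0, one_ne_zero, spW.zero_mem, ?_, ?_⟩
    · funext i a; simp
    · funext i a; simp
  rw [← e1, ← e2, hc3]

lemma exists_generic (p p' : Fin 2 → ℂ) (hp : p ≠ 0) (hp' : p' ≠ 0) :
    ∃ r : Fin 2 → ℂ, r ≠ 0 ∧ dt p r ≠ 0 ∧ dt r p' ≠ 0 := by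
  by_contra hcon
  push Not at hcon
  have h1 := hcon ![1, 0] (by simp)
  have h2 := hcon ![0, 1] (by simp)
  have h3 := hcon ![1, 1] (by simp)
  have h4 := hcon ![1, -1] (by simp)
  have hp0 : ¬ (p 0 = 0 ∧ p 1 = 0) := fun h => hp (by funext s; fin_cases s; exact h.1; exact h.2)
  have hp0' : ¬ (p' 0 = 0 ∧ p' 1 = 0) := fun h => hp' (by funext s; fin_cases s; exact h.1; exact h.2)
  simp only [dt, Matrix.cons_val_zero, Matrix.cons_val_one, Matrix.cons_val_fin_one, mul_zero,
    mul_one, zero_mul, one_mul, zero_sub, sub_zero] at h1 h2 h3 h4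
  by_cases a : p 1 = 0
  · have a0 : p 0 ≠ 0 := fun h => hp0 ⟨h, a⟩
    have b := h2 a0
    have b0 : p' 0 = 0 := by simpa using b
    have c := h3 (by rw [a]; simpa using a0)
    have c' := h4 (by rw [a]; simpa using a0)
    apply hp0'
    refine ⟨b0, ?_⟩
    rw [b0] at c; simpa using c
  · have b := h1 (by simpa using a)
    by_cases a0 : p 0 = 0
    · have c := h3 (by rw [a0]; simpa using a)
      apply hp0'
      rw [b] at c
      exact ⟨by simpa using c, b⟩
    · have c := h2 a0
      exact hp0' ⟨by simpa using c, b⟩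

lemma ne_zero_of_dt {p q : Fin 2 → ℂ} (h : dt p q ≠ 0) : p ≠ 0 := by
  rintro rfl; simp [dt] at h

lemma exists_dt {p : Fin 2 → ℂ} (h : p ≠ 0) : ∃ q, dt p q ≠ 0 := by
  by_contra hcon
  push Not at hcon
  have h1 := hcon ![1, 0]
  have h2 := hcon ![0, 1]
  simp [dt] at h1 h2
  exact h (by funext s; fin_cases s; exact h2; exact h1)

include hreg hinv in
lemma F_step2 (p q v : Fin 9 → Fin 2 → ℂ) (h) (p' q' : Fin 9 → Fin 2 → ℂ) (h') :
    F (mkG p q v h) = F (mkG p' q' v h') := by
  choose r hr0 hr1 hr2 using fun i => exists_generic (p i) (p' i) (ne_zero_of_dt (h i))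
    (ne_zero_of_dt (h' i))
  choose s hs using fun i => exists_dt (hr0 i)
  rw [F_step1 hreg hinv p q v h r s hs hr1, F_step1 hreg hinv r s v hs p' q' h' hr2]

lemma exists_w (i : Fin 9) : ∃ w ∈ spW, w i ≠ 0 := by
  by_cases hi : (i : ℕ) < 5
  · refine ⟨![1, -4, 6, -4, 1, 0, 0, 0, 0], ?_, ?_⟩
    · rw [mem_spW]
      refine ⟨?_, ?_, ?_⟩ <;> simp [Fin.sum_univ_succ, tt] <;> norm_num
    · fin_cases i <;> simp at hi ⊢
  · refine ⟨![0, 0, 0, 0, 1, -4, 6, -4, 1], ?_, ?_⟩
    · rw [mem_spW]
      refine ⟨?_, ?_, ?_⟩ <;> simp [Fin.sum_univ_succ, tt] <;> norm_num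
    · fin_cases i <;> simp at hi ⊢

include hreg hinv in
/-- `F` only depends on the third columns -/
lemma F_dep (p q v : Fin 9 → Fin 2 → ℂ) (h) (w : Fin 9 → ℂ) (hw : w ∈ spW)
    (r : Fin 9 → Fin 2 → ℂ) (hr : ∀ i, r i ≠ 0) :
    F (mkG p q v h) = F (mkG p q (fun i s => v i s + w i * r i s) h) := by
  choose s hs using fun i => exists_dt (hr i)
  rw [F_step2 hreg hinv p q v h r s hs]
  rw [F_step2 hreg hinv p q _ h r s hs]
  apply hinv
  rw [coset_iff]
  refine ⟨1, w, one_ne_zero, hw, ?_, rfl⟩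
  funext i a; simp

include hreg hinv in
lemma F_single (p q v : Fin 9 → Fin 2 → ℂ) (h) (i : Fin 9) (u : Fin 2 → ℂ) :
    F (mkG p q v h) = F (mkG p q (fun j s => v j s + if j = i then u s else 0) h) := by
  obtain ⟨w, hw, hwi⟩ := exists_w i
  -- choose nonzero vectors with prescribed difference
  obtain ⟨a, b, ha, hb, hab⟩ : ∃ a b : Fin 2 → ℂ, a ≠ 0 ∧ b ≠ 0 ∧ ∀ s, a s - b s = u s / w i := by
    by_cases h1 : (fun s => u s / w i) + ![1, 0] = 0
    · refine ⟨(fun s => u s / w i) + ![2, 0], ![2, 0], ?_, by simp, fun s => by simp⟩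
      intro h2
      have e1 := congrFun h1 0
      have e2 := congrFun h2 0
      simp only [Pi.add_apply, Matrix.cons_val_zero, Pi.zero_apply] at e1 e2
      have : (1 : ℂ) = 0 := by linear_combination e2 - e1
      exact one_ne_zero this
    · exact ⟨(fun s => u s / w i) + ![1, 0], ![1, 0], h1, by simp, fun s => by simp⟩
  have hr1 : ∀ j : Fin 9, (fun j => if j = i then a else ![1, 0]) j ≠ (0 : Fin 2 → ℂ) := by
    intro j; by_cases hj : j = i <;> simp [hj, ha]
  have hr2 : ∀ j : Fin 9, (fun j => if j = i then b else ![1, 0]) j ≠ (0 : Fin 2 → ℂ) := by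
    intro j; by_cases hj : j = i <;> simp [hj, hb]
  rw [F_dep hreg hinv p q v h w hw _ hr1]
  rw [F_dep hreg hinv p q _ h (-w) (spW.neg_mem hw) _ hr2]
  congr 2
  funext j s
  by_cases hj : j = i
  · subst hj
    simp only [if_true, Pi.neg_apply]
    have := hab s
    have e : u s = w j * (a s - b s) := by rw [this]; field_simp
    rw [e]; ring
  · simp only [if_neg hj, Pi.neg_apply]; ring

include hreg hinv in
lemma F_trans (p q v : Fin 9 → Fin 2 → ℂ) (h) (u : Fin 9 → Fin 2 → ℂ) (S : Finset (Fin 9)) :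
    F (mkG p q v h) = F (mkG p q (fun j s => v j s + if j ∈ S then u j s else 0) h) := by
  induction S using Finset.induction_on with
  | empty => simp
  | insert i S hi ih =>
    rw [ih, F_single hreg hinv p q _ h i (u i)]
    congr 2
    funext j s
    by_cases hj : j = i
    · subst hj; simp [hi]
    · simp [hj]

include hreg hinv in
theorem F_const (g g' : grpG) : F g = F g' := by
  obtain ⟨p, q, v, h, rfl⟩ := exists_mkG g
  obtain ⟨p', q', v', h', rfl⟩ := exists_mkG g'
  rw [F_step2 hreg hinv p q v h p' q' h', F_trans hreg hinv p' q' v h' (v' - v) Finset.univ]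
  congr 2
  funext j s
  simp

end

/-- condition (C3) -/
theorem noQuasiAffineQuotient : NoQuasiAffineQuotient grpG grpH := by
  intro K _ hHK hKG hne hqa
  obtain ⟨σ, _, Y, _, e, he⟩ := hqa
  apply hne
  apply le_antisymm hKG
  -- the coordinate functions are constant
  have hconst : ∀ (g g' : grpG), e (QuotientGroup.mk g) = e (QuotientGroup.mk g') := by
    intro g g'
    apply Subtype.ext
    funext j
    refine F_const (F := fun g : grpG => (e (QuotientGroup.mk g)).1 j) ?_ ?_ g g'
    · intro g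
      apply hom_reg_pull (f := fun x => (e x).1 j)
      rw [← he.2 _ (fun y : Y => y.1 j)]
      refine ⟨fun z => z j, ⟨X j, 1, by simp, fun y _ => by simp⟩, Set.univ, ?_, Set.mem_univ _,
        fun z _ => rfl⟩
      exact @isOpen_univ _ ((affineSpace σ).induced (Subtype.val : Y → (σ → ℂ))).top
    · intro g g' hgg
      have : (QuotientGroup.mk g : grpG ⧸ K.subgroupOf grpG) = QuotientGroup.mk g' := by
        rw [QuotientGroup.eq, Subgroup.mem_subgroupOf] at hgg ⊢
        exact hHK hgg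
      simp only [this]
  intro g hg
  have h1 := e.injective (hconst 1 ⟨g, hg⟩)
  rw [QuotientGroup.eq, Subgroup.mem_subgroupOf] at h1
  simpa using h1

end Pool.Agent.H774R3
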