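import Mathlib
import Pool.Agent.H774R3.Grp
import Pool.Agent.H774R3.GrpTop

set_option autoImplicit false

open MvPolynomial
open scoped Topology LinearAlgebra.Projectivization

namespace Pool.Agent.H774R3

/-- index set of the coordinates `(p, v)` -/
abbrev Vx : Type := (Fin 9 × Fin 2) ⊕ (Fin 9 × Fin 2)

/-- the point with coordinates `(p, v)` -/
def pt (p v : Fin 9 → Fin 2 → ℂ) : Vx → ℂ :=
  Sum.elim (fun x => p x.1 x.2) (fun x => v x.1 x.2)

lemma pt_surj (x : Vx → ℂ) : x = pt (fun i s => x (Sum.inl (i, s))) (fun i s => x (Sum.inr (i, s))) := by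
  funext y; rcases y with ⟨i, s⟩ | ⟨i, s⟩ <;> rfl

lemma eval_bind {σ τ : Type} (f : σ → MvPolynomial τ ℂ) (P : MvPolynomial σ ℂ) (x : τ → ℂ) :
    eval x (bind₁ f P) = eval (fun i => eval x (f i)) P := by
  induction P using MvPolynomial.induction_on with
  | C c => simp
  | add p q hp hq => simp [hp, hq]
  | mul_X p i hp => simp [hp]

/-- generic element of `G` with given second columns, as a matrix of polynomials -/
noncomputable def gen (q : Fin 9 → Fin 2 → ℂ) :
    (Fin 3 × Fin 9) × (Fin 3 × Fin 9) → MvPolynomial Vx ℂ := fun xy =>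
  Matrix.blockDiagonal (fun i => (!![X (Sum.inl (i, 0)), C (q i 0), X (Sum.inr (i, 0));
    X (Sum.inl (i, 1)), C (q i 1), X (Sum.inr (i, 1)); 0, 0, 1] :
      Matrix (Fin 3) (Fin 3) (MvPolynomial Vx ℂ))) xy.1 xy.2

lemma eval_gen (p q v : Fin 9 → Fin 2 → ℂ) (xy : (Fin 3 × Fin 9) × (Fin 3 × Fin 9)) :
    eval (pt p v) (gen q xy) = blk p q v xy.1 xy.2 := by
  obtain ⟨⟨a, i⟩, ⟨b, j⟩⟩ := xy
  simp only [gen, blk, Matrix.blockDiagonal_apply]
  by_cases hij : i = j
  · subst hij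
    simp only [if_true]
    fin_cases a <;> fin_cases b <;> simp [aff, pt]
  · simp [hij]

lemma eval_gen_sub (p q v : Fin 9 → Fin 2 → ℂ) (h)
    (P : MvPolynomial ((Fin 3 × Fin 9) × (Fin 3 × Fin 9)) ℂ) :
    eval (pt p v) (bind₁ (gen q) P) = eval (entries (mkG p q v h).1) P := by
  rw [eval_bind]
  congr 2
  funext xy
  rw [eval_gen]
  rfl

/-- determinants as polynomials -/
noncomputable def dtP (q : Fin 9 → Fin 2 → ℂ) (i : Fin 9) : MvPolynomial Vx ℂ :=
  X (Sum.inl (i, 0)) * C (q i 1) - X (Sum.inl (i, 1)) * C (q i 0)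

lemma eval_dtP (p q v : Fin 9 → Fin 2 → ℂ) (i : Fin 9) :
    eval (pt p v) (dtP q i) = dt (p i) (q i) := by
  simp [dtP, dt, pt]

lemma poly_zero_of_D {σ : Type} (Q R : MvPolynomial σ ℂ) (hQ : Q ≠ 0)
    (h : ∀ x, eval x Q ≠ 0 → eval x R = 0) : R = 0 := by
  have : Q * R = 0 := by
    apply MvPolynomial.funext
    intro x
    simp only [map_mul, map_zero]
    by_cases hx : eval x Q = 0
    · simp [hx]
    · simp [h x hx]
  exact (mul_eq_zero.mp this).resolve_left hQ

section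
variable {κ : Type} {Y : Set (ℙ ℂ (κ → ℂ))}
  (e : (grpG ⧸ grpH.subgroupOf grpG) ≃ Y)
  (he : IsIso (homSpace grpG grpH) ((projSpace κ).induced (Subtype.val : Y → ℙ ℂ (κ → ℂ))) e)

/-- the composition `G → G/H → ℙ` -/
noncomputable def piG (g : grpG) : ℙ ℂ (κ → ℂ) := (e (QuotientGroup.mk g)).1

include he in
lemma piG_reg_pull {g : grpG} {φ : ℙ ℂ (κ → ℂ) → ℂ} (hφ : (projSpace κ).reg (piG e g) φ) :
    (grpSpace grpG).reg g (fun g' => φ (piG e g')) := by
  apply hom_reg_pull (f := fun x => φ (e x).1)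
  rw [← he.2 _ (fun y : Y => φ y.1)]
  exact ⟨φ, hφ, Set.univ, @isOpen_univ _ ((projSpace κ).induced
    (Subtype.val : Y → ℙ ℂ (κ → ℂ))).top, Set.mem_univ _, fun z _ => rfl⟩

include he in
lemma piG_open_pull {O : Set (ℙ ℂ (κ → ℂ))} (hO : IsOpen[(projSpace κ).top] O) :
    IsOpen[(grpSpace grpG).top] {g : grpG | piG e g ∈ O} := by
  have h1 : IsOpen[((projSpace κ).induced (Subtype.val : Y → ℙ ℂ (κ → ℂ))).top]
      {y : Y | y.1 ∈ O} :=
    (@isOpen_induced_iff _ _ (projSpace κ).top _ Subtype.val).mpr ⟨O, hO, rfl⟩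
  exact hom_isOpen_iff.mp ((he.1 _).mp h1)

include he in
lemma piG_ratio (g : grpG) (l j : κ) (hl : (piG e g).rep l ≠ 0) :
    ∃ P Q : MvPolynomial ((Fin 3 × Fin 9) × (Fin 3 × Fin 9)) ℂ, eval (entries g.1) Q ≠ 0 ∧
      ∀ g' : grpG, eval (entries g'.1) Q ≠ 0 → (piG e g').rep l ≠ 0 ∧
        (piG e g').rep j / (piG e g').rep l = eval (entries g'.1) P / eval (entries g'.1) Q := by
  have h1 : (projSpace κ).reg (piG e g) (fun z => z.rep j / z.rep l) :=
    ⟨1, X j, X l, isHomogeneous_X _ _, isHomogeneous_X _ _, by simpa using hl,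
      fun w _ => by simp⟩
  obtain ⟨P, Q, hQ, hPQ⟩ := grp_reg_iff.mp (piG_reg_pull e he h1)
  have h2 : IsOpen[(projSpace κ).top] {z : ℙ ℂ (κ → ℂ) | eval z.rep (X l) ≠ 0} :=
    proj_isOpen_D (isHomogeneous_X _ _)
  obtain ⟨q, hq, hq'⟩ := grp_basis (piG_open_pull e he h2) (g := g) (by simpa using hl)
  refine ⟨P * q, Q * q, by rw [map_mul]; exact mul_ne_zero hQ hq, fun g' hg' => ?_⟩
  rw [map_mul] at hg'
  have a1 := left_ne_zero_of_mul hg'
  have a2 := right_ne_zero_of_mul hg'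
  refine ⟨by simpa using hq' g' a2, ?_⟩
  rw [hPQ g' a1, map_mul, map_mul, mul_div_mul_right _ _ a2]

variable [Fintype κ]

include he in
lemma piG_local (p q v : Fin 9 → Fin 2 → ℂ) (h) (l : κ) (hl : (piG e (mkG p q v h)).rep l ≠ 0) :
    ∃ (Q : MvPolynomial Vx ℂ) (P : κ → MvPolynomial Vx ℂ), eval (pt p v) Q ≠ 0 ∧
      ∀ p' v', eval (pt p' v') Q ≠ 0 → ∃ h' : ∀ i, dt (p' i) (q i) ≠ 0,
        (piG e (mkG p' q v' h')).rep l ≠ 0 ∧
        ∀ j, (piG e (mkG p' q v' h')).rep j / (piG e (mkG p' q v' h')).rep l =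
          eval (pt p' v') (P j) / eval (pt p' v') Q := by
  classical
  choose P0 Q0 hQ0 hPQ0 using fun j => piG_ratio e he (mkG p q v h) l j hl
  set D : MvPolynomial Vx ℂ := ∏ i, dtP q i with hD
  set Q1 : κ → MvPolynomial Vx ℂ := fun j => bind₁ (gen q) (Q0 j) with hQ1
  refine ⟨(∏ j, Q1 j) * D, fun j => bind₁ (gen q) (P0 j) * (∏ k ∈ Finset.univ.erase j, Q1 k) * D,
    ?_, ?_⟩
  · rw [map_mul, map_prod, hD, map_prod]
    refine mul_ne_zero (Finset.prod_ne_zero_iff.mpr fun j _ => ?_)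
      (Finset.prod_ne_zero_iff.mpr fun i _ => ?_)
    · rw [hQ1, eval_gen_sub p q v h]; exact hQ0 j
    · rw [eval_dtP]; exact h i
  · intro p' v' hne
    rw [map_mul] at hne
    have hne1 := left_ne_zero_of_mul hne
    have hne2 := right_ne_zero_of_mul hne
    rw [map_prod] at hne1
    have hQ1' := Finset.prod_ne_zero_iff.mp hne1
    have h' : ∀ i, dt (p' i) (q i) ≠ 0 := by
      intro i
      rw [hD, map_prod] at hne2
      have := Finset.prod_ne_zero_iff.mp hne2 i (Finset.mem_univ _)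
      rwa [eval_dtP] at this
    refine ⟨h', ?_, ?_⟩
    · have := hQ1' l (Finset.mem_univ _)
      rw [hQ1, eval_gen_sub p' q v' h'] at this
      exact (hPQ0 l _ this).1
    · intro j
      have hj := hQ1' j (Finset.mem_univ _)
      have hj' := hj
      rw [hQ1, eval_gen_sub p' q v' h'] at hj'
      rw [(hPQ0 j _ hj').2]
      have hR : eval (pt p' v') (∏ k ∈ Finset.univ.erase j, Q1 k) ≠ 0 := by
        rw [map_prod]
        exact Finset.prod_ne_zero_iff.mpr fun k _ => hQ1' k (Finset.mem_univ _)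
      rw [← Finset.mul_prod_erase Finset.univ Q1 (Finset.mem_univ j)]
      rw [map_mul, map_mul, map_mul, map_mul, hQ1]
      simp only
      rw [eval_gen_sub p' q v' h', eval_gen_sub p' q v' h']
      rw [mul_div_mul_right _ _ hne2, mul_div_mul_right _ _ hR]

/-- primitive families -/
def Prim (f : κ → MvPolynomial Vx ℂ) : Prop := ∀ a b, (∀ j, a ∣ b * f j) → a ∣ b

lemma exists_prim (F : κ → MvPolynomial Vx ℂ) (hF : ∃ j, F j ≠ 0) :
    ∃ (d : MvPolynomial Vx ℂ) (f : κ → MvPolynomial Vx ℂ), d ≠ 0 ∧ (∀ j, F j = d * f j) ∧ Prim f := by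
  classical
  obtain ⟨inst⟩ : Nonempty (NormalizedGCDMonoid (MvPolynomial Vx ℂ)) := inferInstance
  obtain ⟨j0, hj0⟩ := hF
  obtain ⟨g, hg, hg1⟩ := Finset.extract_gcd F (s := Finset.univ) ⟨j0, Finset.mem_univ _⟩
  refine ⟨Finset.univ.gcd F, g, ?_, fun j => hg j (Finset.mem_univ _), ?_⟩
  · intro h0
    have := hg j0 (Finset.mem_univ _)
    rw [h0, zero_mul] at this
    exact hj0 this
  · intro a b hab
    have h1 : a ∣ Finset.univ.gcd (fun j => b * g j) := Finset.dvd_gcd fun j _ => hab j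
    have h2 : Associated (Finset.univ.gcd fun j => b * g j) (b * Finset.univ.gcd g) :=
      Finset.gcd_mul_left' _ _ _
    rw [hg1, mul_one] at h2
    exact h1.trans h2.dvd

include he in
/-- the map `G → ℙ` is given by a primitive family of polynomials in `(p, v)` -/
theorem exists_rep : ∃ f : κ → MvPolynomial Vx ℂ, Prim f ∧
    ∀ p q v h l, (piG e (mkG p q v h)).rep l ≠ 0 → eval (pt p v) (f l) ≠ 0 ∧
      ∀ j, (piG e (mkG p q v h)).rep j / (piG e (mkG p q v h)).rep l =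
        eval (pt p v) (f j) / eval (pt p v) (f l) := by
  -- base point
  have h0 : ∀ i : Fin 9, dt ((fun _ => ![1, 0]) i) ((fun _ => ![0, 1]) i) ≠ 0 := by
    intro i; simp [dt]
  set g0 : grpG := mkG (fun _ => ![1, 0]) (fun _ => ![0, 1]) (fun _ => ![0, 0]) h0 with hg0
  obtain ⟨l0, hl0⟩ : ∃ l, (piG e g0).rep l ≠ 0 := by
    by_contra hcon
    push Not at hcon
    exact (piG e g0).rep_nonzero (funext hcon)
  obtain ⟨Q, F, hQ, hF⟩ := piG_local e he _ _ _ h0 l0 hl0
  have hQ0 : Q ≠ 0 := by rintro rfl; simp at hQ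
  -- F l0 = Q
  have hFl0 : F l0 = Q := by
    rw [← sub_eq_zero]
    apply poly_zero_of_D Q _ hQ0
    intro x hx
    rw [pt_surj x] at hx ⊢
    obtain ⟨h', h1, h2⟩ := hF _ _ hx
    have := h2 l0
    rw [div_self h1] at this
    rw [map_sub, sub_eq_zero]
    field_simp at this
    exact this.symm
  obtain ⟨d, f, hd, hdf, hprim⟩ := exists_prim F ⟨l0, by rw [hFl0]; exact hQ0⟩
  refine ⟨f, hprim, ?_⟩
  intro p q v h l hl
  obtain ⟨Q', P', hQ', hP'⟩ := piG_local e he p q v h l hl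
  have hQ'0 : Q' ≠ 0 := by rintro rfl; simp at hQ'
  -- second columns do not matter
  have hcol : ∀ (p q q' v : Fin 9 → Fin 2 → ℂ) (h h'), piG e (mkG p q v h) = piG e (mkG p q' v h') := by
    intro p q q' v h h'
    unfold piG
    rw [(coset_iff p q v h p q' v h').mpr ⟨1, 0, one_ne_zero, spW.zero_mem, by funext i s; simp,
      by funext i s; simp⟩]
  -- polynomial identity
  have key : ∀ j, F j * Q' = F l * P' j := by
    intro j
    rw [← sub_eq_zero]
    apply poly_zero_of_D (Q * Q') _ (mul_ne_zero hQ0 hQ'0)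
    intro x hx
    rw [pt_surj x] at hx ⊢
    rw [map_mul] at hx
    obtain ⟨a', a1, a2⟩ := hF _ _ (left_ne_zero_of_mul hx)
    obtain ⟨b', b1, b2⟩ := hP' _ _ (right_ne_zero_of_mul hx)
    rw [hcol _ _ q _ _ b'] at a1
    have a2j := a2 j
    have a2l := a2 l
    rw [hcol _ _ q _ _ b'] at a2j a2l
    have b2j := b2 j
    have n1 := left_ne_zero_of_mul hx
    have n2 := right_ne_zero_of_mul hx
    rw [map_sub, map_mul, map_mul, sub_eq_zero]
    rw [div_eq_div_iff a1 n1] at a2j a2l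
    rw [div_eq_div_iff b1 n2] at b2j
    -- R_j Q = F_j R_l0 ; R_l Q = F_l R_l0 ; R_j Q' = P'_j R_l
    apply mul_left_cancel₀ a1
    apply mul_left_cancel₀ b1
    linear_combination (-(eval (pt _ _) Q') * ((piG e (mkG _ q _ b')).rep l)) * a2j +
      (eval (pt _ _) Q * (piG e (mkG _ q _ b')).rep l) * b2j +
      (eval (pt _ _) (P' j) * ((piG e (mkG _ q _ b')).rep l)) * a2l
  have key2 : ∀ j, f j * Q' = f l * P' j := by
    intro j
    have := key j
    rw [hdf j, hdf l] at this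
    apply mul_left_cancel₀ hd
    linear_combination this
  have hdvd : f l ∣ Q' := hprim _ _ fun j => ⟨P' j, by rw [← key2 j]; ring⟩
  obtain ⟨c, hc⟩ := hdvd
  have hfl : eval (pt p v) (f l) ≠ 0 := by
    intro h0
    apply hQ'
    rw [hc, map_mul, h0, zero_mul]
  refine ⟨hfl, fun j => ?_⟩
  obtain ⟨h'', c1, c2⟩ := hP' p v hQ'
  rw [c2 j, div_eq_div_iff hQ' hfl]
  have := congrArg (eval (pt p v)) (key2 j)
  rw [map_mul, map_mul] at this
  linear_combination -this

end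

end Pool.Agent.H774R3
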