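import Mathlib
import Pool.Agent.H774R3.Rep
import Pool.Agent.H774R3.Const

set_option autoImplicit false

open MvPolynomial
open scoped Topology LinearAlgebra.Projectivization

namespace Pool.Agent.H774R3

/-- substitution `p ↦ t p` -/
noncomputable def scaleS (t : ℂ) : Vx → MvPolynomial Vx ℂ :=
  Sum.elim (fun x => C t * X (Sum.inl x)) (fun x => X (Sum.inr x))

/-- substitution `v ↦ v + w p` -/
noncomputable def transS (w : Fin 9 → ℂ) : Vx → MvPolynomial Vx ℂ :=
  Sum.elim (fun x => X (Sum.inl x)) (fun x => X (Sum.inr x) + C (w x.1) * X (Sum.inl x))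

lemma eval_scale (t : ℂ) (P : MvPolynomial Vx ℂ) (p v : Fin 9 → Fin 2 → ℂ) :
    eval (pt p v) (bind₁ (scaleS t) P) = eval (pt (fun i s => t * p i s) v) P := by
  rw [eval_bind]
  congr 2
  funext y; rcases y with ⟨i, s⟩ | ⟨i, s⟩ <;> simp [scaleS, pt]

lemma eval_trans (w : Fin 9 → ℂ) (P : MvPolynomial Vx ℂ) (p v : Fin 9 → Fin 2 → ℂ) :
    eval (pt p v) (bind₁ (transS w) P) = eval (pt p (fun i s => v i s + w i * p i s)) P := by
  rw [eval_bind]
  congr 2
  funext y; rcases y with ⟨i, s⟩ | ⟨i, s⟩ <;> simp [transS, pt]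

/-- weight of a monomial in `p` -/
def wt (s : Vx →₀ ℕ) : ℕ := ∑ x : Fin 9 × Fin 2, s (Sum.inl x)

lemma bind_scale_monomial (t : ℂ) (s : Vx →₀ ℕ) (c : ℂ) :
    bind₁ (scaleS t) (monomial s c) = monomial s (t ^ wt s * c) := by
  apply MvPolynomial.funext
  intro x
  rw [pt_surj x, eval_scale, eval_monomial, eval_monomial, Finsupp.prod_fintype _ _ (by simp),
    Finsupp.prod_fintype _ _ (by simp), Fintype.prod_sum_type, Fintype.prod_sum_type, wt]
  simp only [pt, Sum.elim_inl, Sum.elim_inr, mul_pow, Finset.prod_mul_distrib]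
  rw [Finset.prod_pow_eq_pow_sum]
  ring

lemma coeff_scale (t : ℂ) (P : MvPolynomial Vx ℂ) (s : Vx →₀ ℕ) :
    coeff s (bind₁ (scaleS t) P) = t ^ wt s * coeff s P := by
  induction P using MvPolynomial.induction_on' with
  | monomial u a =>
    rw [bind_scale_monomial, coeff_monomial, coeff_monomial]
    by_cases h : u = s
    · subst h; simp
    · simp [h]
  | add p q hp hq => rw [map_add, coeff_add, coeff_add, hp, hq]; ring

lemma eval_homog {k : ℕ} {P : MvPolynomial Vx ℂ} (hP : ∀ s ∈ P.support, wt s = k) (t : ℂ)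
    (p v : Fin 9 → Fin 2 → ℂ) :
    eval (pt (fun i s => t * p i s) v) P = t ^ k * eval (pt p v) P := by
  rw [← eval_scale]
  have : bind₁ (scaleS t) P = C (t ^ k) * P := by
    ext s
    rw [coeff_scale, coeff_C_mul]
    by_cases hs : s ∈ P.support
    · rw [hP s hs]
    · rw [notMem_support_iff.mp hs]; simp
  rw [this]; simp

section
variable {κ : Type} [Fintype κ] {Y : Set (ℙ ℂ (κ → ℂ))}
  (e : (grpG ⧸ grpH.subgroupOf grpG) ≃ Y)

/-- `G → ℙ` is represented by the polynomials `f` -/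
def Reps (f : κ → MvPolynomial Vx ℂ) : Prop := ∀ p q v h,
  ∃ hne : (fun j => eval (pt p v) (f j)) ≠ 0, piG e (mkG p q v h) = Projectivization.mk ℂ _ hne

theorem exists_rep'
    (he : IsIso (homSpace grpG grpH) ((projSpace κ).induced (Subtype.val : Y → ℙ ℂ (κ → ℂ))) e) :
    ∃ f : κ → MvPolynomial Vx ℂ, Prim f ∧ Reps e f := by
  obtain ⟨f, hprim, hf⟩ := exists_rep e he
  refine ⟨f, hprim, fun p q v h => ?_⟩
  obtain ⟨l, hl⟩ : ∃ l, (piG e (mkG p q v h)).rep l ≠ 0 := by
    by_contra hcon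
    push Not at hcon
    exact (piG e (mkG p q v h)).rep_nonzero (funext hcon)
  obtain ⟨h1, h2⟩ := hf p q v h l hl
  refine ⟨fun h0 => h1 (congrFun h0 l), ?_⟩
  conv_lhs => rw [← (piG e (mkG p q v h)).mk_rep]
  rw [Projectivization.mk_eq_mk_iff']
  refine ⟨(piG e (mkG p q v h)).rep l / eval (pt p v) (f l), ?_⟩
  funext j
  have := h2 j
  rw [div_eq_div_iff hl h1] at this
  simp only [Pi.smul_apply, smul_eq_mul]
  field_simp
  linear_combination -this

lemma exists_q {p : Fin 9 → Fin 2 → ℂ} (hp : ∀ i, p i ≠ 0) : ∃ q : Fin 9 → Fin 2 → ℂ,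
    ∀ i, dt (p i) (q i) ≠ 0 := by
  choose q hq using fun i => exists_dt (hp i)
  exact ⟨q, hq⟩

omit [Fintype κ] in
lemma reps_cross {f : κ → MvPolynomial Vx ℂ} (hf : Reps e f) {p v p' v' : Fin 9 → Fin 2 → ℂ}
    (hp : ∀ i, p i ≠ 0) (t : ℂ) (ht : t ≠ 0) (w : Fin 9 → ℂ) (hw : w ∈ spW)
    (h1 : p' = fun i s => t * p i s) (h2 : v' = fun i s => v i s + w i * p i s) (j l : κ) :
    eval (pt p' v') (f j) * eval (pt p v) (f l) = eval (pt p' v') (f l) * eval (pt p v) (f j) := by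
  obtain ⟨q, hq⟩ := exists_q hp
  have hq' : ∀ i, dt (p' i) (q i) ≠ 0 := by
    intro i
    have : dt (p' i) (q i) = t * dt (p i) (q i) := by rw [h1]; simp only [dt]; ring
    rw [this]; exact mul_ne_zero ht (hq i)
  obtain ⟨n1, e1⟩ := hf p q v hq
  obtain ⟨n2, e2⟩ := hf p' q v' hq'
  have : piG e (mkG p q v hq) = piG e (mkG p' q v' hq') := by
    unfold piG
    rw [(coset_iff p q v hq p' q v' hq').mpr ⟨t, w, ht, hw, h1, h2⟩]
  rw [e1, e2, Projectivization.mk_eq_mk_iff'] at this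
  obtain ⟨a, ha⟩ := this
  have hj := congrFun ha j
  have hl := congrFun ha l
  simp only [Pi.smul_apply, smul_eq_mul] at hj hl
  rw [← hj, ← hl]; ring

/-- the product of the first coordinates, nonvanishing on a dense open subset -/
noncomputable def QQ : MvPolynomial Vx ℂ := ∏ i : Fin 9, X (Sum.inl (i, 0))

lemma QQ_ne : QQ ≠ 0 := Finset.prod_ne_zero_iff.mpr fun i _ => X_ne_zero _

lemma of_QQ {p v : Fin 9 → Fin 2 → ℂ} (h : eval (pt p v) QQ ≠ 0) (i : Fin 9) : p i ≠ 0 := by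
  rw [QQ, map_prod] at h
  have := Finset.prod_ne_zero_iff.mp h i (Finset.mem_univ _)
  intro h0
  apply this
  simp [pt, h0]

omit [Fintype κ] in
/-- abstract semi-invariance -/
lemma semi_inv {f : κ → MvPolynomial Vx ℂ} (hprim : Prim f) (hne : ∃ l, f l ≠ 0)
    (a b : Vx → MvPolynomial Vx ℂ) (hab : ∀ P, bind₁ a (bind₁ b P) = P)
    (hba : ∀ P, bind₁ b (bind₁ a P) = P)
    (ha : ∀ j l, bind₁ a (f j) * f l = bind₁ a (f l) * f j)
    (hb : ∀ j l, bind₁ b (f j) * f l = bind₁ b (f l) * f j) :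
    ∃ c : ℂ, c ≠ 0 ∧ ∀ l, bind₁ a (f l) = C c * f l := by
  have h1 : ∀ l, f l ∣ bind₁ a (f l) := fun l => hprim _ _ fun j => ⟨bind₁ a (f j), by
    rw [← ha j l]; ring⟩
  have h2 : ∀ l, f l ∣ bind₁ b (f l) := fun l => hprim _ _ fun j => ⟨bind₁ b (f j), by
    rw [← hb j l]; ring⟩
  have h3 : ∀ l, f l ≠ 0 → ∃ c : ℂ, c ≠ 0 ∧ bind₁ a (f l) = C c * f l := by
    intro l hl
    obtain ⟨c, hc⟩ := h1 l
    obtain ⟨c', hc'⟩ := h2 l
    have h4 : bind₁ b c * c' = 1 := by
      have := hba (f l)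
      rw [hc, map_mul, hc'] at this
      apply mul_left_cancel₀ hl
      linear_combination this
    have h5 : c * bind₁ a c' = 1 := by
      have := congrArg (bind₁ a) h4
      rwa [map_mul, hab, map_one] at this
    have h6 : IsUnit c := IsUnit.of_mul_eq_one _ h5
    obtain ⟨r, hr, rfl⟩ := MvPolynomial.isUnit_iff_eq_C_of_isReduced.mp h6
    exact ⟨r, hr.ne_zero, by rw [hc]; ring⟩
  obtain ⟨l0, hl0⟩ := hne
  obtain ⟨c, hc, hcl⟩ := h3 l0 hl0
  refine ⟨c, hc, fun l => ?_⟩
  by_cases hl : f l = 0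
  · rw [hl]; simp
  · have := ha l l0
    rw [hcl] at this
    apply mul_right_cancel₀ hl0
    rw [this]; ring

omit [Fintype κ] in
lemma reps_ne {f : κ → MvPolynomial Vx ℂ} (hf : Reps e f) : ∃ l, f l ≠ 0 := by
  obtain ⟨n1, _⟩ := hf (fun _ => ![1, 0]) (fun _ => ![0, 1]) (fun _ => ![0, 0])
    (by intro i; simp [dt])
  by_contra hcon
  push Not at hcon
  apply n1
  funext j
  simp [hcon j]

omit [Fintype κ] in
lemma cross_poly {f : κ → MvPolynomial Vx ℂ} (hf : Reps e f) (t : ℂ) (ht : t ≠ 0)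
    (w : Fin 9 → ℂ) (hw : w ∈ spW) (a : Vx → MvPolynomial Vx ℂ)
    (ha : ∀ P p v, eval (pt p v) (bind₁ a P) =
      eval (pt (fun i s => t * p i s) (fun i s => v i s + w i * p i s)) P) (j l : κ) :
    bind₁ a (f j) * f l = bind₁ a (f l) * f j := by
  rw [← sub_eq_zero]
  apply poly_zero_of_D QQ _ QQ_ne
  intro x hx
  rw [pt_surj x] at hx ⊢
  rw [map_sub, map_mul, map_mul, ha, ha, sub_eq_zero]
  exact reps_cross e hf (of_QQ hx) t ht w hw rfl rfl j l

omit [Fintype κ] in
lemma exists_deg {f : κ → MvPolynomial Vx ℂ} (hprim : Prim f) (hf : Reps e f) :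
    ∃ k : ℕ, ∀ l, ∀ s ∈ (f l).support, wt s = k := by
  have hA : ∀ (t : ℂ) (P : MvPolynomial Vx ℂ) p v, eval (pt p v) (bind₁ (scaleS t) P) =
      eval (pt (fun i s => t * p i s) (fun i s => v i s + (0 : Fin 9 → ℂ) i * p i s)) P := by
    intro t P p v
    rw [eval_scale]
    congr 2
    funext i; simp
  have hinv : ∀ (t t' : ℂ), t * t' = 1 → ∀ P : MvPolynomial Vx ℂ,
      bind₁ (scaleS t) (bind₁ (scaleS t') P) = P := by
    intro t t' htt P
    apply MvPolynomial.funext
    intro x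
    rw [pt_surj x, eval_scale, eval_scale]
    congr 3
    funext i s
    rw [← mul_assoc, mul_comm t' t, htt, one_mul]
  obtain ⟨c, hc, hcl⟩ := semi_inv hprim (reps_ne e hf) (scaleS 2) (scaleS 2⁻¹)
    (hinv 2 2⁻¹ (by norm_num)) (hinv 2⁻¹ 2 (by norm_num))
    (cross_poly e hf 2 (by norm_num) 0 spW.zero_mem _ (hA 2))
    (cross_poly e hf 2⁻¹ (by norm_num) 0 spW.zero_mem _ (hA 2⁻¹))
  have key : ∀ l, ∀ s ∈ (f l).support, (2 : ℂ) ^ wt s = c := by
    intro l s hs
    have := congrArg (coeff s) (hcl l)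
    rw [coeff_scale, coeff_C_mul] at this
    exact mul_right_cancel₀ (mem_support_iff.mp hs) this
  obtain ⟨l0, hl0⟩ := reps_ne e hf
  obtain ⟨s0, hs0⟩ := support_nonempty.mpr hl0
  refine ⟨wt s0, fun l s hs => ?_⟩
  have h1 := (key l s hs).trans (key l0 s0 hs0).symm
  have h2 : (2 : ℕ) ^ wt s = 2 ^ wt s0 := by exact_mod_cast h1
  exact Nat.pow_right_injective (le_refl 2) h2

omit [Fintype κ] in
lemma trans_inv {f : κ → MvPolynomial Vx ℂ} (hprim : Prim f) (hf : Reps e f) {k : ℕ}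
    (hk : ∀ l, ∀ s ∈ (f l).support, wt s = k) (w : Fin 9 → ℂ) (hw : w ∈ spW) (l : κ)
    (p v : Fin 9 → Fin 2 → ℂ) :
    eval (pt p (fun i s => v i s + w i * p i s)) (f l) = eval (pt p v) (f l) := by
  have hA : ∀ (w : Fin 9 → ℂ) (P : MvPolynomial Vx ℂ) p v, eval (pt p v) (bind₁ (transS w) P) =
      eval (pt (fun i s => 1 * p i s) (fun i s => v i s + w i * p i s)) P := by
    intro t P p v
    rw [eval_trans]
    congr 2
    funext i; simp
  have hinv : ∀ (w w' : Fin 9 → ℂ), w + w' = 0 → ∀ P : MvPolynomial Vx ℂ,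
      bind₁ (transS w) (bind₁ (transS w') P) = P := by
    intro w w' htt P
    apply MvPolynomial.funext
    intro x
    rw [pt_surj x, eval_trans, eval_trans]
    congr 3
    funext i s
    have := congrFun htt i
    simp only [Pi.add_apply, Pi.zero_apply] at this
    linear_combination (x (Sum.inl (i, s))) * this
  obtain ⟨c, hc, hcl⟩ := semi_inv hprim (reps_ne e hf) (transS w) (transS (-w))
    (hinv w (-w) (by simp)) (hinv (-w) w (by simp))
    (cross_poly e hf 1 one_ne_zero w hw _ (hA w))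
    (cross_poly e hf 1 one_ne_zero (-w) (spW.neg_mem hw) _ (hA (-w)))
  have h1 : ∀ l p v, eval (pt p (fun i s => v i s + w i * p i s)) (f l) =
      c * eval (pt p v) (f l) := by
    intro l p v
    have := congrArg (eval (pt p v)) (hcl l)
    rwa [eval_trans, map_mul, eval_C] at this
  -- c = 1
  obtain ⟨l0, hl0⟩ := reps_ne e hf
  obtain ⟨x0, hx0⟩ : ∃ x, eval x (f l0) ≠ 0 := by
    by_contra hcon
    push Not at hcon
    exact hl0 (MvPolynomial.funext (fun x => by rw [hcon x, map_zero]))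
  rw [pt_surj x0] at hx0
  set p0 : Fin 9 → Fin 2 → ℂ := fun i s => x0 (Sum.inl (i, s))
  set v0 : Fin 9 → Fin 2 → ℂ := fun i s => x0 (Sum.inr (i, s))
  have h2 : ∀ t : ℂ, t ≠ 0 → eval (pt p0 (fun i s => v0 i s + t * (w i * p0 i s))) (f l0) =
      c * eval (pt p0 v0) (f l0) := by
    intro t ht
    have h3 := h1 l0 (fun i s => t * p0 i s) v0
    rw [eval_homog (hk l0)] at h3
    have h4 : (fun (i : Fin 9) (s : Fin 2) => v0 i s + w i * (t * p0 i s)) =
      (fun i s => v0 i s + t * (w i * p0 i s)) := by funext i s; ring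
    rw [h4, eval_homog (hk l0)] at h3
    apply mul_left_cancel₀ (pow_ne_zero k ht)
    rw [h3]; ring
  have hd : Differentiable ℂ (fun t : ℂ => eval (pt p0 (fun i s => v0 i s + t * (w i * p0 i s)))
      (f l0)) := by
    apply diff_eval
    rintro (⟨i, s⟩ | ⟨i, s⟩)
    · simp only [pt, Sum.elim_inl]; fun_prop
    · simp only [pt, Sum.elim_inr]; fun_prop
  have hc1 : c = 1 := by
    have hcont := (hd.continuous.tendsto 0).mono_left (nhdsWithin_le_nhds (s := {0}ᶜ))
    have hev : (fun t : ℂ => eval (pt p0 (fun i s => v0 i s + t * (w i * p0 i s))) (f l0))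
        =ᶠ[𝓝[≠] 0] fun _ => c * eval (pt p0 v0) (f l0) := by
      filter_upwards [self_mem_nhdsWithin] with t ht
      exact h2 t ht
    have := tendsto_nhds_unique (hcont.congr' hev) tendsto_const_nhds
    simp only [zero_mul, add_zero] at this
    have h5 : (c - 1) * eval (pt p0 v0) (f l0) = 0 := by
      have h6 : (pt p0 fun i s => v0 i s) = pt p0 v0 := rfl
      rw [h6] at this
      linear_combination -this
    rcases mul_eq_zero.mp h5 with h | h
    · linear_combination h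
    · exact absurd h hx0
  rw [h1, hc1, one_mul]

lemma inv_single {f : MvPolynomial Vx ℂ}
    (h : ∀ w ∈ spW, ∀ p v, eval (pt p (fun i s => v i s + w i * p i s)) f = eval (pt p v) f)
    (h0 : ∀ p p' v, eval (pt p v) f = eval (pt p' v) f)
    (p v : Fin 9 → Fin 2 → ℂ) (u : Fin 9 → Fin 2 → ℂ) (S : Finset (Fin 9)) :
    eval (pt p v) f = eval (pt p (fun j s => v j s + if j ∈ S then u j s else 0)) f := by
  induction S using Finset.induction_on with
  | empty => simp
  | insert i S hi ih =>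
    rw [ih]
    obtain ⟨w, hw, hwi⟩ := exists_w i
    set v1 : Fin 9 → Fin 2 → ℂ := fun j s => v j s + if j ∈ S then u j s else 0
    set r : Fin 9 → Fin 2 → ℂ := fun j s => if j = i then u i s / w i else 0
    rw [h0 p r v1, ← h w hw r v1, h0 r p]
    congr 3
    funext j s
    by_cases hj : j = i
    · subst hj
      simp only [v1, r, if_true, hi, if_false, Finset.mem_insert_self]
      field_simp
      ring
    · simp [v1, r, hj]

lemma indep_p {f : MvPolynomial Vx ℂ} (hf : ∀ s ∈ f.support, wt s = 0)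
    (p p' v : Fin 9 → Fin 2 → ℂ) : eval (pt p v) f = eval (pt p' v) f := by
  have h1 : ∀ p : Fin 9 → Fin 2 → ℂ, eval (pt p v) f = eval (pt (fun _ _ => 0) v) f := by
    intro p
    have h := eval_homog (k := 0) hf 0 p v
    rw [pow_zero, one_mul] at h
    rw [← h]
    congr 3
    funext i s; ring
  rw [h1 p, h1 p']

omit [Fintype κ] in
lemma deg_pos {f : κ → MvPolynomial Vx ℂ} (hprim : Prim f) (hf : Reps e f) {k : ℕ}
    (hk : ∀ l, ∀ s ∈ (f l).support, wt s = k) : 1 ≤ k := by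
  by_contra hk0
  have hk0 : k = 0 := by omega
  subst hk0
  have hconst : ∀ l p v p' v', eval (pt p v) (f l) = eval (pt p' v') (f l) := by
    intro l p v p' v'
    rw [indep_p (hk l) p p' v]
    rw [inv_single (f := f l) (fun w hw p v => trans_inv e hprim hf hk w hw l p v)
      (fun p p' v => indep_p (hk l) p p' v) p' v (fun j s => v' j s - v j s) Finset.univ]
    congr 3
    funext j s; simp
  -- two different points of G/H
  have h1 : ∀ i : Fin 9, dt ((fun _ => ![1, 0]) i) ((fun _ => ![0, 1]) i) ≠ 0 := by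
    intro i; simp [dt]
  have h2 : ∀ i : Fin 9, dt ((fun _ => ![0, 1]) i) ((fun _ => ![1, 0]) i) ≠ 0 := by
    intro i; simp [dt]
  obtain ⟨n1, e1⟩ := hf _ _ (fun _ => ![0, 0]) h1
  obtain ⟨n2, e2⟩ := hf _ _ (fun _ => ![0, 0]) h2
  have h3 : piG e (mkG _ _ (fun _ => ![0, 0]) h1) = piG e (mkG _ _ (fun _ => ![0, 0]) h2) := by
    rw [e1, e2, Projectivization.mk_eq_mk_iff']
    refine ⟨1, ?_⟩
    rw [one_smul]
    funext j
    exact hconst j _ _ _ _
  unfold piG at h3
  have h4 := e.injective (Subtype.ext h3)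
  rw [coset_iff] at h4
  obtain ⟨t, w, ht, hw, h5, h6⟩ := h4
  have := congrFun (congrFun h5 0) 1
  simp at this

end

end Pool.Agent.H774R3
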