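import Mathlib
import Pool.Agent.H774R3.Semi

set_option autoImplicit false

open MvPolynomial
open scoped Topology LinearAlgebra.Projectivization

namespace Pool.Agent.H774R3

/-- positions of the coordinates in the matrix -/
def pos : Vx → (Fin 3 × Fin 9) × (Fin 3 × Fin 9) :=
  Sum.elim (fun x => ((Fin.castSucc x.2, x.1), (0, x.1))) (fun x => ((Fin.castSucc x.2, x.1), (2, x.1)))

lemma entries_pos (p q v : Fin 9 → Fin 2 → ℂ) (h) :
    (fun y => entries (mkG p q v h).1 (pos y)) = pt p v := by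
  funext y
  rcases y with ⟨i, s⟩ | ⟨i, s⟩
  · exact congrFun (congrFun (pc_blk p q v) i) s
  · exact congrFun (congrFun (vc_blk p q v) i) s

lemma eval_rename_pos (p q v : Fin 9 → Fin 2 → ℂ) (h) (P : MvPolynomial Vx ℂ) :
    eval (entries (mkG p q v h).1) (rename pos P) = eval (pt p v) P := by
  rw [eval_rename, ← entries_pos p q v h]
  rfl

section
variable {κ : Type} {Y : Set (ℙ ℂ (κ → ℂ))}
  (e : (grpG ⧸ grpH.subgroupOf grpG) ≃ Y)
  (he : IsIso (homSpace grpG grpH) ((projSpace κ).induced (Subtype.val : Y → ℙ ℂ (κ → ℂ))) e)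

/-- W-invariance of a polynomial -/
def WInv (F : MvPolynomial Vx ℂ) : Prop :=
  ∀ w ∈ spW, ∀ p v, eval (pt p (fun i s => v i s + w i * p i s)) F = eval (pt p v) F

/-- scaling a representative -/
lemma eval_rep_of_reps {f : κ → MvPolynomial Vx ℂ} (hf : Reps e f) (p q v h) :
    ∃ c : ℂ, c ≠ 0 ∧ ∀ (n : ℕ) (Q : MvPolynomial κ ℂ), Q.IsHomogeneous n →
      eval (piG e (mkG p q v h)).rep Q = c ^ n * eval (pt p v) (aeval f Q) := by
  obtain ⟨hne, h1⟩ := hf p q v h
  obtain ⟨c, hc, hc'⟩ := rep_scale hne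
  refine ⟨c, hc, fun n Q hQ => ?_⟩
  rw [h1]
  have h2 : (Projectivization.mk ℂ _ hne).rep = fun j => c * eval (pt p v) (f j) := funext hc'
  rw [h2, eval_smul_hom hQ]
  congr 1
  rw [← bind₁, eval_bind]

include he in
/-- local expression of `F / f_l ^ n` -/
theorem local_expr {f : κ → MvPolynomial Vx ℂ} (hf : Reps e f) {k : ℕ}
    (hk : ∀ l, ∀ s ∈ (f l).support, wt s = k) (hfW : ∀ l, WInv (f l))
    (F : MvPolynomial Vx ℂ) (n : ℕ) (hF : ∀ s ∈ F.support, wt s = k * n) (hFW : WInv F)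
    (p q v : Fin 9 → Fin 2 → ℂ) (h) :
    ∃ (N : ℕ) (Q P : MvPolynomial κ ℂ), Q.IsHomogeneous N ∧
      eval (piG e (mkG p q v h)).rep Q ≠ 0 ∧ aeval f Q * F = aeval f P := by
  classical
  obtain ⟨hne, _⟩ := hf p q v h
  obtain ⟨l, hl⟩ : ∃ l, eval (pt p v) (f l) ≠ 0 := by
    by_contra hcon
    push Not at hcon
    exact hne (funext hcon)
  -- the function on G/H
  let val : grpG → ℂ := fun g => eval (entries g.1) (rename pos F) /
    eval (entries g.1) (rename pos (f l ^ n))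
  have hval : ∀ p q v h, val (mkG p q v h) = eval (pt p v) F / eval (pt p v) (f l) ^ n := by
    intro p q v h
    simp only [val]
    rw [eval_rename_pos, eval_rename_pos, map_pow]
  have hinv : ∀ g g' : grpG, (QuotientGroup.mk g : grpG ⧸ grpH.subgroupOf grpG) =
      QuotientGroup.mk g' → val g = val g' ∧
      (eval (entries g.1) (rename pos (f l)) ≠ 0 ↔ eval (entries g'.1) (rename pos (f l)) ≠ 0) := by
    intro g g' hgg
    obtain ⟨p, q, v, h, rfl⟩ := exists_mkG g
    obtain ⟨p', q', v', h', rfl⟩ := exists_mkG g'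
    obtain ⟨t, w, ht, hw, rfl, rfl⟩ := (coset_iff _ _ _ _ _ _ _ _).mp hgg
    have e1 : ∀ P : MvPolynomial Vx ℂ, WInv P → ∀ m, (∀ s ∈ P.support, wt s = m) →
        eval (pt (fun i s => t * p i s) (fun i s => v i s + w i * p i s)) P =
        t ^ m * eval (pt p v) P := by
      intro P hP m hm
      rw [eval_homog hm, hP w hw]
    refine ⟨?_, ?_⟩
    · rw [hval, hval, e1 F hFW _ hF, e1 (f l) (hfW l) _ (hk l), mul_pow, ← pow_mul,
        mul_div_mul_left _ _ (pow_ne_zero _ ht)]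
    · rw [eval_rename_pos, eval_rename_pos, e1 (f l) (hfW l) _ (hk l)]
      constructor
      · intro h1; exact mul_ne_zero (pow_ne_zero _ ht) h1
      · intro h1; exact right_ne_zero_of_mul h1
  let φ : grpG ⧸ grpH.subgroupOf grpG → ℂ := fun x => val x.out
  have hφ : ∀ g : grpG, φ (QuotientGroup.mk g) = val g := fun g =>
    (hinv _ _ (QuotientGroup.out_eq' _)).1
  have hreg : (homSpace grpG grpH).reg (QuotientGroup.mk (mkG p q v h)) φ := by
    refine ⟨{x | eval (entries x.out.1) (rename pos (f l)) ≠ 0}, ?_, ?_, ?_⟩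
    · apply hom_isOpen_iff.mpr
      have : {g : grpG | (QuotientGroup.mk g : grpG ⧸ grpH.subgroupOf grpG) ∈
          {x : grpG ⧸ grpH.subgroupOf grpG | eval (entries x.out.1) (rename pos (f l)) ≠ 0}} =
          {g : grpG | eval (entries g.1) (rename pos (f l)) ≠ 0} := by
        ext g
        exact (hinv _ _ (QuotientGroup.out_eq' _)).2
      rw [this]
      exact grp_open_D _ _
    · apply ((hinv _ _ (QuotientGroup.out_eq' _)).2).mpr
      rw [eval_rename_pos]; exact hl
    · intro g hg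
      have hg' : eval (entries g.1) (rename pos (f l)) ≠ 0 :=
        ((hinv _ _ (QuotientGroup.out_eq' _)).2).mp hg
      rw [grp_reg_iff]
      refine ⟨rename pos F, rename pos (f l ^ n), ?_, fun g' _ => hφ g'⟩
      rw [map_pow, map_pow]
      exact pow_ne_zero _ hg'
  -- transport to projective space
  have hT : ((projSpace κ).induced (Subtype.val : Y → ℙ ℂ (κ → ℂ))).reg
      (e (QuotientGroup.mk (mkG p q v h))) (fun y => φ (e.symm y)) := by
    rw [he.2]
    simpa using hreg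
  obtain ⟨g2, ⟨N, P, Q, hP, hQ, hQ0, hPQ⟩, U, hU, hxU, hU'⟩ := hT
  obtain ⟨O, hO, rfl⟩ := (@isOpen_induced_iff _ _ (projSpace κ).top U Subtype.val).mp hU
  obtain ⟨M, q0, hq0, hq1, hq2⟩ := proj_basis hO hxU
  refine ⟨N, Q, P * X l ^ n, hQ, hQ0, ?_⟩
  rw [map_mul, map_pow, aeval_X, ← sub_eq_zero]
  have hQf : aeval f Q ≠ 0 := by
    intro h0
    obtain ⟨c, hc, h1⟩ := eval_rep_of_reps e hf p q v h
    have := h1 N Q hQ
    rw [h0, map_zero, mul_zero] at this
    exact hQ0 this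
  have hq0f : aeval f q0 ≠ 0 := by
    intro h0
    obtain ⟨c, hc, h1⟩ := eval_rep_of_reps e hf p q v h
    have := h1 M q0 hq0
    rw [h0, map_zero, mul_zero] at this
    exact hq1 this
  have hfl : f l ≠ 0 := by rintro h0; rw [h0, map_zero] at hl; exact hl rfl
  apply poly_zero_of_D (QQ * (f l * (aeval f q0 * aeval f Q))) _
    (mul_ne_zero QQ_ne (mul_ne_zero hfl (mul_ne_zero hq0f hQf)))
  intro x hx
  rw [pt_surj x] at hx ⊢
  set p' : Fin 9 → Fin 2 → ℂ := fun i s => x (Sum.inl (i, s))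
  set v' : Fin 9 → Fin 2 → ℂ := fun i s => x (Sum.inr (i, s))
  rw [map_mul, map_mul, map_mul] at hx
  have a1 := left_ne_zero_of_mul hx
  have a2 := left_ne_zero_of_mul (right_ne_zero_of_mul hx)
  have a3 := left_ne_zero_of_mul (right_ne_zero_of_mul (right_ne_zero_of_mul hx))
  have a4 := right_ne_zero_of_mul (right_ne_zero_of_mul (right_ne_zero_of_mul hx))
  obtain ⟨q', hq'⟩ := exists_q (of_QQ a1)
  obtain ⟨c, hc, h1⟩ := eval_rep_of_reps e hf p' q' v' hq'
  have b1 : eval (piG e (mkG p' q' v' hq')).rep q0 ≠ 0 := by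
    rw [h1 M q0 hq0]; exact mul_ne_zero (pow_ne_zero _ hc) a3
  have b2 : eval (piG e (mkG p' q' v' hq')).rep Q ≠ 0 := by
    rw [h1 N Q hQ]; exact mul_ne_zero (pow_ne_zero _ hc) a4
  have b3 := hU' (e (QuotientGroup.mk (mkG p' q' v' hq'))) (hq2 _ b1)
  have b4 := hPQ (e (QuotientGroup.mk (mkG p' q' v' hq'))).1 b2
  simp only [Equiv.symm_apply_apply] at b3
  rw [hφ, hval, b4] at b3
  change _ = eval (piG e (mkG p' q' v' hq')).rep P / eval (piG e (mkG p' q' v' hq')).rep Q at b3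
  rw [h1 N P hP, h1 N Q hQ, mul_div_mul_left _ _ (pow_ne_zero _ hc),
    div_eq_div_iff (pow_ne_zero _ a2) a4] at b3
  rw [map_sub, map_mul, map_mul, map_pow]
  linear_combination b3

end

end Pool.Agent.H774R3
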