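import Mathlib
import Pool.Agent.H774R3.Hom
import Pool.Agent.H774R3.Loc
set_option autoImplicit false
open MvPolynomial
namespace Pool.Agent.H774R3

/-- second coordinate of `p i` -/
noncomputable abbrev xx (i : Fin 9) : MvPolynomial Vx ℂ := X (Sum.inl (i, 1))
/-- second coordinate of `v i` -/
noncomputable abbrev yy (i : Fin 9) : MvPolynomial Vx ℂ := X (Sum.inr (i, 1))

/-- the invariant attached to a linear form vanishing on `W` -/
noncomputable def JJ (c : Fin 9 → ℂ) : MvPolynomial Vx ℂ :=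
  ∑ j, C (c j) * yy j * ∏ l ∈ Finset.univ.erase j, xx l

lemma eval_JJ (c : Fin 9 → ℂ) (p v : Fin 9 → Fin 2 → ℂ) :
    eval (pt p v) (JJ c) = ∑ j, c j * v j 1 * ∏ l ∈ Finset.univ.erase j, p l 1 := by
  simp [JJ, pt, map_sum, map_prod]

/-- the linear forms cutting out `W` -/
def IsForm (c : Fin 9 → ℂ) : Prop := ∀ w ∈ spW, ∑ i, c i * w i = 0

lemma isForm_one : IsForm (fun _ => 1) := by
  intro w hw; simpa using (mem_spW.mp hw).1
lemma isForm_tt : IsForm tt := by
  intro w hw; exact (mem_spW.mp hw).2.1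
lemma isForm_tt3 : IsForm (fun i => tt i ^ 3) := by
  intro w hw; exact (mem_spW.mp hw).2.2

lemma trans_JJ {c : Fin 9 → ℂ} (hc : IsForm c) {w : Fin 9 → ℂ} (hw : w ∈ spW) :
    bind₁ (transS w) (JJ c) = JJ c := by
  apply MvPolynomial.funext
  intro x
  rw [pt_surj x, eval_trans, eval_JJ, eval_JJ, ← sub_eq_zero, ← Finset.sum_sub_distrib]
  set p : Fin 9 → Fin 2 → ℂ := fun i s => x (Sum.inl (i, s))
  set v : Fin 9 → Fin 2 → ℂ := fun i s => x (Sum.inr (i, s))
  have : ∀ j ∈ (Finset.univ : Finset (Fin 9)),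
      c j * (v j 1 + w j * p j 1) * ∏ l ∈ Finset.univ.erase j, p l 1 -
      c j * v j 1 * ∏ l ∈ Finset.univ.erase j, p l 1 = (∏ l, p l 1) * (c j * w j) := by
    intro j _
    rw [← Finset.mul_prod_erase Finset.univ (fun l => p l 1) (Finset.mem_univ j)]
    ring
  rw [Finset.sum_congr rfl this, ← Finset.mul_sum, hc w hw, mul_zero]

lemma scale_JJ (c : Fin 9 → ℂ) (t : ℂ) : bind₁ (scaleS t) (JJ c) = C (t ^ 8) * JJ c := by
  apply MvPolynomial.funext
  intro x
  rw [pt_surj x, eval_scale, map_mul, eval_JJ, eval_JJ, eval_C, Finset.mul_sum]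
  apply Finset.sum_congr rfl
  intro j _
  rw [Finset.prod_mul_distrib, Finset.prod_const, Finset.card_erase_of_mem (Finset.mem_univ _),
    Finset.card_univ, Fintype.card_fin]
  ring

lemma dvd_JJ (c : Fin 9 → ℂ) (i : Fin 9) : xx i ∣ JJ c - c i • JJ (fun _ => 1) := by
  have : JJ c - c i • JJ (fun _ => 1) =
      ∑ j, C (c j - c i) * yy j * ∏ l ∈ Finset.univ.erase j, xx l := by
    rw [JJ, JJ, Finset.smul_sum, ← Finset.sum_sub_distrib]
    apply Finset.sum_congr rfl
    intro j _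
    rw [smul_eq_C_mul, C_sub, C_1]
    ring
  rw [this]
  apply Finset.dvd_sum
  intro j _
  by_cases hij : j = i
  · subst hij; simp
  · apply Dvd.dvd.mul_left
    exact Finset.dvd_prod_of_mem _ (Finset.mem_erase.mpr ⟨Ne.symm hij, Finset.mem_univ _⟩)

lemma not_dvd_JJ (i : Fin 9) : ¬ xx i ∣ JJ (fun _ => 1) := by
  rintro ⟨q, hq⟩
  have h1 := congrArg (eval (pt (fun j _ => if j = i then 0 else 1) (fun _ _ => 1))) hq
  rw [eval_JJ, map_mul, eval_X] at h1
  have h2 : pt (fun j _ => if j = i then (0 : ℂ) else 1) (fun _ _ => 1) (Sum.inl (i, 1)) = 0 := by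
    simp [pt]
  rw [h2, zero_mul, Finset.sum_eq_single i] at h1
  · rw [Finset.prod_eq_one] at h1
    · simp at h1
    · intro l hl
      rw [if_neg (Finset.ne_of_mem_erase hl)]
  · intro j _ hj
    rw [Finset.prod_eq_zero (i := i)]
    · ring
    · exact Finset.mem_erase.mpr ⟨Ne.symm hj, Finset.mem_univ _⟩
    · simp
  · intro h; exact absurd (Finset.mem_univ _) h

/-- values of the three linear forms -/
lemma eval_JJ_const (c : Fin 9 → ℂ) (s r : ℂ) (y : Fin 9 → ℂ) :
    eval (pt (fun _ => ![0, s]) (fun i => ![0, r * y i])) (JJ c) =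
      r * s ^ 8 * ∑ i, c i * y i := by
  rw [eval_JJ, Finset.mul_sum]
  apply Finset.sum_congr rfl
  intro j _
  simp only [Matrix.cons_val_one, Matrix.cons_val_fin_one, Finset.prod_const,
    Finset.card_erase_of_mem (Finset.mem_univ _), Finset.card_univ, Fintype.card_fin]
  ring

/-- The Nagata forms, in coordinates on `G / H`. -/
theorem exists_FF (m : ℕ) : ∃ (F : MvPolynomial Vx ℂ) (ψ : Polynomial ℂ), ψ ≠ 0 ∧ WInv F ∧
    (∀ s ∈ F.support, wt s = 15 * m + 8) ∧
    ∀ (s r t : ℂ) (y : Fin 9 → ℂ), s ≠ 0 → r ≠ 0 → ∑ i, y i = 1 → ∑ i, tt i * y i = t →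
      ∑ i, tt i ^ 3 * y i = t ^ 3 →
      eval (pt (fun _ => ![0, s]) (fun i => ![0, r * y i])) F =
        s ^ (15 * m + 8) * r ^ (3 * m + 1) * ψ.eval t := by
  classical
  obtain ⟨c, hc, hc0⟩ := exists_psi m
  set A := JJ tt with hA
  set B := JJ (fun _ => 1) with hB
  set D := JJ (fun i => tt i ^ 3) with hD
  set Φ := PhiH c A B D with hΦ
  have hdvd : ∀ i ∈ (Finset.univ : Finset (Fin 9)), xx i ^ m ∣ Φ := by
    intro i _
    exact dvd_PhiH c (tt i) (hc i) (xx i) A B D X_prime (not_dvd_JJ i) (dvd_JJ tt i)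
      (dvd_JJ (fun i => tt i ^ 3) i)
  have hrel : ((Finset.univ : Finset (Fin 9)) : Set (Fin 9)).Pairwise
      (Function.onFun IsRelPrime fun i => xx i ^ m) := by
    intro i _ j _ hij
    apply IsRelPrime.pow
    have hp : Irreducible (xx i) := (X_prime (R := ℂ)).irreducible
    rw [hp.isRelPrime_iff_not_dvd]
    intro h
    rw [X_dvd_X] at h
    apply hij
    have := Sum.inl_injective h
    exact (Prod.mk.inj this).1
  obtain ⟨F, hF⟩ := Finset.prod_dvd_of_isRelPrime hrel hdvd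
  set Q : MvPolynomial Vx ℂ := ∏ i : Fin 9, xx i ^ m with hQ
  have hQ0 : Q ≠ 0 := Finset.prod_ne_zero_iff.mpr fun i _ => pow_ne_zero _ (X_ne_zero _)
  refine ⟨F, (Psi c).coeff 0, hc0, ?_, ?_, ?_⟩
  · intro w hw p v
    have h1 : bind₁ (transS w) Φ = Φ := by
      rw [hΦ, PhiH_map, hA, hB, hD, trans_JJ isForm_tt hw, trans_JJ isForm_one hw,
        trans_JJ isForm_tt3 hw]
    have h2 : bind₁ (transS w) Q = Q := by
      rw [hQ, map_prod]
      apply Finset.prod_congr rfl
      intro i _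
      rw [map_pow, bind₁_X_right]
      rfl
    rw [hF, map_mul, h2] at h1
    have h3 := mul_left_cancel₀ hQ0 h1
    rw [← eval_trans, h3]
  · have h1 : bind₁ (scaleS 2) Φ = C ((2 : ℂ) ^ (8 * (3 * m + 1))) * Φ := by
      rw [hΦ, PhiH_map, hA, hB, hD, scale_JJ, scale_JJ, scale_JJ, PhiH, PhiH, Finset.mul_sum]
      apply Finset.sum_congr rfl
      intro x _
      have hx := mem_Tr.mp x.2
      rw [mul_smul_comm]
      congr 1
      have hpow : ((2 : ℂ) ^ (8 * (3 * m + 1))) = ((2 ^ 8) ^ 3) ^ (x.1.1 / 3) *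
          (2 ^ 8) ^ (x.1.1 % 3) * (2 ^ 8) ^ x.1.2 * (2 ^ 8) ^ (3 * m + 1 - x.1.1 - x.1.2) := by
        rw [← pow_mul, ← pow_mul, ← pow_mul, ← pow_mul, ← pow_mul, ← pow_add, ← pow_add, ← pow_add]
        congr 1
        omega
      have e1 : (C ((2 : ℂ) ^ 8) * JJ fun i => tt i ^ 3) * (C (2 ^ 8) * JJ fun _ => 1) ^ 2 -
          (C (2 ^ 8) * JJ tt) ^ 3 = C ((2 ^ 8) ^ 3) *
            ((JJ fun i => tt i ^ 3) * (JJ fun _ => 1) ^ 2 - (JJ tt) ^ 3) := by
        rw [C_pow (2 ^ 8 : ℂ) 3]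
        ring
      rw [e1, hpow]
      simp only [mul_pow, C_mul, C_pow]
      ring
    have h2 : bind₁ (scaleS 2) Q = C ((2 : ℂ) ^ (9 * m)) * Q := by
      rw [hQ, map_prod]
      have : ∀ i ∈ (Finset.univ : Finset (Fin 9)), bind₁ (scaleS 2) (xx i ^ m) =
          C ((2 : ℂ) ^ m) * xx i ^ m := by
        intro i _
        rw [map_pow, bind₁_X_right]
        simp only [scaleS, Sum.elim_inl, mul_pow, C_pow]
      rw [Finset.prod_congr rfl this, Finset.prod_mul_distrib, Finset.prod_const, Finset.card_univ,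
        Fintype.card_fin, ← C_pow, ← pow_mul, mul_comm m 9]
    rw [hF, map_mul, h2] at h1
    have h3 : C ((2 : ℂ) ^ (9 * m)) * bind₁ (scaleS 2) F = C ((2 : ℂ) ^ (8 * (3 * m + 1))) * F := by
      apply mul_left_cancel₀ hQ0
      linear_combination h1
    intro s hs
    have h4 := congrArg (coeff s) h3
    rw [coeff_C_mul, coeff_C_mul, coeff_scale, ← mul_assoc] at h4
    have h5 := mul_right_cancel₀ (mem_support_iff.mp hs) h4
    rw [← pow_add] at h5
    have h6 : (2 : ℕ) ^ (9 * m + wt s) = 2 ^ (8 * (3 * m + 1)) := by exact_mod_cast h5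
    have h7 := Nat.pow_right_injective (le_refl 2) h6
    omega
  · intro s r t y hs hr h1 h2 h3
    have h4 := congrArg (eval (pt (fun _ => ![0, s]) (fun i => ![0, r * y i]))) hF
    have h5 : eval (pt (fun _ => ![0, s]) (fun i => ![0, r * y i])) Φ =
        (r * s ^ 8) ^ (3 * m + 1) * ((Psi c).coeff 0).eval t := by
      have e0 : eval (pt (fun _ => ![0, s]) (fun i => ![0, r * y i])) Φ =
          (aeval (pt (fun _ => ![0, s]) (fun i => ![0, r * y i])) :
            MvPolynomial Vx ℂ →ₐ[ℂ] ℂ) Φ := by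
        rw [aeval_eq_eval]
      have e1 : ∀ c, (aeval (pt (fun _ => ![0, s]) (fun i => ![0, r * y i])) :
            MvPolynomial Vx ℂ →ₐ[ℂ] ℂ) (JJ c) = r * s ^ 8 * ∑ i, c i * y i := by
        intro c
        rw [aeval_eq_eval]
        exact eval_JJ_const c s r y
      rw [e0, hΦ, PhiH_map, hA, hB, hD, e1, e1, e1, h2, h3]
      simp only [one_mul]
      rw [h1, mul_one]
      exact PhiH_curve c (r * s ^ 8) t (mul_ne_zero hr (pow_ne_zero _ hs))
    have h6 : eval (pt (fun _ => ![0, s]) (fun i => ![0, r * y i])) Q = s ^ (9 * m) := by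
      rw [hQ, map_prod]
      simp only [map_pow, eval_X, pt, Sum.elim_inl, Matrix.cons_val_one, Matrix.cons_val_fin_one,
        Finset.prod_const, Finset.card_univ, Fintype.card_fin]
      rw [← pow_mul, mul_comm m 9]
    rw [h5, map_mul, h6] at h4
    apply mul_left_cancel₀ (pow_ne_zero (9 * m) hs)
    rw [← h4, mul_pow, ← pow_mul]
    have : s ^ (8 * (3 * m + 1)) = s ^ (9 * m) * s ^ (15 * m + 8) := by
      rw [← pow_add]; congr 1; omega
    rw [this]
    ring

end Pool.Agent.H774R3
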