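import Mathlib
import Pool.Agent.H774R3.FF
set_option autoImplicit false
open MvPolynomial
namespace Pool.Agent.H774R3

/-- no first coordinates -/
def zc (σ : Vx →₀ ℕ) : Prop := ∀ i : Fin 9, σ (Sum.inl (i, 0)) = 0 ∧ σ (Sum.inr (i, 0)) = 0

/-- multidegree -/
noncomputable def mdeg (σ : Vx →₀ ℕ) : Fin 9 →₀ ℕ :=
  Finsupp.equivFunOnFinite.symm fun i => σ (Sum.inl (i, 1)) + σ (Sum.inr (i, 1))

lemma mdeg_apply (σ : Vx →₀ ℕ) (i : Fin 9) : mdeg σ i = σ (Sum.inl (i, 1)) + σ (Sum.inr (i, 1)) :=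
  rfl

open Classical in
/-- coefficient of multidegree `a` -/
noncomputable def fa {R : Type} [CommRing R] [Algebra ℂ R] (g : MvPolynomial Vx ℂ)
    (a : Fin 9 →₀ ℕ) (y : Fin 9 → R) : R :=
  ∑ σ ∈ g.support with (zc σ ∧ mdeg σ = a), coeff σ g • ∏ i, y i ^ σ (Sum.inr (i, 1))

lemma wt_zc {σ : Vx →₀ ℕ} (h : zc σ) : wt σ = ∑ i, σ (Sum.inl (i, 1)) := by
  rw [wt, Fintype.sum_prod_type]
  apply Finset.sum_congr rfl
  intro i _
  rw [Fin.sum_univ_two, (h i).1, zero_add]

lemma sum_mdeg {σ : Vx →₀ ℕ} (h : zc σ) : ∑ i, mdeg σ i = wt σ + ∑ i, σ (Sum.inr (i, 1)) := by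
  rw [wt_zc h, ← Finset.sum_add_distrib]
  rfl

lemma prod_zc {σ : Vx →₀ ℕ} (x y : Fin 9 → ℂ) :
    ∏ z, (pt (fun i => ![0, x i]) (fun i => ![0, y i])) z ^ σ z =
      (∏ i, (0 : ℂ) ^ σ (Sum.inl (i, 0)) * x i ^ σ (Sum.inl (i, 1))) *
      ∏ i, (0 : ℂ) ^ σ (Sum.inr (i, 0)) * y i ^ σ (Sum.inr (i, 1)) := by
  rw [Fintype.prod_sum_type, Fintype.prod_prod_type, Fintype.prod_prod_type]
  simp [pt, Fin.prod_univ_two]

open Classical in
lemma eval_zc (g : MvPolynomial Vx ℂ) (x y : Fin 9 → ℂ) :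
    eval (pt (fun i => ![0, x i]) (fun i => ![0, y i])) g =
      ∑ σ ∈ g.support with zc σ, coeff σ g * ((∏ i, x i ^ σ (Sum.inl (i, 1))) *
        ∏ i, y i ^ σ (Sum.inr (i, 1))) := by
  rw [eval_eq', Finset.sum_filter]
  apply Finset.sum_congr rfl
  intro σ _
  rw [prod_zc]
  split_ifs with h
  · congr 2
    · apply Finset.prod_congr rfl
      intro i _
      rw [(h i).1, pow_zero, one_mul]
    · apply Finset.prod_congr rfl
      intro i _
      rw [(h i).2, pow_zero, one_mul]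
  · unfold zc at h
    push Not at h
    obtain ⟨i, hi⟩ := h
    by_cases h1 : σ (Sum.inl (i, 0)) = 0
    · have h2 : (∏ i, (0 : ℂ) ^ σ (Sum.inr (i, 0)) * y i ^ σ (Sum.inr (i, 1))) = 0 := by
        apply Finset.prod_eq_zero (Finset.mem_univ i)
        rw [zero_pow (hi h1), zero_mul]
      rw [h2]; ring
    · have h2 : (∏ i, (0 : ℂ) ^ σ (Sum.inl (i, 0)) * x i ^ σ (Sum.inl (i, 1))) = 0 := by
        apply Finset.prod_eq_zero (Finset.mem_univ i)
        rw [zero_pow h1, zero_mul]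
      rw [h2]; ring

open Classical in
/-- generating polynomial of the multidegree components -/
noncomputable def PP (g : MvPolynomial Vx ℂ) (y : Fin 9 → ℂ) : MvPolynomial (Fin 9) ℂ :=
  ∑ σ ∈ g.support with zc σ, monomial (mdeg σ) (coeff σ g * ∏ i, y i ^ σ (Sum.inr (i, 1)))

lemma coeff_PP (g : MvPolynomial Vx ℂ) (y : Fin 9 → ℂ) (a : Fin 9 →₀ ℕ) :
    coeff a (PP g y) = fa g a y := by
  classical
  rw [PP, coeff_sum, fa, Finset.sum_filter, Finset.sum_filter]
  apply Finset.sum_congr rfl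
  intro σ hσ
  rw [coeff_monomial]
  by_cases h1 : zc σ
  · by_cases h2 : mdeg σ = a
    · simp [h1, h2, hσ]
    · simp [h1, h2]
  · simp [h1]

lemma eval_PP (g : MvPolynomial Vx ℂ) (y l : Fin 9 → ℂ) :
    eval l (PP g y) = eval (pt (fun i => ![0, l i]) (fun i => ![0, l i * y i])) g := by
  classical
  rw [eval_zc, PP, map_sum]
  apply Finset.sum_congr rfl
  intro σ _
  rw [eval_monomial, Finsupp.prod_fintype _ _ (by simp), mul_assoc, ← Finset.prod_mul_distrib,
    ← Finset.prod_mul_distrib]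
  congr 1
  apply Finset.prod_congr rfl
  intro i _
  rw [mdeg_apply, pow_add, mul_pow]
  ring

lemma fa_inv {g : MvPolynomial Vx ℂ} (hg : WInv g) (a : Fin 9 →₀ ℕ) {y y' : Fin 9 → ℂ}
    (h : y' - y ∈ spW) : fa g a y' = fa g a y := by
  rw [← coeff_PP, ← coeff_PP]
  congr 1
  apply MvPolynomial.funext
  intro l
  rw [eval_PP, eval_PP, ← hg _ h (fun i => ![0, l i]) (fun i => ![0, l i * y i])]
  congr 3
  funext i s
  fin_cases s
  · simp
  · simp; ring

lemma eval_fa (g : MvPolynomial Vx ℂ) (a : Fin 9 →₀ ℕ) (y : Fin 9 → Polynomial ℂ) (t : ℂ) :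
    (fa g a y).eval t = fa g a (fun i => (y i).eval t) := by
  classical
  rw [fa, fa, Polynomial.eval_finsetSum]
  apply Finset.sum_congr rfl
  intro σ _
  rw [Polynomial.eval_smul, Polynomial.eval_prod]
  simp only [Polynomial.eval_pow]

lemma fa_inv_poly {g : MvPolynomial Vx ℂ} (hg : WInv g) (a : Fin 9 →₀ ℕ)
    {y y' : Fin 9 → Polynomial ℂ}
    (h : ∀ t, (fun i => (y' i).eval t) - (fun i => (y i).eval t) ∈ spW) : fa g a y' = fa g a y := by
  apply Polynomial.funext
  intro t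
  rw [eval_fa, eval_fa]
  exact fa_inv hg a (h t)

lemma fa_mem {R : Type} [CommRing R] [Algebra ℂ R] {g : MvPolynomial Vx ℂ} {k : ℕ}
    (hk : ∀ s ∈ g.support, wt s = k) (a : Fin 9 →₀ ℕ) (y : Fin 9 → R) (N : Submodule ℂ R)
    (hN : ∀ q : Fin 9 → ℕ, (∑ i, a i = k + ∑ i, q i) → (∀ i, q i ≤ a i) → ∏ i, y i ^ q i ∈ N) :
    fa g a y ∈ N := by
  classical
  rw [fa]
  apply N.sum_mem
  intro σ hσ
  rw [Finset.mem_filter] at hσ
  obtain ⟨h1, h2, h3⟩ := hσ
  apply N.smul_mem
  apply hN (fun i => σ (Sum.inr (i, 1)))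
  · rw [← h3, sum_mdeg h2, hk σ h1]
  · intro i
    rw [← h3, mdeg_apply]
    omega

/-- degree at most `3 n` and no coefficient in degree `3 n - 1` -/
def QQn (n : ℕ) (f : Polynomial ℂ) : Prop :=
  (∀ e, 3 * n < e → f.coeff e = 0) ∧ ∀ e, e + 1 = 3 * n → f.coeff e = 0

lemma QQn_one : QQn 0 1 := by
  constructor
  · intro e he
    rw [Polynomial.coeff_one, if_neg (by omega)]
  · intro e he; omega

lemma QQn_mul {n n' : ℕ} {f f' : Polynomial ℂ} (h : QQn n f) (h' : QQn n' f') :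
    QQn (n + n') (f * f') := by
  constructor
  · intro e he
    rw [Polynomial.coeff_mul]
    apply Finset.sum_eq_zero
    rintro ⟨i, j⟩ hij
    rw [Finset.HasAntidiagonal.mem_antidiagonal] at hij
    simp only at hij ⊢
    by_cases h1 : 3 * n < i
    · rw [h.1 i h1, zero_mul]
    · rw [h'.1 j (by omega), mul_zero]
  · intro e he
    rw [Polynomial.coeff_mul]
    apply Finset.sum_eq_zero
    rintro ⟨i, j⟩ hij
    rw [Finset.HasAntidiagonal.mem_antidiagonal] at hij
    simp only at hij ⊢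
    by_cases h1 : 3 * n < i
    · rw [h.1 i h1, zero_mul]
    · by_cases h2 : 3 * n' < j
      · rw [h'.1 j h2, mul_zero]
      · by_cases h3 : i + 1 = 3 * n
        · rw [h.2 i h3, zero_mul]
        · rw [h'.2 j (by omega), mul_zero]

lemma QQn_pow {f : Polynomial ℂ} (h : QQn 1 f) (n : ℕ) : QQn n (f ^ n) := by
  induction n with
  | zero => simpa using QQn_one
  | succ n ih => rw [pow_succ]; exact QQn_mul ih h

lemma QQn_prod (y : Fin 9 → Polynomial ℂ) (hy : ∀ i, QQn 1 (y i)) (q : Fin 9 → ℕ)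
    (s : Finset (Fin 9)) : QQn (∑ i ∈ s, q i) (∏ i ∈ s, y i ^ q i) := by
  classical
  induction s using Finset.induction_on with
  | empty => simpa using QQn_one
  | insert i s hi ih =>
    rw [Finset.sum_insert hi, Finset.prod_insert hi]
    exact QQn_mul (QQn_pow (hy i) _) ih

/-- the section of the three linear forms -/
noncomputable def sec {R : Type} [CommRing R] [Algebra ℂ R] (z1 z2 z3 : R) : Fin 9 → R :=
  ![z2 - (z1 - z2 - 2 * ((1 / 12 : ℂ) • (z3 - 7 * z1 + 6 * z2))) -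
      (1 / 12 : ℂ) • (z3 - 7 * z1 + 6 * z2),
    z1 - z2 - 2 * ((1 / 12 : ℂ) • (z3 - 7 * z1 + 6 * z2)),
    (1 / 12 : ℂ) • (z3 - 7 * z1 + 6 * z2), 0, 0, 0, 0, 0, 0]

lemma sec_one (z1 z2 z3 : ℂ) : ∑ i, sec z1 z2 z3 i = z2 := by
  simp [sec, Fin.sum_univ_succ]
lemma sec_tt (z1 z2 z3 : ℂ) : ∑ i, tt i * sec z1 z2 z3 i = z1 := by
  simp [sec, Fin.sum_univ_succ, tt]; ring
lemma sec_tt3 (z1 z2 z3 : ℂ) : ∑ i, tt i ^ 3 * sec z1 z2 z3 i = z3 := by
  simp [sec, Fin.sum_univ_succ, tt]; ring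

lemma eval_sec (z1 z2 z3 : Polynomial ℂ) (t : ℂ) (i : Fin 9) :
    (sec z1 z2 z3 i).eval t = sec (z1.eval t) (z2.eval t) (z3.eval t) i := by
  fin_cases i <;> simp [sec] <;> ring

lemma QQn_sec (i : Fin 9) : QQn 1 (sec (Polynomial.X : Polynomial ℂ) 1 (Polynomial.X ^ 3) i) := by
  have hX : QQn 1 (Polynomial.X : Polynomial ℂ) := by
    constructor
    · intro e he; rw [Polynomial.coeff_X, if_neg (by omega)]
    · intro e he; rw [Polynomial.coeff_X, if_neg (by omega)]
  have h1 : QQn 1 (1 : Polynomial ℂ) := by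
    constructor
    · intro e he; rw [Polynomial.coeff_one, if_neg (by omega)]
    · intro e he; rw [Polynomial.coeff_one, if_neg (by omega)]
  have hX3 : QQn 1 (Polynomial.X ^ 3 : Polynomial ℂ) := by
    constructor
    · intro e he; rw [Polynomial.coeff_X_pow, if_neg (by omega)]
    · intro e he; rw [Polynomial.coeff_X_pow, if_neg (by omega)]
  have hadd : ∀ {f g : Polynomial ℂ}, QQn 1 f → QQn 1 g → QQn 1 (f + g) := by
    intro f g hf hg
    exact ⟨fun e he => by rw [Polynomial.coeff_add, hf.1 e he, hg.1 e he, add_zero],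
      fun e he => by rw [Polynomial.coeff_add, hf.2 e he, hg.2 e he, add_zero]⟩
  have hsub : ∀ {f g : Polynomial ℂ}, QQn 1 f → QQn 1 g → QQn 1 (f - g) := by
    intro f g hf hg
    exact ⟨fun e he => by rw [Polynomial.coeff_sub, hf.1 e he, hg.1 e he, sub_zero],
      fun e he => by rw [Polynomial.coeff_sub, hf.2 e he, hg.2 e he, sub_zero]⟩
  have hsm : ∀ (c : ℂ) {f : Polynomial ℂ}, QQn 1 f → QQn 1 (c • f) := by
    intro c f hf
    exact ⟨fun e he => by rw [Polynomial.coeff_smul, hf.1 e he, smul_zero],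
      fun e he => by rw [Polynomial.coeff_smul, hf.2 e he, smul_zero]⟩
  have h2 : ∀ {f : Polynomial ℂ}, QQn 1 f → QQn 1 (2 * f) := by
    intro f hf
    have : 2 * f = f + f := two_mul f
    rw [this]; exact hadd hf hf
  have h7 : ∀ {f : Polynomial ℂ}, QQn 1 f → QQn 1 (7 * f) := by
    intro f hf
    have : 7 * f = (7 : ℂ) • f := by
      rw [Polynomial.smul_eq_C_mul]; congr 1
    rw [this]; exact hsm _ hf
  have h6 : ∀ {f : Polynomial ℂ}, QQn 1 f → QQn 1 (6 * f) := by
    intro f hf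
    have : 6 * f = (6 : ℂ) • f := by
      rw [Polynomial.smul_eq_C_mul]; congr 1
    rw [this]; exact hsm _ hf
  have hz : QQn 1 (0 : Polynomial ℂ) := ⟨fun e _ => Polynomial.coeff_zero e,
    fun e _ => Polynomial.coeff_zero e⟩
  have hs3 := hsm (1 / 12) (hadd (hsub hX3 (h7 hX)) (h6 h1))
  fin_cases i
  · exact hsub (hsub h1 (hsub (hsub hX h1) (h2 hs3))) hs3
  · exact hsub (hsub hX h1) (h2 hs3)
  · exact hs3
  all_goals exact hz

/-- **Steinberg's bound.** -/
theorem fa_zero {g : MvPolynomial Vx ℂ} (hg : WInv g) {k : ℕ}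
    (hk : ∀ s ∈ g.support, wt s = k) (a : Fin 9 →₀ ℕ) (β : ℕ) (ha : ∑ i, a i = k + β)
    (hβ : 1 ≤ β) (hβk : k ≤ 5 * β) :
    fa g a (sec (Polynomial.X : Polynomial ℂ) 1 (Polynomial.X ^ 3)) = 0 := by
  classical
  set f := fa g a (sec (Polynomial.X : Polynomial ℂ) 1 (Polynomial.X ^ 3)) with hf
  -- degree bounds
  have hQ : QQn β f := by
    let N : Submodule ℂ (Polynomial ℂ) :=
      { carrier := {f | QQn β f}
        add_mem' := by
          intro f g hf hg
          exact ⟨fun e he => by rw [Polynomial.coeff_add, hf.1 e he, hg.1 e he, add_zero],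
            fun e he => by rw [Polynomial.coeff_add, hf.2 e he, hg.2 e he, add_zero]⟩
        zero_mem' := ⟨fun e _ => Polynomial.coeff_zero e, fun e _ => Polynomial.coeff_zero e⟩
        smul_mem' := by
          intro c f hf
          exact ⟨fun e he => by rw [Polynomial.coeff_smul, hf.1 e he, smul_zero],
            fun e he => by rw [Polynomial.coeff_smul, hf.2 e he, smul_zero]⟩ }
    have : f ∈ N := by
      apply fa_mem hk a _ N
      intro q hq _
      have h1 : ∑ i, q i = β := by omega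
      have h2 := QQn_prod _ QQn_sec q Finset.univ
      rw [h1] at h2
      exact h2
    exact this
  -- divisibility
  have hdvd : ∀ i : Fin 9, (Polynomial.X - Polynomial.C (tt i)) ^ (β - a i) ∣ f := by
    intro i
    set E : Polynomial ℂ := Polynomial.X - Polynomial.C (tt i) with hE
    set u : Fin 9 → Polynomial ℂ := sec 1 0 (Polynomial.X ^ 2 + Polynomial.C (tt i) * Polynomial.X +
      Polynomial.C (tt i) ^ 2) with hu
    have h1 : f = fa g a (fun j => (if j = i then 1 else 0) + E * u j) := by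
      rw [hf]
      apply fa_inv_poly hg
      intro t
      rw [mem_spW]
      simp only [Pi.sub_apply, hu, hE, Polynomial.eval_add, Polynomial.eval_mul, eval_sec,
        Polynomial.eval_sub, Polynomial.eval_X, Polynomial.eval_C, Polynomial.eval_one,
        Polynomial.eval_zero, Polynomial.eval_pow, apply_ite (Polynomial.eval t)]
      have e1 := sec_one t 1 (t ^ 3)
      have e2 := sec_tt t 1 (t ^ 3)
      have e3 := sec_tt3 t 1 (t ^ 3)
      have e1' := sec_one 1 0 (t ^ 2 + tt i * t + tt i ^ 2)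
      have e2' := sec_tt 1 0 (t ^ 2 + tt i * t + tt i ^ 2)
      have e3' := sec_tt3 1 0 (t ^ 2 + tt i * t + tt i ^ 2)
      have hc : ∀ c : Fin 9 → ℂ, ∑ j, c j * (sec t 1 (t ^ 3) j - ((if j = i then 1 else 0) +
          (t - tt i) * sec 1 0 (t ^ 2 + tt i * t + tt i ^ 2) j)) =
          ∑ j, c j * sec t 1 (t ^ 3) j - c i -
            (t - tt i) * ∑ j, c j * sec 1 0 (t ^ 2 + tt i * t + tt i ^ 2) j := by
        intro c
        have : ∀ j ∈ (Finset.univ : Finset (Fin 9)),
          c j * (sec t 1 (t ^ 3) j - ((if j = i then 1 else 0) +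
          (t - tt i) * sec 1 0 (t ^ 2 + tt i * t + tt i ^ 2) j)) =
          c j * sec t 1 (t ^ 3) j - c j * (if j = i then 1 else 0) -
          (t - tt i) * (c j * sec 1 0 (t ^ 2 + tt i * t + tt i ^ 2) j) := by
          intro j _; ring
        rw [Finset.sum_congr rfl this, Finset.sum_sub_distrib, Finset.sum_sub_distrib,
          ← Finset.mul_sum]
        simp
      refine ⟨?_, ?_, ?_⟩
      · have := hc (fun _ => 1)
        simp only [one_mul] at this
        rw [this, e1, e1']; ring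
      · rw [hc, e2, e2']; ring
      · have := hc (fun j => tt j ^ 3)
        rw [this, e3, e3']; ring
    rw [h1]
    let N : Submodule ℂ (Polynomial ℂ) :=
      (Ideal.span {E ^ (β - a i)} : Ideal (Polynomial ℂ)).restrictScalars ℂ
    have h2 : fa g a (fun j => (if j = i then 1 else 0) + E * u j) ∈ N := by
      apply fa_mem hk a _ N
      intro q hq hqa
      change _ ∈ (Ideal.span {E ^ (β - a i)} : Ideal (Polynomial ℂ))
      rw [Ideal.mem_span_singleton, ← Finset.mul_prod_erase Finset.univ _ (Finset.mem_univ i)]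
      apply Dvd.dvd.mul_left
      have h3 : ∏ j ∈ Finset.univ.erase i, ((if j = i then (1 : Polynomial ℂ) else 0) + E * u j) ^ q j =
          E ^ (∑ j ∈ Finset.univ.erase i, q j) * ∏ j ∈ Finset.univ.erase i, u j ^ q j := by
        rw [← Finset.prod_pow_eq_pow_sum, ← Finset.prod_mul_distrib]
        apply Finset.prod_congr rfl
        intro j hj
        rw [if_neg (Finset.ne_of_mem_erase hj), zero_add, mul_pow]
      rw [h3]
      apply Dvd.dvd.mul_right
      apply pow_dvd_pow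
      have h4 := Finset.add_sum_erase Finset.univ q (Finset.mem_univ i)
      have h5 := hqa i
      omega
    exact Ideal.mem_span_singleton.mp h2
  apply poly_zero_of_nc f (Finset.range 9) (fun i => if h : i < 9 then β - a ⟨i, h⟩ else 0) ?_
    (3 * β) ?_ ?_ ?_ ?_
  · intro i hi
    rw [Finset.mem_range] at hi
    rw [dif_pos hi]
    exact hdvd ⟨i, hi⟩
  · rw [Polynomial.natDegree_le_iff_coeff_eq_zero]
    exact fun e he => hQ.1 e he
  · omega
  · exact hQ.2 _ (by omega)
  · rw [Finset.sum_range]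
    have h1 : ∀ i : Fin 9, (if h : (i : ℕ) < 9 then β - a ⟨i, h⟩ else 0) = β - a i := by
      intro i; rw [dif_pos i.2]
    rw [Finset.sum_congr rfl (fun i _ => h1 i)]
    have h2 : ∑ i : Fin 9, β ≤ ∑ i : Fin 9, ((β - a i) + a i) :=
      Finset.sum_le_sum fun i _ => by omega
    rw [Finset.sum_add_distrib, Finset.sum_const, Finset.card_univ, Fintype.card_fin,
      smul_eq_mul] at h2
    omega

/-- expansion along the curve -/
lemma eval_expand {g : MvPolynomial Vx ℂ} {k : ℕ} (hk : ∀ s ∈ g.support, wt s = k) :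
    ∃ S : Finset (Fin 9 →₀ ℕ), (∀ a ∈ S, k ≤ ∑ i, a i) ∧ ∀ (s r : ℂ) (y : Fin 9 → ℂ),
      eval (pt (fun _ => ![0, s]) (fun i => ![0, r * y i])) g =
        ∑ a ∈ S, s ^ k * r ^ (∑ i, a i - k) * fa g a y := by
  classical
  refine ⟨(g.support.filter zc).image mdeg, ?_, ?_⟩
  · intro a ha
    rw [Finset.mem_image] at ha
    obtain ⟨σ, hσ, rfl⟩ := ha
    rw [Finset.mem_filter] at hσ
    rw [sum_mdeg hσ.2, hk σ hσ.1]
    omega
  · intro s r y
    rw [eval_zc g (fun _ => s) (fun i => r * y i)]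
    rw [← Finset.sum_fiberwise_of_maps_to (g := mdeg) (t := (g.support.filter zc).image mdeg)
      (fun σ hσ => Finset.mem_image_of_mem _ hσ)]
    apply Finset.sum_congr rfl
    intro a _
    rw [fa, Finset.mul_sum, Finset.filter_filter]
    apply Finset.sum_congr rfl
    intro σ hσ
    rw [Finset.mem_filter] at hσ
    obtain ⟨h1, h2, h3⟩ := hσ
    have h4 : ∑ i, a i - k = ∑ i, σ (Sum.inr (i, 1)) := by
      rw [← h3, sum_mdeg h2, hk σ h1]; omega
    have h5 : k = ∑ i, σ (Sum.inl (i, 1)) := by rw [← wt_zc h2, hk σ h1]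
    rw [h4, Finset.prod_pow_eq_pow_sum, ← h5]
    simp only [mul_pow, Finset.prod_mul_distrib, Finset.prod_pow_eq_pow_sum, smul_eq_mul]
    ring

end Pool.Agent.H774R3
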