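import Mathlib

set_option autoImplicit false

/-! A quotient of a simply connected space by a map with local sections and path connected fibres
is simply connected. -/

namespace Pool.Agent.H774R3

open unitInterval

namespace LemB

theorem homotopic_of_const {X : Type} [TopologicalSpace X] {x y z w : X} (A : Path x y)
    (D : Path y z) (B : Path z w) (δ : Path x w) (hA : ∀ t, A t = x) (hB : ∀ t, B t = z)
    (hD : ∀ t, D t = δ t) : ((A.trans D).trans B).Homotopic δ := by
  have hy : y = x := by rw [← A.target]; exact hA 1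
  have hw : w = z := by rw [← B.target]; exact hB 1
  subst hy
  subst hw
  have h1 : A = Path.refl y := by ext t; exact hA t
  have h2 : B = Path.refl w := by ext t; exact hB t
  have h3 : D = δ := by ext t; exact hD t
  subst h1
  subst h2
  subst h3
  exact ⟨(Path.Homotopy.transRefl _).trans (Path.Homotopy.reflTrans _)⟩

section
variable {E B : Type} [TopologicalSpace E] [TopologicalSpace B] (p : E → B) (hp : Continuous p)

/-- liftable paths -/
def Lft {b b' : B} (δ : Path b b') : Prop :=
  ∀ (e e' : E) (he : p e = b) (he' : p e' = b'), ∃ Γ : Path e e',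
    (Γ.map hp).Homotopic (δ.cast he he')

theorem Lft.trans (hsurj : Function.Surjective p) {b b' b'' : B} {δ : Path b b'} {δ' : Path b' b''}
    (h : Lft p hp δ) (h' : Lft p hp δ') : Lft p hp (δ.trans δ') := by
  intro e e'' he he''
  subst he
  subst he''
  obtain ⟨e', rfl⟩ := hsurj b'
  obtain ⟨Γ, hΓ⟩ := h e e' rfl rfl
  obtain ⟨Γ', hΓ'⟩ := h' e' e'' rfl rfl
  refine ⟨Γ.trans Γ', ?_⟩
  rw [Path.map_trans]
  exact hΓ.hcomp hΓ'

theorem Lft.homotopic {b b' : B} {δ δ' : Path b b'} (h : Lft p hp δ) (hδ : δ.Homotopic δ') :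
    Lft p hp δ' := by
  intro e e' he he'
  subst he
  subst he'
  obtain ⟨Γ, hΓ⟩ := h e e' rfl rfl
  exact ⟨Γ, hΓ.trans hδ⟩

theorem Lft.local (hfib : ∀ x y : E, p x = p y → ∃ γ : Path x y, ∀ t, p (γ t) = p x)
    {V : Set B} {s : B → E} (hs : ContinuousOn s V) (hps : ∀ c ∈ V, p (s c) = c)
    {b b' : B} (δ : Path b b') (hδ : ∀ t, δ t ∈ V) : Lft p hp δ := by
  intro e e' he he'
  subst he
  subst he'
  have h0 : p e ∈ V := by rw [← δ.source]; exact hδ 0
  have h1 : p e' ∈ V := by rw [← δ.target]; exact hδ 1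
  obtain ⟨α, hα⟩ := hfib e (s (p e)) (hps _ h0).symm
  obtain ⟨β, hβ⟩ := hfib (s (p e')) e' (hps _ h1)
  let sg : Path (s (p e)) (s (p e')) :=
    { toFun := fun t => s (δ t)
      continuous_toFun := hs.comp_continuous δ.continuous hδ
      source' := by rw [δ.source]
      target' := by rw [δ.target] }
  refine ⟨(α.trans sg).trans β, ?_⟩
  rw [Path.map_trans, Path.map_trans]
  exact homotopic_of_const _ _ _ _ (fun t => hα t) (fun t => hβ t) (fun t => hps _ (hδ t))

end
end LemB

open LemB in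
theorem simplyConnected_of_localSections {E B : Type} [TopologicalSpace E] [TopologicalSpace B]
    [SimplyConnectedSpace E] (p : E → B) (hp : Continuous p) (hsurj : Function.Surjective p)
    (hfib : ∀ x y : E, p x = p y → ∃ γ : Path x y, ∀ t, p (γ t) = p x)
    (hsec : ∀ b : B, ∃ V : Set B, IsOpen V ∧ b ∈ V ∧ ∃ s : B → E, ContinuousOn s V ∧
      ∀ c ∈ V, p (s c) = c) : SimplyConnectedSpace B := by
  have key : ∀ {b b' : B} (γ : Path b b'), Lft p hp γ := by
    intro b b' γ
    -- local liftability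
    have hloc : ∀ t0 : I, ∃ U : Set I, IsOpen U ∧ t0 ∈ U ∧ ∀ s ∈ U, ∀ t ∈ U, Lft p hp (γ.subpath s t) := by
      intro t0
      obtain ⟨V, hV, hb, s, hs, hps⟩ := hsec (γ t0)
      have h1 : γ ⁻¹' V ∈ nhds t0 := (hV.preimage γ.continuous).mem_nhds hb
      obtain ⟨ε, hε, hball⟩ := Metric.mem_nhds_iff.1 h1
      refine ⟨Metric.ball t0 ε, Metric.isOpen_ball, Metric.mem_ball_self hε, ?_⟩
      intro u hu v hv
      apply Lft.local p hp hfib hs hps
      intro t
      have h2 : γ.subpath u v t ∈ Set.range (γ.subpath u v) := ⟨t, rfl⟩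
      rw [Path.range_subpath] at h2
      obtain ⟨r, hr, hr2⟩ := h2
      rw [← hr2]
      apply hball
      have h3 : Set.OrdConnected (Metric.ball t0 ε) := by
        constructor
        intro x hx y hy z hz
        rw [Metric.mem_ball, Subtype.dist_eq, Real.dist_eq, abs_lt] at *
        have e1 : (x : ℝ) ≤ z := hz.1
        have e2 : (z : ℝ) ≤ y := hz.2
        constructor <;> linarith [hx.1, hx.2, hy.1, hy.2]
      exact h3.uIcc_subset hu hv hr
    let S : Set I := {t | Lft p hp (γ.subpath 0 t)}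
    have htr : ∀ s t : I, s ∈ S → Lft p hp (γ.subpath s t) → t ∈ S := by
      intro s t hs ht
      exact ((Lft.trans p hp hsurj hs ht).homotopic p hp ⟨Path.Homotopy.subpathTransSubpath γ 0 s t⟩)
    have hclopen : IsClopen S := by
      constructor
      · rw [← isOpen_compl_iff, isOpen_iff_mem_nhds]
        intro t ht
        obtain ⟨U, hU, htU, h⟩ := hloc t
        refine Filter.mem_of_superset (hU.mem_nhds htU) ?_
        intro s hs hsS
        exact ht (htr s t hsS (h s hs t htU))
      · rw [isOpen_iff_mem_nhds]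
        intro t ht
        obtain ⟨U, hU, htU, h⟩ := hloc t
        refine Filter.mem_of_superset (hU.mem_nhds htU) ?_
        intro s hs
        exact htr t s ht (h t htU s hs)
    have h0 : (0 : I) ∈ S := by
      obtain ⟨U, hU, htU, h⟩ := hloc 0
      exact h 0 htU 0 htU
    have h1 : (1 : I) ∈ S := by
      rw [hclopen.eq_univ ⟨0, h0⟩]; trivial
    have h2 : Lft p hp (γ.subpath 0 1) := h1
    intro e e' he he'
    subst he
    subst he'
    obtain ⟨Γ, hΓ⟩ := h2 e e' γ.source.symm γ.target.symm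
    refine ⟨Γ, ?_⟩
    rw [Path.subpath_zero_one] at hΓ
    exact hΓ
  have hpc : PathConnectedSpace B := hsurj.pathConnectedSpace hp
  rw [simply_connected_iff_paths_homotopic']
  refine ⟨hpc, ?_⟩
  intro x y γ₁ γ₂
  obtain ⟨e, rfl⟩ := hsurj x
  obtain ⟨e', rfl⟩ := hsurj y
  obtain ⟨Γ₁, h1⟩ := key γ₁ e e' rfl rfl
  obtain ⟨Γ₂, h2⟩ := key γ₂ e e' rfl rfl
  have h3 : Γ₁.Homotopic Γ₂ := SimplyConnectedSpace.paths_homotopic Γ₁ Γ₂
  exact (h1.symm.trans (h3.map ⟨p, hp⟩)).trans h2

end Pool.Agent.H774R3
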