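import Mathlib
import Pool.Agent.H774R3.Loc

set_option autoImplicit false

open MvPolynomial
open scoped Topology LinearAlgebra.Projectivization

namespace Pool.Agent.H774R3

attribute [local instance] MvPolynomial.gradedAlgebra

variable {κ : Type}

lemma eval_smul_sum (Q : MvPolynomial κ ℂ) (c : ℂ) (v : κ → ℂ) :
    eval (fun i => c * v i) Q =
      ∑ n ∈ Finset.range (Q.totalDegree + 1), c ^ n * eval v (homogeneousComponent n Q) := by
  conv_lhs => rw [← sum_homogeneousComponent Q]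
  rw [map_sum]
  exact Finset.sum_congr rfl fun n _ => eval_smul_hom (homogeneousComponent_isHomogeneous n Q) c v

/-- if `Q` vanishes at all multiples `c v` with `c` in an infinite set then all components do -/
lemma comp_zero (Q : MvPolynomial κ ℂ) (v : κ → ℂ) (A : Set ℂ) (hA : A.Infinite)
    (h : ∀ c ∈ A, eval (fun i => c * v i) Q = 0) (n : ℕ) : eval v (homogeneousComponent n Q) = 0 := by
  classical
  set R : Polynomial ℂ := ∑ n ∈ Finset.range (Q.totalDegree + 1),
    Polynomial.C (eval v (homogeneousComponent n Q)) * Polynomial.X ^ n with hR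
  have h0 : R = 0 := by
    apply Polynomial.eq_zero_of_infinite_isRoot
    apply hA.mono
    intro c hc
    have := h c hc
    rw [eval_smul_sum] at this
    change Polynomial.eval c R = 0
    rw [hR, Polynomial.eval_finsetSum]
    rw [← this]
    refine Finset.sum_congr rfl fun n _ => ?_
    simp; ring
  by_cases hn : n ∈ Finset.range (Q.totalDegree + 1)
  · have := congrArg (fun P : Polynomial ℂ => P.coeff n) h0
    simp only [hR, Polynomial.finsetSum_coeff, Polynomial.coeff_C_mul, Polynomial.coeff_X_pow,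
      Polynomial.coeff_zero] at this
    rw [Finset.sum_eq_single n] at this
    · simpa using this
    · intro b _ hb; rw [if_neg (Ne.symm hb), mul_zero]
    · intro h; exact absurd hn h
  · rw [homogeneousComponent_eq_zero, map_zero]
    simp only [Finset.mem_range, not_lt] at hn
    omega

/-- the ideal of all polynomials vanishing on the cone over a set of points of `ℙ` -/
def Iof (S : Set (ℙ ℂ (κ → ℂ))) : Ideal (MvPolynomial κ ℂ) where
  carrier := {Q | ∀ z ∈ S, ∀ c : ℂ, eval (fun i => c * z.rep i) Q = 0}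
  zero_mem' := by intro z _ c; simp
  add_mem' := by intro a b ha hb z hz c; rw [map_add, ha z hz c, hb z hz c, add_zero]
  smul_mem' := by intro a b hb z hz c; rw [smul_eq_mul, map_mul, hb z hz c, mul_zero]

lemma mem_Iof {S : Set (ℙ ℂ (κ → ℂ))} {Q : MvPolynomial κ ℂ} :
    Q ∈ Iof S ↔ ∀ z ∈ S, ∀ c : ℂ, eval (fun i => c * z.rep i) Q = 0 := Iff.rfl

lemma Iof_homComp {S : Set (ℙ ℂ (κ → ℂ))} {Q : MvPolynomial κ ℂ} (h : Q ∈ Iof S) (n : ℕ) :
    homogeneousComponent n Q ∈ Iof S := by
  intro z hz c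
  rw [eval_smul_hom (homogeneousComponent_isHomogeneous n Q),
    comp_zero Q z.rep Set.univ Set.infinite_univ (fun c _ => h z hz c) n, mul_zero]

lemma mem_Iof_of_hom {S : Set (ℙ ℂ (κ → ℂ))} {Q : MvPolynomial κ ℂ} {n : ℕ} (hQ : Q.IsHomogeneous n)
    (h : ∀ z ∈ S, eval z.rep Q = 0) : Q ∈ Iof S := by
  intro z hz c
  rw [eval_smul_hom hQ, h z hz, mul_zero]

lemma eval_rep_of_mem_Iof {S : Set (ℙ ℂ (κ → ℂ))} {Q : MvPolynomial κ ℂ} (h : Q ∈ Iof S)
    {z : ℙ ℂ (κ → ℂ)} (hz : z ∈ S) : eval z.rep Q = 0 := by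
  have := h z hz 1
  simpa using this

lemma Iof_isHomogeneous (S : Set (ℙ ℂ (κ → ℂ))) :
    (Iof S).IsHomogeneous (homogeneousSubmodule κ ℂ) := by
  intro n Q hQ
  have := Iof_homComp hQ n
  convert this using 1
  exact decomposition.decompose'_apply Q n

lemma Iof_prime {S : Set (ℙ ℂ (κ → ℂ))} (hS : @IsIrreducible _ (projSpace κ).top S) :
    (Iof S).IsPrime := by
  apply Ideal.IsHomogeneous.isPrime_of_homogeneous_mem_or_mem (Iof_isHomogeneous S)
  · intro h
    obtain ⟨z, hz⟩ := hS.1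
    have h1 : (1 : MvPolynomial κ ℂ) ∈ Iof S := by rw [h]; trivial
    have := h1 z hz 1
    simp at this
  · rintro x y ⟨a, hx⟩ ⟨b, hy⟩ hxy
    have hx' : x.IsHomogeneous a := hx
    have hy' : y.IsHomogeneous b := hy
    by_contra hcon
    push Not at hcon
    obtain ⟨h1, h2⟩ := hcon
    have h1' : ∃ z ∈ S, eval z.rep x ≠ 0 := by
      by_contra hc; push Not at hc; exact h1 (mem_Iof_of_hom hx' hc)
    have h2' : ∃ z ∈ S, eval z.rep y ≠ 0 := by
      by_contra hc; push Not at hc; exact h2 (mem_Iof_of_hom hy' hc)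
    obtain ⟨z1, hz1, hz1'⟩ := h1'
    obtain ⟨z2, hz2, hz2'⟩ := h2'
    obtain ⟨z, hz, hz'⟩ := hS.2 _ _ (proj_isOpen_D hx') (proj_isOpen_D hy') ⟨z1, hz1, hz1'⟩
      ⟨z2, hz2, hz2'⟩
    have := eval_rep_of_mem_Iof hxy hz
    rw [map_mul] at this
    exact mul_ne_zero hz'.1 hz'.2 this

end Pool.Agent.H774R3
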