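import Mathlib
set_option autoImplicit false
open Polynomial
namespace Pool.Agent.H774R3

section
variable {A R : Type} [CommRing A] [IsDomain A] [IsIntegrallyClosed A] [CommRing R] [IsDomain R]
  [Algebra A R] [Module.IsTorsionFree A R]

lemma minpoly_mul {a : A} (ha : a ≠ 0) {b : R} (hb : IsIntegral A b) :
    minpoly A (algebraMap A R a * b) = (minpoly A b).scaleRoots a := by
  have hab : IsIntegral A (algebraMap A R a * b) := isIntegral_algebraMap.mul hb
  have h1 : minpoly A (algebraMap A R a * b) ∣ (minpoly A b).scaleRoots a :=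
    minpoly.isIntegrallyClosed_dvd hab (scaleRoots_aeval_eq_zero (minpoly.aeval A b))
  have h2 : minpoly A b ∣ (minpoly A (algebraMap A R a * b)).comp (C a * X) := by
    apply minpoly.isIntegrallyClosed_dvd hb
    rw [aeval_comp]
    simp only [map_mul, aeval_C, aeval_X]
    exact minpoly.aeval A _
  have hdeg : ((minpoly A (algebraMap A R a * b)).comp (C a * X)).natDegree =
      (minpoly A (algebraMap A R a * b)).natDegree := by
    rw [natDegree_comp, natDegree_C_mul_X a ha, mul_one]
  have hne : (minpoly A (algebraMap A R a * b)).comp (C a * X) ≠ 0 := by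
    intro h0
    rw [comp_eq_zero_iff] at h0
    rcases h0 with h0 | ⟨_, h0⟩
    · exact minpoly.ne_zero hab h0
    · have := congrArg (fun p => p.coeff 1) h0
      simp at this
      exact ha this
  have h3 := natDegree_le_of_dvd h2 hne
  rw [hdeg] at h3
  refine (eq_of_monic_of_dvd_of_natDegree_le (minpoly.monic hab) ?_ h1 ?_).symm
  · rw [monic_scaleRoots_iff]; exact minpoly.monic hb
  · rw [natDegree_scaleRoots]; exact h3

end

/-- the UFD step -/
lemma integral_ufd {A R : Type} [CommRing A] [IsDomain A] [UniqueFactorizationMonoid A]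
    [CommRing R] [IsDomain R] [Algebra A R] [Module.IsTorsionFree A R] (F : R)
    (h0 : ∃ a : A, a ≠ 0 ∧ IsIntegral A (algebraMap A R a * F))
    (h : ∀ π : A, Prime π → ∃ a : A, ¬ π ∣ a ∧ IsIntegral A (algebraMap A R a * F)) :
    IsIntegral A F := by
  classical
  obtain ⟨a0, ha0, hb0⟩ := h0
  set b := algebraMap A R a0 * F with hb
  set m := minpoly A b with hm
  have hmon : m.Monic := minpoly.monic hb0
  set n := m.natDegree with hn
  have key : ∀ i, a0 ^ (n - i) ∣ m.coeff i := by
    intro i
    obtain ⟨u, w, c, hrel, hu, hw⟩ := UniqueFactorizationMonoid.exists_reduced_factors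
      (a0 ^ (n - i)) (pow_ne_zero _ ha0) (m.coeff i)
    have hc0 : c ≠ 0 := by
      rintro rfl
      rw [zero_mul] at hu
      exact pow_ne_zero _ ha0 hu.symm
    by_cases hun : IsUnit u
    · rw [← hu, ← hw]
      exact mul_dvd_mul_left c hun.dvd
    · exfalso
      have hu0 : u ≠ 0 := by
        rintro rfl
        rw [mul_zero] at hu
        exact pow_ne_zero _ ha0 hu.symm
      obtain ⟨π, hπ, hπu⟩ := WfDvdMonoid.exists_irreducible_factor hun hu0
      have hπp : Prime π := hπ.prime
      obtain ⟨a, hpa, hai⟩ := h π hπp
      have ha : a ≠ 0 := by rintro rfl; exact hpa (dvd_zero _)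
      set b' := algebraMap A R a * F with hb'
      have hbb : algebraMap A R a * b = algebraMap A R a0 * b' := by
        rw [hb, hb']; ring
      have e1 := minpoly_mul ha hb0
      have e2 := minpoly_mul ha0 hai
      rw [hbb, e2] at e1
      have hnd : (minpoly A b').natDegree = n := by
        have := congrArg natDegree e1
        rwa [natDegree_scaleRoots, natDegree_scaleRoots] at this
      have e3 := congrArg (fun p => p.coeff i) e1
      simp only [coeff_scaleRoots] at e3
      rw [hnd, ← hm, ← hn, ← hu, ← hw] at e3
      have e4 : (minpoly A b').coeff i * u = w * a ^ (n - i) := by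
        apply mul_left_cancel₀ hc0
        linear_combination e3
      have e5 : π ∣ w * a ^ (n - i) := by
        rw [← e4]
        exact dvd_mul_of_dvd_right hπu _
      rcases hπp.dvd_or_dvd e5 with h1 | h1
      · exact hπp.not_isUnit (hrel hπu h1)
      · exact hpa (hπp.dvd_of_dvd_pow h1)
  choose x hx using key
  refine ⟨∑ i ∈ Finset.range n, C (x i) * X ^ i + X ^ n, ?_, ?_⟩
  · rw [add_comm]
    apply monic_X_pow_add
    rw [degree_lt_iff_coeff_zero]
    intro j hj
    rw [finsetSum_coeff]
    apply Finset.sum_eq_zero
    intro i hi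
    rw [Finset.mem_range] at hi
    rw [coeff_C_mul, coeff_X_pow, if_neg (by omega), mul_zero]
  · have hroot : aeval b m = 0 := minpoly.aeval A b
    rw [aeval_eq_sum_range, ← hn] at hroot
    have h1 : algebraMap A R a0 ^ n * (∑ i ∈ Finset.range (n+1), algebraMap A R (x i) * F ^ i) = 0 := by
      rw [← hroot, Finset.mul_sum]
      apply Finset.sum_congr rfl
      intro i hi
      rw [Finset.mem_range] at hi
      rw [Algebra.smul_def, hx i, map_mul, map_pow, hb, mul_pow]
      rw [show n = (n - i) + i by omega, pow_add, show n - i + i - i = n - i by omega]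
      ring
    have hinj : Function.Injective (algebraMap A R) :=
      FaithfulSMul.algebraMap_injective A R
    have h2 : (algebraMap A R a0) ^ n ≠ 0 := by
      apply pow_ne_zero
      intro h3
      exact ha0 (hinj (by rw [h3, map_zero]))
    have h3 := (mul_eq_zero.mp h1).resolve_left h2
    rw [Finset.sum_range_succ] at h3
    have hxn : x n = 1 := by
      have := hx n
      rw [Nat.sub_self, pow_zero, one_mul, hn] at this
      rw [← this]; exact hmon
    rw [hxn, map_one, one_mul] at h3
    rw [eval₂_add, eval₂_finsetSum, eval₂_pow, eval₂_X, ← h3]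
    congr 1
    apply Finset.sum_congr rfl
    intro i _
    rw [eval₂_mul, eval₂_C, eval₂_pow, eval₂_X]

/-- (A) Hartogs for finite type algebras -/
theorem integral_of_height_one {k S R : Type} [Field k] [CommRing S] [IsDomain S] [Algebra k S]
    [Algebra.FiniteType k S] [CommRing R] [IsDomain R] [Algebra S R]
    (hinj : Function.Injective (algebraMap S R)) (F : R)
    (h0 : ∃ d : S, d ≠ 0 ∧ ∃ s : S, algebraMap S R d * F = algebraMap S R s)
    (h : ∀ P : Ideal S, P.IsPrime → P ≠ ⊥ →
      (∀ Q : Ideal S, Q.IsPrime → Q ≤ P → Q = ⊥ ∨ Q = P) →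
      ∃ d ∉ P, ∃ s : S, algebraMap S R d * F = algebraMap S R s) :
    IsIntegral S F := by
  classical
  obtain ⟨N, g, hg, hint⟩ := exists_integral_inj_algHom_of_fg k S
  let A := MvPolynomial (Fin N) k
  let _ : Algebra A S := g.toRingHom.toAlgebra
  let _ : Algebra A R := ((algebraMap S R).comp (algebraMap A S)).toAlgebra
  have : IsScalarTower A S R := IsScalarTower.of_algebraMap_eq fun _ => rfl
  have : Algebra.IsIntegral A S := ⟨fun x => hint x⟩
  have hgi : Function.Injective (algebraMap A S) := hg
  have hAR : Function.Injective (algebraMap A R) := hinj.comp hgi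
  have : FaithfulSMul A R := (faithfulSMul_iff_algebraMap_injective A R).mpr hAR
  have : Module.IsTorsionFree A R := by infer_instance
  -- the conductor
  let D : Ideal S :=
    { carrier := {d | ∃ s : S, algebraMap S R d * F = algebraMap S R s}
      add_mem' := by
        rintro a b ⟨s, hs⟩ ⟨t, ht⟩
        exact ⟨s + t, by rw [map_add, map_add, add_mul, hs, ht]⟩
      zero_mem' := ⟨0, by simp⟩
      smul_mem' := by
        rintro c a ⟨s, hs⟩
        exact ⟨c * s, by rw [smul_eq_mul, map_mul, map_mul, mul_assoc, hs]⟩ }
  have hD : ∀ a : A, algebraMap A S a ∈ D → IsIntegral A (algebraMap A R a * F) := by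
    rintro a ⟨s, hs⟩
    have : algebraMap A R a * F = algebraMap S R s := hs
    rw [this]
    exact (Algebra.IsIntegral.isIntegral (R := A) s).map (IsScalarTower.toAlgHom A S R)
  have hD0 : D ≠ ⊥ := by
    obtain ⟨d, hd, s, hs⟩ := h0
    intro hbot
    have : d ∈ D := ⟨s, hs⟩
    rw [hbot, Ideal.mem_bot] at this
    exact hd this
  have hAF : IsIntegral A F := by
    apply integral_ufd
    · have h1 : D.comap (algebraMap A S) ≠ ⊥ := by
        intro h2
        exact hD0 (Ideal.eq_bot_of_comap_eq_bot h2)
      obtain ⟨a, ha, ha0⟩ := Submodule.exists_mem_ne_zero_of_ne_bot h1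
      exact ⟨a, ha0, hD a ha⟩
    · intro π hπ
      by_contra hcon
      push Not at hcon
      -- D is disjoint from A \ (π)
      have hπI : (Ideal.span {π} : Ideal A).IsPrime :=
        (Ideal.span_singleton_prime hπ.ne_zero).mpr hπ
      have hdisj : Disjoint (D : Set S)
          ((Ideal.span {π} : Ideal A).primeCompl.map (algebraMap A S) : Set S) := by
        rw [Set.disjoint_left]
        rintro d hd ⟨a, ha, rfl⟩
        refine hcon a ?_ (hD a hd)
        intro h1
        exact ha (Ideal.mem_span_singleton.mpr h1)
      obtain ⟨P, hP, hDP, hPd⟩ := D.exists_le_prime_disjoint _ hdisj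
      have hPπ : P.comap (algebraMap A S) ≤ Ideal.span {π} := by
        intro a ha
        by_contra hne
        exact (Set.disjoint_left.mp hPd) (show algebraMap A S a ∈ (P : Set S) from ha)
          ⟨a, hne, rfl⟩
      have hP0 : P ≠ ⊥ := by
        rintro rfl
        exact hD0 (le_bot_iff.mp hDP)
      have hheight : ∀ q : Ideal A, q.IsPrime → q ≤ Ideal.span {π} → q ≠ ⊥ → q = Ideal.span {π} := by
        intro q hq hqle hq0
        apply le_antisymm hqle
        rw [Ideal.span_singleton_le_iff_mem]
        obtain ⟨x, hx, hx0⟩ := hq.exists_mem_prime_of_ne_bot hq0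
        have h1 : π ∣ x := Ideal.mem_span_singleton.mp (hqle hx)
        have h2 : Associated π x := hπ.associated_of_dvd hx0 h1
        obtain ⟨u, hu⟩ := h2.symm
        rw [← hu]
        exact q.mul_mem_right _ hx
      have hPeq : P.comap (algebraMap A S) = Ideal.span {π} := by
        apply hheight _ (Ideal.comap_isPrime _ _) hPπ
        intro h2
        exact hP0 (Ideal.eq_bot_of_comap_eq_bot h2)
      obtain ⟨d, hdP, s, hs⟩ := h P hP hP0 (by
        intro Q hQ hQP
        by_contra hc
        push Not at hc
        have h1 : Q.comap (algebraMap A S) = Ideal.span {π} := by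
          apply hheight _ (Ideal.comap_isPrime _ _) ((Ideal.comap_mono hQP).trans hPπ)
          intro h2
          exact hc.1 (Ideal.eq_bot_of_comap_eq_bot h2)
        have h2 := Ideal.IsIntegral.comap_lt_comap (R := A) (lt_of_le_of_ne hQP hc.2)
        rw [h1, hPeq] at h2
        exact lt_irrefl _ h2)
      exact hdP (hDP ⟨s, hs⟩)
  exact hAF.tower_top
end Pool.Agent.H774R3
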