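import Mathlib
import Pool.Agent.H774R3.Cone
import Pool.Agent.H774R3.LemA

set_option autoImplicit false

open MvPolynomial
open scoped Topology LinearAlgebra.Projectivization

namespace Pool.Agent.H774R3

attribute [local instance] MvPolynomial.gradedAlgebra

section
variable {κ : Type} {Y : Set (ℙ ℂ (κ → ℂ))} (e : (grpG ⧸ grpH.subgroupOf grpG) ≃ Y)

/-- the `k`-th powers are an infinite set -/
lemma range_pow (k : ℕ) (hk : 1 ≤ k) : {c : ℂ | ∃ t : ℂ, t ^ k = c} = Set.univ := by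
  ext c
  simp only [Set.mem_ofPred_eq, Set.mem_univ, iff_true]
  exact IsAlgClosed.exists_pow_nat_eq c (by omega)

lemma ker_comp {f : κ → MvPolynomial Vx ℂ} {k : ℕ} (hk1 : 1 ≤ k)
    (hk : ∀ l, ∀ s ∈ (f l).support, wt s = k) {Q : MvPolynomial κ ℂ} (hQ : aeval f Q = 0) (n : ℕ) :
    aeval f (homogeneousComponent n Q) = 0 := by
  apply MvPolynomial.funext
  intro x
  rw [pt_surj x, map_zero]
  set p : Fin 9 → Fin 2 → ℂ := fun i s => x (Sum.inl (i, s))
  set v : Fin 9 → Fin 2 → ℂ := fun i s => x (Sum.inr (i, s))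
  have h0 : ∀ (p v : Fin 9 → Fin 2 → ℂ) (R : MvPolynomial κ ℂ), eval (pt p v) (aeval f R) =
      eval (fun j => eval (pt p v) (f j)) R := by
    intro p v R
    rw [← bind₁, eval_bind]
  rw [h0]
  apply comp_zero Q _ Set.univ Set.infinite_univ
  intro c _
  obtain ⟨t, ht⟩ := IsAlgClosed.exists_pow_nat_eq c (show 0 < k by omega)
  have h1 := h0 (fun i s => t * p i s) v Q
  rw [hQ, map_zero] at h1
  rw [h1]
  congr 2
  funext j
  rw [eval_homog (hk j), ht]

lemma surj_piG (y : Y) : ∃ p q v h, piG e (mkG p q v h) = y.1 := by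
  obtain ⟨x, rfl⟩ := e.surjective y
  induction x using QuotientGroup.induction_on with
  | H g =>
    obtain ⟨p, q, v, h, rfl⟩ := exists_mkG g
    exact ⟨p, q, v, h, rfl⟩

end

section
variable {κ : Type} {Xbar Z : Set (ℙ ℂ (κ → ℂ))}
  (e : (grpG ⧸ grpH.subgroupOf grpG) ≃ ↥(Xbar \ Z))

lemma van_Xbar (hXi : @IsIrreducible _ (projSpace κ).top Xbar) (hZ : IsClosed[(projSpace κ).top] Z)
    {f : κ → MvPolynomial Vx ℂ} (hf : Reps e f) {N : ℕ} {Q : MvPolynomial κ ℂ}
    (hQ : Q.IsHomogeneous N) (hQ0 : aeval f Q = 0) {z : ℙ ℂ (κ → ℂ)} (hz : z ∈ Xbar) :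
    eval z.rep Q = 0 := by
  by_contra hne
  have y0 : ↥(Xbar \ Z) := e (QuotientGroup.mk 1)
  have hZo : IsOpen[(projSpace κ).top] Zᶜ := (@isOpen_compl_iff _ _ (projSpace κ).top).mpr hZ
  obtain ⟨z', hz', h1, h2⟩ := hXi.2 _ _ (proj_isOpen_D hQ) hZo ⟨z, hz, hne⟩ ⟨y0.1, y0.2.1, y0.2.2⟩
  obtain ⟨p, q, v, h, hp⟩ := surj_piG e ⟨z', hz', h2⟩
  obtain ⟨c, hc, h3⟩ := eval_rep_of_reps e hf p q v h
  apply h1
  have := h3 N Q hQ
  rw [hQ0, map_zero, mul_zero] at this
  rw [← this, hp]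

lemma ker_le_Iof (hXi : @IsIrreducible _ (projSpace κ).top Xbar)
    (hZ : IsClosed[(projSpace κ).top] Z)
    {f : κ → MvPolynomial Vx ℂ} (hf : Reps e f) {k : ℕ} (hk1 : 1 ≤ k)
    (hk : ∀ l, ∀ s ∈ (f l).support, wt s = k) {S : Set (ℙ ℂ (κ → ℂ))} (hS : S ⊆ Xbar)
    {Q : MvPolynomial κ ℂ} (hQ : aeval f Q = 0) : Q ∈ Iof S := by
  intro z hz c
  rw [eval_smul_sum]
  apply Finset.sum_eq_zero
  intro n _
  rw [van_Xbar e hXi hZ hf (homogeneousComponent_isHomogeneous n Q) (ker_comp hk1 hk hQ n) (hS hz),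
    mul_zero]

/-- the main step: a small compactification forces integrality -/
theorem integral_of_small [Fintype κ] (hX : IsClosed[(projSpace κ).top] Xbar)
    (hXi : @IsIrreducible _ (projSpace κ).top Xbar)
    (hZ : IsClosed[(projSpace κ).top] Z)
    (hcod : ∀ Z₁ ⊆ Z, IsClosed[(projSpace κ).top] Z₁ → @IsIrreducible _ (projSpace κ).top Z₁ →
      ∃ Z₂, IsClosed[(projSpace κ).top] Z₂ ∧ @IsIrreducible _ (projSpace κ).top Z₂ ∧
        Z₁ ⊂ Z₂ ∧ Z₂ ⊂ Xbar)
    (he : IsIso (homSpace grpG grpH) ((projSpace κ).induced (Subtype.val : ↥(Xbar \ Z) → _)) e)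
    {f : κ → MvPolynomial Vx ℂ} (hf : Reps e f) {k : ℕ} (hk1 : 1 ≤ k)
    (hk : ∀ l, ∀ s ∈ (f l).support, wt s = k) (hfW : ∀ l, WInv (f l))
    (F : MvPolynomial Vx ℂ) (n : ℕ) (hF : ∀ s ∈ F.support, wt s = k * n) (hFW : WInv F) :
    IsIntegral (aeval f : MvPolynomial κ ℂ →ₐ[ℂ] MvPolynomial Vx ℂ).range F := by
  classical
  set KK : MvPolynomial κ ℂ →ₐ[ℂ] MvPolynomial Vx ℂ := aeval f with hKK
  set π0 := KK.rangeRestrict with hπ0
  have hsurj : Function.Surjective π0 := KK.rangeRestrict_surjective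
  haveI : Algebra.FiniteType ℂ KK.range := Algebra.FiniteType.of_surjective π0 hsurj
  have hval : ∀ Q, (π0 Q : MvPolynomial Vx ℂ) = aeval f Q := fun Q => rfl
  have hker : ∀ Q, π0 Q = 0 ↔ aeval f Q = 0 := by
    intro Q
    rw [← hval]
    exact Subtype.ext_iff
  -- base point
  obtain ⟨p0, q0, v0, h0, -⟩ := surj_piG e (e (QuotientGroup.mk 1))
  apply integral_of_height_one (k := ℂ) Subtype.val_injective F
  · obtain ⟨N, Q, P, hQ, hQ0, hQF⟩ := local_expr e he hf hk hfW F n hF hFW p0 q0 v0 h0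
    refine ⟨π0 Q, ?_, π0 P, hQF⟩
    rw [Ne, hker]
    intro h1
    obtain ⟨c, hc, h3⟩ := eval_rep_of_reps e hf p0 q0 v0 h0
    have := h3 N Q hQ
    rw [h1, map_zero, mul_zero] at this
    exact hQ0 this
  intro P hP hPne hPmin
  by_contra hcon
  push Not at hcon
  -- every denominator of F is in P
  have hD : ∀ Q R : MvPolynomial κ ℂ, aeval f Q * F = aeval f R → π0 Q ∈ P := by
    intro Q R hQR
    by_contra hnot
    exact hcon (π0 Q) hnot (π0 R) hQR
  set Pt : Ideal (MvPolynomial κ ℂ) := P.comap π0 with hPt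
  have hPtprime : Pt.IsPrime := Ideal.comap_isPrime π0 P
  set Ph : Ideal (MvPolynomial κ ℂ) := (Pt.homogeneousCore (homogeneousSubmodule κ ℂ)).toIdeal
    with hPh
  have hPhprime : Ph.IsPrime := hPtprime.homogeneousCore
  have hPhle : Ph ≤ Pt := Ideal.toIdeal_homogeneousCore_le _ Pt
  have hPhhom : Ph.IsHomogeneous (homogeneousSubmodule κ ℂ) :=
    (Pt.homogeneousCore (homogeneousSubmodule κ ℂ)).isHomogeneous
  have hmemPh : ∀ (N : ℕ) (Q : MvPolynomial κ ℂ), Q.IsHomogeneous N → Q ∈ Pt → Q ∈ Ph :=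
    fun N Q hQ hQP => Ideal.mem_homogeneousCore_of_homogeneous_of_mem ⟨N, hQ⟩ hQP
  have hcomp : ∀ Q ∈ Ph, ∀ m, homogeneousComponent m Q ∈ Ph := fun Q hQ m =>
    homogeneousComponent_mem_of_mem hPhhom hQ m
  have hkerPt : ∀ Q, aeval f Q = 0 → Q ∈ Pt := by
    intro Q hQ
    rw [hPt, Ideal.mem_comap, (hker Q).mpr hQ]
    exact P.zero_mem
  -- the closed set Z₁
  set Z₁ : Set (ℙ ℂ (κ → ℂ)) := {z | ∀ Q ∈ Ph, eval z.rep Q = 0} with hZ₁
  have hZ₁Y : ∀ z ∈ Z₁, z ∉ Xbar \ Z := by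
    intro z hz hzY
    obtain ⟨p, q, v, h, hp⟩ := surj_piG e ⟨z, hzY⟩
    obtain ⟨N, Q, R, hQ, hQ0, hQF⟩ := local_expr e he hf hk hfW F n hF hFW p q v h
    rw [hp] at hQ0
    exact hQ0 (hz Q (hmemPh N Q hQ (hD Q R hQF)))
  have hZ₁X : Z₁ ⊆ Xbar := by
    intro z hz
    by_contra hzX
    have hXo : IsOpen[(projSpace κ).top] Xbarᶜ := (@isOpen_compl_iff _ _ (projSpace κ).top).mpr hX
    obtain ⟨N, Q, hQ, h1, h2⟩ := proj_basis hXo hzX
    have h3 : aeval f Q = 0 := by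
      apply poly_zero_of_D QQ _ QQ_ne
      intro x hx
      rw [pt_surj x] at hx ⊢
      obtain ⟨q', hq'⟩ := exists_q (of_QQ hx)
      obtain ⟨c, hc, h3⟩ := eval_rep_of_reps e hf _ q' (fun i s => x (Sum.inr (i, s))) hq'
      by_contra hne
      have h4 : eval (piG e (mkG _ q' (fun i s => x (Sum.inr (i, s))) hq')).rep Q ≠ 0 := by
        rw [h3 N Q hQ]
        exact mul_ne_zero (pow_ne_zero _ hc) hne
      exact h2 _ h4 (e (QuotientGroup.mk (mkG _ q' (fun i s => x (Sum.inr (i, s))) hq'))).2.1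
    exact h1 (hz Q (hmemPh N Q hQ (hkerPt Q h3)))
  have hZ₁Z : Z₁ ⊆ Z := by
    intro z hz
    by_contra hzZ
    exact hZ₁Y z hz ⟨hZ₁X hz, hzZ⟩
  have hZ₁closed : IsClosed[(projSpace κ).top] Z₁ := by
    letI := (projSpace κ).top
    rw [← isOpen_compl_iff, isOpen_iff_forall_mem_open]
    intro z hz
    simp only [hZ₁, Set.mem_compl_iff, Set.mem_ofPred_eq, not_forall] at hz
    obtain ⟨Q, hQ, hQz⟩ := hz
    have h1 : ∃ m, eval z.rep (homogeneousComponent m Q) ≠ 0 := by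
      by_contra hc
      push Not at hc
      apply hQz
      rw [← sum_homogeneousComponent Q, map_sum]
      exact Finset.sum_eq_zero fun m _ => hc m
    obtain ⟨m, hm⟩ := h1
    refine ⟨_, ?_, proj_isOpen_D (homogeneousComponent_isHomogeneous m Q), hm⟩
    intro z' hz' hz'1
    exact hz' (hz'1 _ (hcomp Q hQ m))
  -- contradiction tool
  have tool : ∀ I : Ideal (MvPolynomial κ ℂ), I.IsPrime → (∀ Q, aeval f Q = 0 → Q ∈ I) →
      I ≤ Pt → (∃ Q ∈ I, aeval f Q ≠ 0) → (∃ Q ∈ Pt, Q ∉ I) → False := by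
    intro I hI hkI hIP ⟨Q1, hQ1, hQ1'⟩ ⟨Q2, hQ2, hQ2'⟩
    have hkI' : RingHom.ker π0 ≤ I := by
      intro Q hQ
      exact hkI Q ((hker Q).mp hQ)
    have hq : (I.map π0).IsPrime := Ideal.map_isPrime_of_surjective hsurj hkI'
    have hle : I.map π0 ≤ P := Ideal.map_le_iff_le_comap.mpr hIP
    rcases hPmin _ hq hle with h1 | h1
    · have h2 : π0 Q1 ∈ I.map π0 := Ideal.mem_map_of_mem π0 hQ1
      rw [h1, Ideal.mem_bot, hker] at h2
      exact hQ1' h2
    · have h2 : π0 Q2 ∈ I.map π0 := by rw [h1]; exact hQ2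
      have h3 : Q2 ∈ (I.map π0).comap π0 := h2
      rw [Ideal.comap_map_of_surjective' π0 hsurj, sup_eq_left.mpr hkI'] at h3
      exact hQ2' h3
  by_cases hm : ∀ j, (X j : MvPolynomial κ ℂ) ∈ Ph
  · -- the irrelevant ideal
    have hmax : ∀ Q : MvPolynomial κ ℂ, Q - C (eval (fun _ => 0) Q) ∈ Ph := by
      intro Q
      induction Q using MvPolynomial.induction_on with
      | C c => simp
      | add p q hp hq =>
        have := Ph.add_mem hp hq
        convert this using 1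
        rw [map_add, map_add]; ring
      | mul_X p i _ =>
        have := Ph.mul_mem_left p (hm i)
        convert this using 1
        simp
    -- two different points
    have h1 : ∀ i : Fin 9, dt ((fun _ => ![1, 0]) i) ((fun _ => ![0, 1]) i) ≠ 0 := by
      intro i; simp [dt]
    have h2 : ∀ i : Fin 9, dt ((fun _ => ![0, 1]) i) ((fun _ => ![1, 0]) i) ≠ 0 := by
      intro i; simp [dt]
    set x0 := piG e (mkG _ _ (fun _ => ![0, 0]) h1) with hx0
    set x1 := piG e (mkG _ _ (fun _ => ![0, 0]) h2) with hx1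
    have hx01 : x0 ≠ x1 := by
      intro h3
      rw [hx0, hx1] at h3
      unfold piG at h3
      have h4 := e.injective (Subtype.ext h3)
      rw [coset_iff] at h4
      obtain ⟨t, w, ht, hw, h5, h6⟩ := h4
      have := congrFun (congrFun h5 0) 1
      simp at this
    have hx0X : x0 ∈ Xbar := (e (QuotientGroup.mk (mkG _ _ (fun _ => ![0, 0]) h1))).2.1
    obtain ⟨j0, hj0⟩ : ∃ j, x0.rep j ≠ 0 := by
      by_contra hc
      push Not at hc
      exact x0.rep_nonzero (funext hc)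
    apply tool (Iof {x0}) (Iof_prime (@isIrreducible_singleton _ (projSpace κ).top x0))
      (fun Q hQ => ker_le_Iof e hXi hZ hf hk1 hk (by rintro z rfl; exact hx0X) hQ)
    · intro Q hQ
      have h3 := hQ x0 rfl 0
      simp only [zero_mul] at h3
      have h4 := hmax Q
      rw [h3, C_0, sub_zero] at h4
      exact hPhle h4
    · by_contra hc
      push Not at hc
      apply hx01
      have h5 : ∀ i, x0.rep j0 * x1.rep i = x0.rep i * x1.rep j0 := by
        intro i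
        have hL : ((C (x0.rep j0) * X i - C (x0.rep i) * X j0 : MvPolynomial κ ℂ)).IsHomogeneous 1 :=
          ((isHomogeneous_C_mul_X _ _).sub (isHomogeneous_C_mul_X _ _))
        have h6 := hc _ (mem_Iof_of_hom (S := {x0}) hL (by
          rintro z rfl
          simp
          ring))
        obtain ⟨c, hc', h7⟩ := eval_rep_of_reps e hf _ _ (fun _ => ![0, 0]) h2
        have h8 := h7 1 _ hL
        rw [h6, map_zero, mul_zero, ← hx1] at h8
        simp at h8
        linear_combination h8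
      rw [← x0.mk_rep, ← x1.mk_rep, Projectivization.mk_eq_mk_iff']
      obtain ⟨j1, hj1⟩ : ∃ j, x1.rep j ≠ 0 := by
        by_contra hc
        push Not at hc
        exact x1.rep_nonzero (funext hc)
      have hne : x1.rep j0 ≠ 0 := by
        intro h9
        have := h5 j1
        rw [h9, mul_zero] at this
        exact mul_ne_zero hj0 hj1 this
      refine ⟨x0.rep j0 / x1.rep j0, ?_⟩
      funext i
      simp only [Pi.smul_apply, smul_eq_mul]
      field_simp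
      linear_combination h5 i
    · refine ⟨X j0, hPhle (hm j0), ?_⟩
      intro h3
      have := eval_rep_of_mem_Iof h3 (z := x0) rfl
      simp at this
      exact hj0 this
  · push Not at hm
    obtain ⟨j, hj⟩ := hm
    have hNull : ∀ Q : MvPolynomial κ ℂ, (∀ v ∈ zeroLocus ℂ Ph, eval v Q = 0) → Q ∈ Ph := by
      intro Q hQ
      rw [← IsPrime.vanishingIdeal_zeroLocus (K := ℂ) Ph]
      intro v hv
      have := hQ v hv
      rwa [aeval_eq_eval]
    obtain ⟨v1, hv1, hv1j⟩ : ∃ v ∈ zeroLocus ℂ Ph, v j ≠ 0 := by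
      by_contra hc
      push Not at hc
      apply hj
      apply hNull
      intro v hv
      rw [eval_X]; exact hc v hv
    have hv10 : v1 ≠ 0 := by rintro rfl; simp at hv1j
    have hzl : ∀ v ∈ zeroLocus ℂ Ph, ∀ Q ∈ Ph, eval v Q = 0 := by
      intro v hv Q hQ
      have := hv Q hQ
      rwa [aeval_eq_eval] at this
    have hproj : ∀ v ∈ zeroLocus ℂ Ph, ∀ hv0 : v ≠ 0, Projectivization.mk ℂ v hv0 ∈ Z₁ := by
      intro v hv hv0 Q hQ
      obtain ⟨c, hc, hc'⟩ := rep_scale hv0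
      have h2 : (Projectivization.mk ℂ v hv0).rep = fun j => c * v j := funext hc'
      rw [h2, eval_smul_sum]
      exact Finset.sum_eq_zero fun m _ => by rw [hzl v hv _ (hcomp Q hQ m), mul_zero]
    have hpt : ∀ (N : ℕ) (Q : MvPolynomial κ ℂ), Q.IsHomogeneous N → Q ∉ Ph →
        ∃ z ∈ Z₁, eval z.rep Q ≠ 0 := by
      intro N Q hQ hQP
      obtain ⟨v, hv, hvQ⟩ : ∃ v ∈ zeroLocus ℂ Ph, eval v Q ≠ 0 := by
        by_contra hc
        push Not at hc
        exact hQP (hNull Q hc)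
      have key : ∀ v ∈ zeroLocus ℂ Ph, v ≠ 0 → eval v Q ≠ 0 → ∃ z ∈ Z₁, eval z.rep Q ≠ 0 := by
        intro v hv hv0 hvQ
        refine ⟨_, hproj v hv hv0, ?_⟩
        obtain ⟨c, hc, h3, _⟩ := eval_rep_mk hQ hv0
        rw [h3]
        exact mul_ne_zero (pow_ne_zero _ hc) hvQ
      by_cases hv0 : v = 0
      · apply key v1 hv1 hv10
        have h3 := eval_smul_hom hQ 0 v1
        have h4 : (fun i => 0 * v1 i) = (0 : κ → ℂ) := by funext i; simp
        rw [h4, ← hv0] at h3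
        intro h5
        rw [h5, mul_zero] at h3
        exact hvQ h3
      · exact key v hv hv0 hvQ
    have hZ₁irr : @IsIrreducible _ (projSpace κ).top Z₁ := by
      refine ⟨⟨_, hproj v1 hv1 hv10⟩, ?_⟩
      rintro u v hu hv ⟨z1, hz1, hz1u⟩ ⟨z2, hz2, hz2v⟩
      obtain ⟨N1, Q1, hQ1, a1, b1⟩ := proj_basis hu hz1u
      obtain ⟨N2, Q2, hQ2, a2, b2⟩ := proj_basis hv hz2v
      have c1 : Q1 ∉ Ph := fun h => a1 (hz1 Q1 h)
      have c2 : Q2 ∉ Ph := fun h => a2 (hz2 Q2 h)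
      have c3 : Q1 * Q2 ∉ Ph := fun h => (hPhprime.mem_or_mem h).elim c1 c2
      obtain ⟨z, hz, hz'⟩ := hpt _ _ (hQ1.mul hQ2) c3
      rw [map_mul] at hz'
      exact ⟨z, hz, b1 z (left_ne_zero_of_mul hz'), b2 z (right_ne_zero_of_mul hz')⟩
    obtain ⟨Z₂, hZ₂c, hZ₂i, hZ₁₂, hZ₂X⟩ := hcod Z₁ hZ₁Z hZ₁closed hZ₁irr
    apply tool (Iof Z₂) (Iof_prime hZ₂i) (fun Q hQ => ker_le_Iof e hXi hZ hf hk1 hk hZ₂X.1 hQ)
    · intro Q hQ
      apply hPhle
      apply hNull
      intro v hv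
      by_cases hv0 : v = 0
      · obtain ⟨z, hz⟩ := hZ₂i.1
        have := hQ z hz 0
        rw [hv0]
        have h4 : (fun i => 0 * z.rep i) = (0 : κ → ℂ) := by funext i; simp
        rw [h4] at this
        exact this
      · obtain ⟨c, hc, hc'⟩ := rep_scale hv0
        have h3 := hQ _ (hZ₁₂.1 (hproj v hv hv0)) c⁻¹
        have h4 : (fun i => c⁻¹ * (Projectivization.mk ℂ v hv0).rep i) = v := by
          funext i
          rw [hc' i, inv_mul_cancel_left₀ hc]
        rw [h4] at h3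
        exact h3
    · obtain ⟨z, hzX, hzZ⟩ := Set.exists_of_ssubset hZ₂X
      have hZo : IsOpen[(projSpace κ).top] Z₂ᶜ := (@isOpen_compl_iff _ _ (projSpace κ).top).mpr hZ₂c
      obtain ⟨N, Q, hQ, h1, h2⟩ := proj_basis hZo hzZ
      refine ⟨Q, mem_Iof_of_hom hQ ?_, ?_⟩
      · intro z' hz'
        by_contra hne
        exact h2 z' hne hz'
      · intro h3
        exact h1 (van_Xbar e hXi hZ hf hQ h3 hzX)
    · obtain ⟨z, hz2, hz1⟩ := Set.exists_of_ssubset hZ₁₂
      simp only [hZ₁, Set.mem_ofPred_eq, not_forall] at hz1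
      obtain ⟨Q, hQ, hQz⟩ := hz1
      exact ⟨Q, hPhle hQ, fun h3 => hQz (eval_rep_of_mem_Iof h3 hz2)⟩

end

end Pool.Agent.H774R3
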