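import Mathlib
import Pool.Agent.H774R3.Bd
import Pool.Agent.H774R3.Hart
set_option autoImplicit false
open MvPolynomial
namespace Pool.Agent.H774R3

lemma wt_iff {F : MvPolynomial Vx ℂ} {n : ℕ} :
    (∀ s ∈ F.support, wt s = n) ↔ bind₁ (scaleS 2) F = C ((2 : ℂ) ^ n) * F := by
  constructor
  · intro h
    ext s
    rw [coeff_scale, coeff_C_mul]
    by_cases hs : s ∈ F.support
    · rw [h s hs]
    · rw [notMem_support_iff.mp hs]; simp
  · intro h s hs
    have h4 := congrArg (coeff s) h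
    rw [coeff_scale, coeff_C_mul] at h4
    have h5 := mul_right_cancel₀ (mem_support_iff.mp hs) h4
    have h6 : (2 : ℕ) ^ (wt s) = 2 ^ n := by exact_mod_cast h5
    exact Nat.pow_right_injective (le_refl 2) h6

/-- polynomials bounded along a family of points -/
noncomputable def bddAlg (P : ℝ → Vx → ℂ) : Subalgebra ℂ (MvPolynomial Vx ℂ) where
  carrier := {g | ∃ M : ℝ, ∀ ρ : ℝ, 1 ≤ ρ → ‖eval (P ρ) g‖ ≤ M}
  mul_mem' := by
    rintro a b ⟨M, hM⟩ ⟨N, hN⟩
    refine ⟨M * N, fun ρ hρ => ?_⟩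
    rw [map_mul, norm_mul]
    exact mul_le_mul (hM ρ hρ) (hN ρ hρ) (norm_nonneg _) ((norm_nonneg _).trans (hM ρ hρ))
  add_mem' := by
    rintro a b ⟨M, hM⟩ ⟨N, hN⟩
    refine ⟨M + N, fun ρ hρ => ?_⟩
    rw [map_add]
    exact (norm_add_le _ _).trans (add_le_add (hM ρ hρ) (hN ρ hρ))
  algebraMap_mem' := by
    intro r
    refine ⟨‖r‖, fun ρ _ => ?_⟩
    rw [algebraMap_eq, eval_C]

lemma bdd_of_integral (P : ℝ → Vx → ℂ) (F : MvPolynomial Vx ℂ)
    (A : Subalgebra ℂ (MvPolynomial Vx ℂ)) (hA : A ≤ bddAlg P) (h : IsIntegral A F) :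
    F ∈ bddAlg P := by
  obtain ⟨p, hp, hp0⟩ := h
  have hb : ∀ i, ∃ M : ℝ, ∀ ρ : ℝ, 1 ≤ ρ → ‖eval (P ρ) (p.coeff i : MvPolynomial Vx ℂ)‖ ≤ M :=
    fun i => hA (p.coeff i).2
  choose M hM using hb
  have hM0 : ∀ i, 0 ≤ M i := fun i => (norm_nonneg _).trans (hM i 1 le_rfl)
  refine ⟨max 1 (∑ i ∈ Finset.range p.natDegree, M i), fun ρ hρ => ?_⟩
  by_contra hcon
  push Not at hcon
  rw [max_lt_iff] at hcon
  obtain ⟨h1, h2⟩ := hcon
  set z := eval (P ρ) F with hz
  have h3 := congrArg (eval (P ρ)) hp0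
  rw [Polynomial.eval₂_eq_sum_range, map_sum, Finset.sum_range_succ, map_zero] at h3
  have hlead : eval (P ρ) (algebraMap A (MvPolynomial Vx ℂ) (p.coeff p.natDegree) *
      F ^ p.natDegree) = z ^ p.natDegree := by
    have : p.coeff p.natDegree = 1 := hp
    rw [this, map_one, one_mul, map_pow]
  rw [hlead] at h3
  have h4 : z ^ p.natDegree = -∑ x ∈ Finset.range p.natDegree,
      eval (P ρ) (algebraMap A (MvPolynomial Vx ℂ) (p.coeff x) * F ^ x) := by
    linear_combination h3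
  have hn : 1 ≤ p.natDegree := by
    by_contra hc
    have : p.natDegree = 0 := by omega
    rw [this] at h4
    simp at h4
  have h5 : ‖z‖ ^ p.natDegree ≤ (∑ i ∈ Finset.range p.natDegree, M i) * ‖z‖ ^ (p.natDegree - 1) := by
    rw [← norm_pow, h4, norm_neg, Finset.sum_mul]
    refine (norm_sum_le _ _).trans (Finset.sum_le_sum fun i hi => ?_)
    rw [Finset.mem_range] at hi
    rw [map_mul, norm_mul, map_pow, norm_pow]
    apply mul_le_mul (hM i ρ hρ) _ (by positivity) (hM0 i)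
    exact pow_le_pow_right₀ h1.le (by omega)
  have h6 : ‖z‖ ^ p.natDegree = ‖z‖ * ‖z‖ ^ (p.natDegree - 1) := by
    rw [← pow_succ']; congr 1; omega
  rw [h6] at h5
  have h7 : 0 < ‖z‖ ^ (p.natDegree - 1) := pow_pos (by linarith) _
  have h8 := le_of_mul_le_mul_right h5 h7
  linarith

theorem noSmall : ¬ HasSmallCompactification (homSpace grpG grpH) := by
  rintro ⟨κ, _, Xbar, Z, hX, hXi, hZ, hZX, hcod, e, he⟩
  obtain ⟨f, hprim, hf⟩ := exists_rep' e he
  obtain ⟨k, hk⟩ := exists_deg e hprim hf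
  have hk1 := deg_pos e hprim hf hk
  have hfW : ∀ l, WInv (f l) := fun l w hw p v => trans_inv e hprim hf hk w hw l p v
  obtain ⟨F, ψ, hψ, hFW, hFwt, hFval⟩ := exists_FF k
  have hint := integral_of_small e hX hXi hZ hcod he hf hk1 hk hfW (F ^ k) (15 * k + 8)
    (by
      rw [wt_iff, map_pow, wt_iff.mp hFwt, mul_pow, ← C_pow, ← pow_mul, mul_comm k])
    (by
      intro w hw p v
      rw [map_pow, map_pow, hFW w hw])
  obtain ⟨t, ht⟩ : ∃ t, ψ.eval t ≠ 0 := by
    by_contra hc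
    push Not at hc
    exact hψ (Polynomial.funext fun t => by rw [hc t, Polynomial.eval_zero])
  set y : Fin 9 → ℂ := sec t 1 (t ^ 3) with hy
  set P : ℝ → Vx → ℂ := fun ρ => pt (fun _ => ![0, ((ρ : ℂ) ^ (k - 1))⁻¹])
    (fun i => ![0, (ρ : ℂ) ^ (5 * k) * y i]) with hP
  have hfb : ∀ l, f l ∈ bddAlg P := by
    intro l
    obtain ⟨S, hS, hS'⟩ := eval_expand (hk l)
    refine ⟨∑ a ∈ S, ‖fa (f l) a y‖, fun ρ hρ => ?_⟩
    rw [hP]
    simp only
    rw [hS']
    refine (norm_sum_le _ _).trans (Finset.sum_le_sum fun a ha => ?_)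
    by_cases hβ : 1 ≤ ∑ i, a i - k ∧ k ≤ 5 * (∑ i, a i - k)
    · have h1 := fa_zero (hfW l) (hk l) a (∑ i, a i - k) (by have := hS a ha; omega) hβ.1 hβ.2
      have h2 : fa (f l) a y = 0 := by
        have h3 := eval_fa (f l) a (sec (Polynomial.X : Polynomial ℂ) 1 (Polynomial.X ^ 3)) t
        rw [h1, Polynomial.eval_zero] at h3
        rw [h3, hy]
        congr 1
        funext i
        rw [eval_sec]
        simp
      rw [h2]; simp
    · have h1 : 5 * (∑ i, a i - k) ≤ k - 1 := by omega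
      set β := ∑ i, a i - k
      rw [norm_mul]
      apply mul_le_of_le_one_left (norm_nonneg _)
      rw [norm_mul, norm_pow, norm_inv, norm_pow, norm_pow, norm_pow, Complex.norm_real,
        Real.norm_of_nonneg (by linarith), inv_pow, ← pow_mul, ← pow_mul,
        inv_mul_le_iff₀ (by positivity), mul_one]
      apply pow_le_pow_right₀ hρ
      calc 5 * k * β = (5 * β) * k := by ring
        _ ≤ (k - 1) * k := Nat.mul_le_mul_right k h1
  have hrange : (aeval f : MvPolynomial κ ℂ →ₐ[ℂ] MvPolynomial Vx ℂ).range ≤ bddAlg P := by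
    rintro _ ⟨Q, rfl⟩
    change aeval f Q ∈ bddAlg P
    induction Q using MvPolynomial.induction_on with
    | C c => rw [aeval_C]; exact (bddAlg P).algebraMap_mem c
    | add p q hp hq => rw [map_add]; exact (bddAlg P).add_mem hp hq
    | mul_X p i hp => rw [map_mul, aeval_X]; exact (bddAlg P).mul_mem hp (hfb i)
  obtain ⟨M, hM⟩ := bdd_of_integral P (F ^ k) _ hrange hint
  have hval : ∀ ρ : ℝ, 1 ≤ ρ → ‖eval (P ρ) (F ^ k)‖ = (ρ ^ (12 * k + 8) * ‖ψ.eval t‖) ^ k := by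
    intro ρ hρ
    have hρ0 : (ρ : ℂ) ≠ 0 := by
      have : ρ ≠ 0 := by linarith
      exact_mod_cast this
    rw [map_pow, norm_pow]
    congr 1
    rw [hP]
    simp only
    rw [hFval _ _ t y (inv_ne_zero (pow_ne_zero _ hρ0)) (pow_ne_zero _ hρ0) (sec_one _ _ _)
      (sec_tt _ _ _) (sec_tt3 _ _ _), norm_mul, norm_mul, norm_pow, norm_inv, norm_pow, norm_pow,
      norm_pow, Complex.norm_real, Real.norm_of_nonneg (by linarith), inv_pow, ← pow_mul, ← pow_mul]
    congr 1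
    rw [inv_mul_eq_iff_eq_mul₀ (by positivity), ← pow_add]
    congr 1
    obtain ⟨j, rfl⟩ : ∃ j, k = j + 1 := ⟨k - 1, by omega⟩
    rw [Nat.add_sub_cancel]
    ring
  set c := ‖ψ.eval t‖ with hc
  have hc0 : 0 < c := norm_pos_iff.mpr ht
  have hck : 0 < c ^ k := pow_pos hc0 k
  have hM0 : 0 ≤ M := (norm_nonneg _).trans (hM 1 le_rfl)
  set ρ : ℝ := M / c ^ k + 1 with hρdef
  have hρ1 : 1 ≤ ρ := by
    have : 0 ≤ M / c ^ k := by positivity
    linarith
  have h1 := hM ρ hρ1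
  rw [hval ρ hρ1, mul_pow, ← pow_mul] at h1
  have h2 : ρ ≤ ρ ^ ((12 * k + 8) * k) := by
    apply le_self_pow₀ hρ1
    have : 0 < (12 * k + 8) * k := Nat.mul_pos (by omega) (by omega)
    omega
  have h3 : ρ * c ^ k ≤ M := (mul_le_mul_of_nonneg_right h2 hck.le).trans h1
  rw [hρdef, add_mul, one_mul, div_mul_cancel₀ _ hck.ne'] at h3
  linarith

end Pool.Agent.H774R3
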