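import Mathlib
import Pool.Agent.H774R3.Loc
set_option autoImplicit false
open MvPolynomial
open scoped Topology LinearAlgebra.Projectivization
namespace Pool.Agent.H774R3

section ind
variable {κ : Type} {Y : Set (ℙ ℂ (κ → ℂ))}

lemma ind_basis {U : Set Y} (hU : IsOpen[((projSpace κ).induced (Subtype.val : Y → _)).top] U)
    {y : Y} (hy : y ∈ U) : ∃ (n : ℕ) (q : MvPolynomial κ ℂ), q.IsHomogeneous n ∧
      eval y.1.rep q ≠ 0 ∧ ∀ y' : Y, eval y'.1.rep q ≠ 0 → y' ∈ U := by
  obtain ⟨O, hO, rfl⟩ := (@isOpen_induced_iff _ _ (projSpace κ).top U Subtype.val).mp hU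
  obtain ⟨n, q, hq, h1, h2⟩ := proj_basis hO hy
  exact ⟨n, q, hq, h1, fun y' hy' => h2 _ hy'⟩

lemma ind_open_D {n : ℕ} {q : MvPolynomial κ ℂ} (hq : q.IsHomogeneous n) :
    IsOpen[((projSpace κ).induced (Subtype.val : Y → _)).top] {y : Y | eval y.1.rep q ≠ 0} :=
  (@isOpen_induced_iff _ _ (projSpace κ).top _ Subtype.val).mpr ⟨_, proj_isOpen_D hq, rfl⟩

lemma ind_open_of_basis (U : Set Y) (h : ∀ y ∈ U, ∃ (n : ℕ) (q : MvPolynomial κ ℂ),
      q.IsHomogeneous n ∧ eval y.1.rep q ≠ 0 ∧ ∀ y' : Y, eval y'.1.rep q ≠ 0 → y' ∈ U) :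
    IsOpen[((projSpace κ).induced (Subtype.val : Y → _)).top] U := by
  let _ := ((projSpace κ).induced (Subtype.val : Y → _)).top
  rw [isOpen_iff_forall_mem_open]
  intro y hy
  obtain ⟨n, q, hq, h1, h2⟩ := h y hy
  exact ⟨_, fun y' hy' => h2 y' hy', ind_open_D hq, h1⟩

end ind

section clr
variable {κ : Type} (T : MvPolynomial κ ℂ) (S : Vx → MvPolynomial κ ℂ)

/-- clearing denominators -/
noncomputable def clr (P : MvPolynomial Vx ℂ) : MvPolynomial κ ℂ :=
  ∑ σ ∈ P.support, C (coeff σ P) * (∏ x, S x ^ σ x) * T ^ (P.totalDegree - ∑ x, σ x)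

variable {T S}

lemma clr_hom (hT : T.IsHomogeneous 1) (hS : ∀ x, (S x).IsHomogeneous 1) (P : MvPolynomial Vx ℂ) :
    (clr T S P).IsHomogeneous P.totalDegree := by
  apply IsHomogeneous.sum
  intro σ hσ
  have h1 : (∏ x, S x ^ σ x).IsHomogeneous (∑ x, σ x) := by
    apply IsHomogeneous.prod
    intro x _
    simpa using (hS x).pow (σ x)
  have h2 := ((isHomogeneous_C κ (coeff σ P)).mul h1).mul (hT.pow (P.totalDegree - ∑ x, σ x))
  have h3 : ∑ x, σ x ≤ P.totalDegree := by
    have := le_totalDegree hσ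
    rwa [Finsupp.sum_fintype _ _ (by simp)] at this
  convert h2 using 1
  omega

lemma eval_clr (P : MvPolynomial Vx ℂ) (z : κ → ℂ) (hz : eval z T ≠ 0) :
    eval z (clr T S P) = (eval z T) ^ P.totalDegree *
      eval (fun x => eval z (S x) / eval z T) P := by
  rw [clr, map_sum, eval_eq' (fun x => eval z (S x) / eval z T) P, Finset.mul_sum]
  apply Finset.sum_congr rfl
  intro σ hσ
  have h3 : ∑ x, σ x ≤ P.totalDegree := by
    have := le_totalDegree hσ
    rwa [Finsupp.sum_fintype _ _ (by simp)] at this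
  simp only [map_mul, eval_C, map_prod, map_pow, div_pow, Finset.prod_div_distrib,
    Finset.prod_pow_eq_pow_sum]
  have h4 : (eval z T) ^ P.totalDegree = (eval z T) ^ (∑ x, σ x) *
      (eval z T) ^ (P.totalDegree - ∑ x, σ x) := by
    rw [← pow_add, Nat.add_sub_of_le h3]
  have h5 : ∀ (c A t u : ℂ), t ≠ 0 → c * A * u = t * u * (c * (A / t)) := by
    intro c A t u ht; field_simp
  rw [h4]
  exact h5 _ _ _ _ (pow_ne_zero _ hz)

end clr

section QP
variable {κ : Type} (f : κ → MvPolynomial Vx ℂ)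

/-- value vector -/
noncomputable def vf (p v : Fin 9 → Fin 2 → ℂ) : κ → ℂ := fun j => eval (pt p v) (f j)

/-- embedding data -/
structure EData (k : ℕ) : Prop where
  hne : ∀ p v, (∀ i, p i ≠ 0) → vf f p v ≠ 0
  hwt : ∀ l, ∀ s ∈ (f l).support, wt s = k
  hinv : ∀ l, WInv (f l)
  hsec : ∀ p0 v0, (∀ i, p0 i ≠ 0) → ∃ (T : MvPolynomial κ ℂ) (S : Vx → MvPolynomial κ ℂ),
    T.IsHomogeneous 1 ∧ (∀ x, (S x).IsHomogeneous 1) ∧ eval (vf f p0 v0) T ≠ 0 ∧
    ∀ p v, (∀ i, p i ≠ 0) → eval (vf f p v) T ≠ 0 → ∃ (t : ℂ) (w : Fin 9 → ℂ), t ≠ 0 ∧ w ∈ spW ∧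
      ∀ x, eval (vf f p v) (S x) / eval (vf f p v) T =
        pt (fun i s => t * p i s) (fun i s => v i s + w i * p i s) x

variable {f}

lemma ne_of_dt {p q : Fin 2 → ℂ} (h : dt p q ≠ 0) : p ≠ 0 := by
  rintro rfl
  apply h
  simp [dt]

lemma vf_orbit {k : ℕ} (hd : EData f k) (p v : Fin 9 → Fin 2 → ℂ) (t : ℂ) (w : Fin 9 → ℂ)
    (hw : w ∈ spW) :
    vf f (fun i s => t * p i s) (fun i s => v i s + w i * p i s) = fun j => t ^ k * vf f p v j := by
  funext j
  simp only [vf]
  rw [eval_homog (hd.hwt j), hd.hinv j w hw]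

lemma exists_phi {k : ℕ} (hd : EData f k) : ∃ φ : grpG ⧸ grpH.subgroupOf grpG → ℙ ℂ (κ → ℂ),
    ∀ p q v h, φ (QuotientGroup.mk (mkG p q v h)) =
      Projectivization.mk ℂ (vf f p v) (hd.hne p v fun i => ne_of_dt (h i)) := by
  have key : ∀ x : grpG ⧸ grpH.subgroupOf grpG, ∃ z : ℙ ℂ (κ → ℂ), ∀ p q v h,
      x = QuotientGroup.mk (mkG p q v h) → z =
        Projectivization.mk ℂ (vf f p v) (hd.hne p v fun i => ne_of_dt (h i)) := by
    intro x
    induction x using QuotientGroup.induction_on with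
    | H g =>
      obtain ⟨p0, q0, v0, h0, rfl⟩ := exists_mkG g
      refine ⟨Projectivization.mk ℂ (vf f p0 v0) (hd.hne p0 v0 fun i => ne_of_dt (h0 i)), ?_⟩
      intro p q v h hx
      obtain ⟨t, w, ht, hw, rfl, rfl⟩ := (coset_iff _ _ _ _ _ _ _ _).mp hx
      rw [Projectivization.mk_eq_mk_iff']
      refine ⟨(t ^ k)⁻¹, ?_⟩
      rw [vf_orbit hd _ _ _ _ hw]
      funext j
      simp only [Pi.smul_apply, smul_eq_mul]
      have := pow_ne_zero k ht
      field_simp
  choose φ hφ using key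
  exact ⟨φ, fun p q v h => hφ _ p q v h rfl⟩

/-- coset equality from equality of coordinates -/
lemma coset_of_eq {p q v p' q' v' : Fin 9 → Fin 2 → ℂ} {h h'} {t t' : ℂ} {w w' : Fin 9 → ℂ}
    (ht : t ≠ 0) (ht' : t' ≠ 0) (hw : w ∈ spW) (hw' : w' ∈ spW)
    (he : ∀ x, pt (fun i s => t * p i s) (fun i s => v i s + w i * p i s) x =
      pt (fun i s => t' * p' i s) (fun i s => v' i s + w' i * p' i s) x) :
    (QuotientGroup.mk (mkG p q v h) : grpG ⧸ grpH.subgroupOf grpG) =
      QuotientGroup.mk (mkG p' q' v' h') := by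
  rw [coset_iff]
  have h1 : ∀ i s, t * p i s = t' * p' i s := fun i s => he (Sum.inl (i, s))
  have h2 : ∀ i s, v i s + w i * p i s = v' i s + w' i * p' i s := fun i s => he (Sum.inr (i, s))
  have h3 : ∀ i s, p' i s = t / t' * p i s := by
    intro i s
    field_simp
    linear_combination -h1 i s
  refine ⟨t / t', w - (t / t') • w', div_ne_zero ht ht', spW.sub_mem hw (spW.smul_mem _ hw'), ?_, ?_⟩
  · funext i s; exact h3 i s
  · funext i s
    have := h2 i s
    rw [h3 i s] at this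
    simp only [Pi.sub_apply, Pi.smul_apply, smul_eq_mul]
    linear_combination -this

theorem isQuasiProjective_of_data [Fintype κ] {k : ℕ} (hd : EData f k) :
    IsQuasiProjective (homSpace grpG grpH) := by
  classical
  obtain ⟨φ, hφ⟩ := exists_phi hd
  -- representatives
  have hrep : ∀ p q v h, ∃ c : ℂ, c ≠ 0 ∧
      (∀ j, (φ (QuotientGroup.mk (mkG p q v h))).rep j = c * vf f p v j) ∧
      ∀ (n : ℕ) (Q : MvPolynomial κ ℂ), Q.IsHomogeneous n →
      eval (φ (QuotientGroup.mk (mkG p q v h))).rep Q = c ^ n * eval (vf f p v) Q := by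
    intro p q v h
    obtain ⟨c, hc, hc'⟩ := rep_scale (hd.hne p v fun i => ne_of_dt (h i))
    refine ⟨c, hc, fun j => by rw [hφ, hc'], fun n Q hQ => ?_⟩
    rw [hφ, show (Projectivization.mk ℂ (vf f p v) (hd.hne p v fun i => ne_of_dt (h i))).rep =
      fun j => c * vf f p v j from funext hc', eval_smul_hom hQ]
  have hinj : Function.Injective φ := by
    intro x y hxy
    induction x using QuotientGroup.induction_on with
    | H g =>
    induction y using QuotientGroup.induction_on with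
    | H g' =>
    obtain ⟨p, q, v, h, rfl⟩ := exists_mkG g
    obtain ⟨p', q', v', h', rfl⟩ := exists_mkG g'
    obtain ⟨c, hc, hc1, hc2⟩ := hrep p q v h
    obtain ⟨c', hc', hc1', hc2'⟩ := hrep p' q' v' h'
    obtain ⟨T, S, hT, hS, hT0, hTS⟩ := hd.hsec p v fun i => ne_of_dt (h i)
    have hTT := hc2 1 T hT
    have hTT' := hc2' 1 T hT
    rw [hxy, hTT'] at hTT
    rw [pow_one, pow_one] at hTT
    have hT0' : eval (vf f p' v') T ≠ 0 := by
      intro h0
      rw [h0, mul_zero] at hTT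
      exact mul_ne_zero hc hT0 hTT.symm
    obtain ⟨t, w, ht, hw, e1⟩ := hTS p v (fun i => ne_of_dt (h i)) hT0
    obtain ⟨t', w', ht', hw', e2⟩ := hTS p' v' (fun i => ne_of_dt (h' i)) hT0'
    apply coset_of_eq ht ht' hw hw'
    intro x
    rw [← e1, ← e2]
    have hSS := hc2 1 _ (hS x)
    have hSS' := hc2' 1 _ (hS x)
    rw [hxy, hSS', pow_one, pow_one] at hSS
    rw [← mul_div_mul_left _ _ hc, ← hSS, ← hTT, mul_div_mul_left _ _ hc']
  set Y : Set (ℙ ℂ (κ → ℂ)) := Set.range φ with hY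
  set e : (grpG ⧸ grpH.subgroupOf grpG) ≃ Y := Equiv.ofInjective φ hinj with he
  have hev : ∀ x, (e x : ℙ ℂ (κ → ℂ)) = φ x := fun x => rfl
  -- pullback of homogeneous polynomials to G
  have hpull : ∀ (n : ℕ) (Q : MvPolynomial κ ℂ), Q.IsHomogeneous n → ∀ g : grpG,
      (eval (φ (QuotientGroup.mk g)).rep Q ≠ 0 ↔ eval (entries g.1) (rename pos (aeval f Q)) ≠ 0) ∧
      ∀ P : MvPolynomial κ ℂ, P.IsHomogeneous n →
        eval (φ (QuotientGroup.mk g)).rep P / eval (φ (QuotientGroup.mk g)).rep Q =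
        eval (entries g.1) (rename pos (aeval f P)) / eval (entries g.1) (rename pos (aeval f Q)) := by
    intro n Q hQ g
    obtain ⟨p, q, v, h, rfl⟩ := exists_mkG g
    obtain ⟨c, hc, hc1, hc2⟩ := hrep p q v h
    have h1 : ∀ R : MvPolynomial κ ℂ, eval (entries (mkG p q v h).1) (rename pos (aeval f R)) =
        eval (vf f p v) R := by
      intro R
      rw [eval_rename_pos, ← bind₁, eval_bind]
      rfl
    refine ⟨?_, fun P hP => ?_⟩
    · rw [hc2 n Q hQ, h1]
      exact ⟨fun h => right_ne_zero_of_mul h, fun h => mul_ne_zero (pow_ne_zero _ hc) h⟩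
    · rw [hc2 n Q hQ, hc2 n P hP, h1, h1, mul_div_mul_left _ _ (pow_ne_zero _ hc)]
  -- local sections
  have hloc : ∀ x : grpG ⧸ grpH.subgroupOf grpG, ∃ (T : MvPolynomial κ ℂ)
      (S : Vx → MvPolynomial κ ℂ) (q : Fin 9 → Fin 2 → ℂ) (B : MvPolynomial κ ℂ),
      T.IsHomogeneous 1 ∧ (∀ x, (S x).IsHomogeneous 1) ∧ B.IsHomogeneous 10 ∧
      eval (φ x).rep B ≠ 0 ∧
      (∀ z : κ → ℂ, eval z B ≠ 0 → eval z T ≠ 0 ∧
        ∃ p v h, (fun x => eval z (S x) / eval z T) = pt p v ∧
          (∀ z' : ℙ ℂ (κ → ℂ), z'.rep = z → z' ∈ Y → φ (QuotientGroup.mk (mkG p q v h)) = z')) := by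
    intro x
    induction x using QuotientGroup.induction_on with
    | H g =>
    obtain ⟨p0, q0, v0, h0, rfl⟩ := exists_mkG g
    obtain ⟨T, S, hT, hS, hT0, hTS⟩ := hd.hsec p0 v0 fun i => ne_of_dt (h0 i)
    set B : MvPolynomial κ ℂ := T * ∏ i : Fin 9, (S (Sum.inl (i, 0)) * C (q0 i 1) -
      S (Sum.inl (i, 1)) * C (q0 i 0)) with hB
    have hBh : B.IsHomogeneous 10 := by
      have h1 : (∏ i : Fin 9, (S (Sum.inl (i, 0)) * C (q0 i 1) -
          S (Sum.inl (i, 1)) * C (q0 i 0))).IsHomogeneous (∑ i : Fin 9, 1) := by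
        apply IsHomogeneous.prod
        intro i _
        apply IsHomogeneous.sub
        · simpa using (hS (Sum.inl (i, 0))).mul (isHomogeneous_C κ (q0 i 1))
        · simpa using (hS (Sum.inl (i, 1))).mul (isHomogeneous_C κ (q0 i 0))
      have h2 := hT.mul h1
      simpa using h2
    have hdet : ∀ z : κ → ℂ, eval z T ≠ 0 → eval z B = (eval z T) ^ 10 *
        ∏ i : Fin 9, dt (fun s => eval z (S (Sum.inl (i, s))) / eval z T) (q0 i) := by
      intro z hz
      rw [hB, map_mul, map_prod]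
      have : ∀ i ∈ (Finset.univ : Finset (Fin 9)), eval z (S (Sum.inl (i, 0)) * C (q0 i 1) -
          S (Sum.inl (i, 1)) * C (q0 i 0)) = eval z T *
          dt (fun s => eval z (S (Sum.inl (i, s))) / eval z T) (q0 i) := by
        intro i _
        simp only [dt, map_sub, map_mul, eval_C]
        field_simp
      rw [Finset.prod_congr rfl this, Finset.prod_mul_distrib, Finset.prod_const, Finset.card_univ,
        Fintype.card_fin]
      ring
    refine ⟨T, S, q0, B, hT, hS, hBh, ?_, ?_⟩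
    · obtain ⟨c, hc, hc1, hc2⟩ := hrep p0 q0 v0 h0
      rw [hc2 _ B hBh]
      refine mul_ne_zero (pow_ne_zero _ hc) ?_
      rw [hdet _ hT0]
      refine mul_ne_zero (pow_ne_zero _ hT0) (Finset.prod_ne_zero_iff.mpr fun i _ => ?_)
      obtain ⟨t, w, ht, hw, e1⟩ := hTS p0 v0 (fun i => ne_of_dt (h0 i)) hT0
      have : (fun s => eval (vf f p0 v0) (S (Sum.inl (i, s))) / eval (vf f p0 v0) T) =
          fun s => t * p0 i s := by
        funext s; exact e1 (Sum.inl (i, s))
      rw [this]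
      have h2 : dt (fun s => t * p0 i s) (q0 i) = t * dt (p0 i) (q0 i) := by
        simp only [dt]; ring
      rw [h2]
      exact mul_ne_zero ht (h0 i)
    · intro z hz
      have hzT : eval z T ≠ 0 := by
        intro h0
        rw [hB, map_mul, h0, zero_mul] at hz
        exact hz rfl
      refine ⟨hzT, ?_⟩
      rw [hdet z hzT] at hz
      have h1 := Finset.prod_ne_zero_iff.mp (right_ne_zero_of_mul hz)
      refine ⟨fun i s => eval z (S (Sum.inl (i, s))) / eval z T,
        fun i s => eval z (S (Sum.inr (i, s))) / eval z T, fun i => h1 i (Finset.mem_univ i),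
        ?_, ?_⟩
      · exact pt_surj _
      · rintro z' rfl ⟨x, rfl⟩
        induction x using QuotientGroup.induction_on with
        | H g =>
        obtain ⟨p, q, v, h, rfl⟩ := exists_mkG g
        obtain ⟨c, hc, hc1, hc2⟩ := hrep p q v h
        congr 1
        have hT1 : eval (vf f p v) T ≠ 0 := by
          intro h0
          apply hzT
          rw [hc2 1 T hT, h0, mul_zero]
        obtain ⟨t, w, ht, hw, e1⟩ := hTS p v (fun i => ne_of_dt (h i)) hT1
        apply coset_of_eq one_ne_zero ht spW.zero_mem hw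
        intro x
        rw [← e1]
        rcases x with ⟨i, s⟩ | ⟨i, s⟩
        · simp only [pt, Sum.elim_inl, one_mul]
          rw [hc2 1 _ (hS _), hc2 1 _ hT, pow_one, mul_div_mul_left _ _ hc]
        · simp only [pt, Sum.elim_inr, Pi.zero_apply, zero_mul, add_zero]
          rw [hc2 1 _ (hS _), hc2 1 _ hT, pow_one, mul_div_mul_left _ _ hc]
  -- pullback of polynomials by local sections
  have hback : ∀ (T : MvPolynomial κ ℂ) (S : Vx → MvPolynomial κ ℂ) (q : Fin 9 → Fin 2 → ℂ)
      (z : κ → ℂ) (hz : eval z T ≠ 0) (p v h)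
      (hpt : (fun x => eval z (S x) / eval z T) = pt p v)
      (P : MvPolynomial ((Fin 3 × Fin 9) × (Fin 3 × Fin 9)) ℂ),
      eval z (clr T S (bind₁ (gen q) P)) = (eval z T) ^ (bind₁ (gen q) P).totalDegree *
        eval (entries (mkG p q v h).1) P := by
    intro T S q z hz p v h hpt P
    rw [eval_clr _ _ hz, hpt, eval_gen_sub]
  refine ⟨κ, inferInstance, Y, ?_, e, ?_, ?_⟩
  · -- locally closed
    let _ := (projSpace κ).top
    apply ((isLocallyClosed_tfae Y).out 0 3 rfl rfl).mpr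
    rintro _ ⟨x, rfl⟩
    obtain ⟨T, S, q, B, hT, hS, hB, hB0, hBs⟩ := hloc x
    refine ⟨{z | eval z.rep B ≠ 0}, hB0, proj_isOpen_D hB, ?_⟩
    rintro z ⟨hzB, hzc⟩
    obtain ⟨hzT, p, v, h, hpt, hps⟩ := hBs z.rep hzB
    refine ⟨QuotientGroup.mk (mkG p q v h), ?_⟩
    -- equations
    set R : κ → κ → MvPolynomial κ ℂ := fun j l =>
      X j * clr T S (f l) * T ^ (f j).totalDegree - X l * clr T S (f j) * T ^ (f l).totalDegree
      with hR
    have hRh : ∀ j l, (R j l).IsHomogeneous (1 + (f l).totalDegree + (f j).totalDegree) := by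
      intro j l
      apply IsHomogeneous.sub
      · have := ((isHomogeneous_X ℂ j).mul (clr_hom hT hS (f l))).mul (hT.pow (f j).totalDegree)
        simpa using this
      · have := ((isHomogeneous_X ℂ l).mul (clr_hom hT hS (f j))).mul (hT.pow (f l).totalDegree)
        rw [show 1 + (f l).totalDegree + (f j).totalDegree =
          1 + (f j).totalDegree + 1 * (f l).totalDegree by ring]
        exact this
    have hReval : ∀ j l (z : κ → ℂ), eval z T ≠ 0 → eval z (R j l) =
        (eval z T) ^ ((f l).totalDegree + (f j).totalDegree) *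
        (z j * eval (fun x => eval z (S x) / eval z T) (f l) -
          z l * eval (fun x => eval z (S x) / eval z T) (f j)) := by
      intro j l z hz
      simp only [hR, map_sub, map_mul, eval_X, map_pow, eval_clr _ _ hz]
      ring
    have hR0 : ∀ j l, eval z.rep (R j l) = 0 := by
      intro j l
      by_contra hne
      have hO : IsOpen {z : ℙ ℂ (κ → ℂ) | eval z.rep (R j l * B) ≠ 0} :=
        proj_isOpen_D ((hRh j l).mul hB)
      obtain ⟨z', hz', hz'Y⟩ := mem_closure_iff.mp hzc _ hO (by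
        change eval z.rep (R j l * B) ≠ 0
        rw [map_mul]; exact mul_ne_zero hne hzB)
      change eval z'.rep (R j l * B) ≠ 0 at hz'
      rw [map_mul] at hz'
      obtain ⟨hzT', p', v', h', hpt', hps'⟩ := hBs z'.rep (right_ne_zero_of_mul hz')
      apply left_ne_zero_of_mul hz'
      rw [hReval _ _ _ hzT', hpt']
      have h1 := hps' z' rfl hz'Y
      obtain ⟨c, hc, hc1, hc2⟩ := hrep p' q v' h'
      rw [h1] at hc1
      rw [hc1 j, hc1 l]
      simp only [vf]
      ring
    -- conclusion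
    rw [hφ]
    conv_rhs => rw [← z.mk_rep]
    rw [Projectivization.mk_eq_mk_iff']
    obtain ⟨l, hl⟩ : ∃ l, z.rep l ≠ 0 := by
      by_contra hc
      push Not at hc
      exact z.rep_nonzero (funext hc)
    have h3 : ∀ j, z.rep j * vf f p v l = z.rep l * vf f p v j := by
      intro j
      have := hR0 j l
      rw [hReval _ _ _ hzT, hpt] at this
      have h4 := (mul_eq_zero.mp this).resolve_left (pow_ne_zero _ hzT)
      simp only [vf]
      linear_combination h4
    refine ⟨vf f p v l / z.rep l, ?_⟩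
    funext j
    simp only [Pi.smul_apply, smul_eq_mul]
    field_simp
    linear_combination h3 j
  · -- homeomorphism
    intro U
    constructor
    · intro hU
      apply hom_isOpen_iff.mpr
      apply grp_open_of_basis
      intro g hg
      obtain ⟨n, Q, hQ, h1, h2⟩ := ind_basis hU hg
      refine ⟨rename pos (aeval f Q), ((hpull n Q hQ g).1).mp h1, fun g' hg' => ?_⟩
      exact h2 (e (QuotientGroup.mk g')) (((hpull n Q hQ g').1).mpr hg')
    · intro hU
      apply ind_open_of_basis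
      intro y hy
      obtain ⟨x, rfl⟩ := e.surjective y
      obtain ⟨T, S, q, B, hT, hS, hB, hB0, hBs⟩ := hloc x
      obtain ⟨hzT, p, v, h, hpt, hps⟩ := hBs (φ x).rep hB0
      have h1 := hps (φ x) rfl ⟨x, rfl⟩
      have h2 := hinj h1
      have hmem : (mkG p q v h) ∈ {g : grpG | (QuotientGroup.mk g : grpG ⧸ grpH.subgroupOf grpG) ∈
          e ⁻¹' U} := by
        change e (QuotientGroup.mk (mkG p q v h)) ∈ U
        rw [h2]; exact hy
      obtain ⟨P, hP, hP'⟩ := grp_basis (hom_isOpen_iff.mp hU) hmem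
      refine ⟨_, clr T S (bind₁ (gen q) P) * B, (clr_hom hT hS _).mul hB, ?_, ?_⟩
      · rw [map_mul]
        refine mul_ne_zero ?_ hB0
        rw [hev, hback T S q (φ x).rep hzT p v h hpt P]
        exact mul_ne_zero (pow_ne_zero _ hzT) hP
      · intro y' hy'
        rw [map_mul] at hy'
        obtain ⟨hzT', p', v', h', hpt', hps'⟩ := hBs y'.1.rep (right_ne_zero_of_mul hy')
        have h3 := hps' y'.1 rfl y'.2
        have h4 := left_ne_zero_of_mul hy'
        rw [hback T S q y'.1.rep hzT' p' v' h' hpt' P] at h4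
        have h5 := hP' _ (right_ne_zero_of_mul h4)
        change e (QuotientGroup.mk (mkG p' q v' h')) ∈ U at h5
        have h6 : e (QuotientGroup.mk (mkG p' q v' h')) = y' := Subtype.ext h3
        rwa [h6] at h5
  · -- regular functions
    intro x F
    constructor
    · rintro ⟨G, ⟨n, P, Q, hP, hQ, hQ0, hPQ⟩, U, hU, hxU, hU'⟩
      refine ⟨{x' | e x' ∈ U ∧ eval (φ x').rep Q ≠ 0}, ?_, ⟨hxU, hQ0⟩, ?_⟩
      · apply hom_isOpen_iff.mpr
        apply grp_open_of_basis
        rintro g ⟨hg1, hg2⟩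
        obtain ⟨m, Q1, hQ1, h1, h2⟩ := ind_basis hU hg1
        have h3 := hpull _ _ (hQ1.mul hQ) g
        refine ⟨rename pos (aeval f (Q1 * Q)), h3.1.mp ?_, fun g' hg' => ?_⟩
        · rw [map_mul]; exact mul_ne_zero h1 hg2
        · have h4 := (hpull _ _ (hQ1.mul hQ) g').1.mpr hg'
          rw [map_mul] at h4
          exact ⟨h2 (e (QuotientGroup.mk g')) (left_ne_zero_of_mul h4), right_ne_zero_of_mul h4⟩
      · rintro g ⟨hg1, hg2⟩
        rw [grp_reg_iff]
        obtain ⟨m, Q1, hQ1, h1, h2⟩ := ind_basis hU hg1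
        refine ⟨rename pos (aeval f (Q1 * P)), rename pos (aeval f (Q1 * Q)),
          (hpull _ _ (hQ1.mul hQ) g).1.mp (by rw [map_mul]; exact mul_ne_zero h1 hg2),
          fun g' hg' => ?_⟩
        have h4 := (hpull _ _ (hQ1.mul hQ) g').1.mpr hg'
        rw [map_mul] at h4
        have a1 := left_ne_zero_of_mul h4
        have a2 := right_ne_zero_of_mul h4
        rw [← (hpull _ _ (hQ1.mul hQ) g').2 _ (hQ1.mul hP), map_mul, map_mul,
          mul_div_mul_left _ _ a1, ← hPQ _ a2]
        exact hU' _ (h2 (e (QuotientGroup.mk g')) a1)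
    · rintro ⟨V, hV, hxV, hV'⟩
      obtain ⟨T, S, q, B, hT, hS, hB, hB0, hBs⟩ := hloc x
      obtain ⟨hzT, p, v, h, hpt, hps⟩ := hBs (φ x).rep hB0
      have h2 := hinj (hps (φ x) rfl ⟨x, rfl⟩)
      obtain ⟨P, Q, hQ, hPQ⟩ := grp_reg_iff.mp (hV' (mkG p q v h) (by rw [h2]; exact hxV))
      set P' := clr T S (bind₁ (gen q) P) with hP'
      set Q' := clr T S (bind₁ (gen q) Q) with hQ'
      set dP := (bind₁ (gen q) P).totalDegree with hdP
      set dQ := (bind₁ (gen q) Q).totalDegree with hdQ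
      refine ⟨fun w => eval w.rep (P' * T ^ dQ) / eval w.rep (Q' * T ^ dP),
        ⟨dQ + dP, P' * T ^ dQ, Q' * T ^ dP, ?_, ?_, ?_, fun w _ => rfl⟩,
        {y : Y | eval y.1.rep (Q' * B) ≠ 0}, ind_open_D ((clr_hom hT hS _).mul hB), ?_, ?_⟩
      · have := (clr_hom hT hS (bind₁ (gen q) P)).mul (hT.pow dQ)
        rw [add_comm]
        simpa using this
      · have := (clr_hom hT hS (bind₁ (gen q) Q)).mul (hT.pow dP)
        simpa using this
      · rw [map_mul, map_pow]
        refine mul_ne_zero ?_ (pow_ne_zero _ hzT)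
        rw [hev, hQ', hback T S q (φ x).rep hzT p v h hpt Q]
        exact mul_ne_zero (pow_ne_zero _ hzT) hQ
      · change eval (φ x).rep (Q' * B) ≠ 0
        rw [map_mul]
        refine mul_ne_zero ?_ hB0
        rw [hQ', hback T S q (φ x).rep hzT p v h hpt Q]
        exact mul_ne_zero (pow_ne_zero _ hzT) hQ
      · intro y hy
        change eval y.1.rep (Q' * B) ≠ 0 at hy
        rw [map_mul] at hy
        obtain ⟨hzT', p', v', h', hpt', hps'⟩ := hBs y.1.rep (right_ne_zero_of_mul hy)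
        have h3 := hps' y.1 rfl y.2
        have h4 := left_ne_zero_of_mul hy
        rw [hQ', hback T S q y.1.rep hzT' p' v' h' hpt' Q] at h4
        have h5 := hPQ (mkG p' q v' h') (right_ne_zero_of_mul h4)
        have h6 : e (QuotientGroup.mk (mkG p' q v' h')) = y := Subtype.ext h3
        change F (e _) = _ at h5
        rw [h6] at h5
        rw [h5]
        simp only [map_mul, map_pow]
        rw [hP', hQ', hback T S q y.1.rep hzT' p' v' h' hpt' Q,
          hback T S q y.1.rep hzT' p' v' h' hpt' P]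
        have a1 := right_ne_zero_of_mul h4
        rw [div_eq_div_iff a1 (mul_ne_zero (mul_ne_zero (pow_ne_zero _ hzT') a1)
          (pow_ne_zero _ hzT'))]
        ring

end QP
end Pool.Agent.H774R3
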