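import Mathlib
import Pool.Agent.H774R3.QP
import Pool.Agent.H774R3.NoSmall
set_option autoImplicit false
open MvPolynomial
open scoped Topology LinearAlgebra.Projectivization
namespace Pool.Agent.H774R3

/-- index set of the projective coordinates -/
abbrev KQ : Type := ((Fin 9 × Fin 2) × (Fin 9 → Fin 2)) ⊕
  ((Fin 9 × (Fin 9 → Fin 2)) ⊕ (Fin 3 × (Fin 9 → Fin 2) × (Fin 9 × Fin 2)))

/-- the three linear forms -/
noncomputable def cc : Fin 3 → Fin 9 → ℂ := ![tt, fun _ => 1, fun i => tt i ^ 3]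

lemma isForm_cc (c : Fin 3) : IsForm (cc c) := by
  fin_cases c
  · exact isForm_tt
  · exact isForm_one
  · exact isForm_tt3

/-- the coordinates of the projective embedding -/
noncomputable def fQ : KQ → MvPolynomial Vx ℂ :=
  Sum.elim (fun a => X (Sum.inl a.1) * ∏ j ∈ Finset.univ.erase 0, X (Sum.inl (j, a.2 j)))
    (Sum.elim (fun a => (X (Sum.inl (a.1, 0)) * X (Sum.inr (a.1, 1)) -
        X (Sum.inl (a.1, 1)) * X (Sum.inr (a.1, 0))) *
        ∏ j ∈ Finset.univ.erase a.1, X (Sum.inl (j, a.2 j)))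
      (fun a => (∑ l, C (cc a.1 l) * X (Sum.inr (l, a.2.1 l)) *
        ∏ j ∈ Finset.univ.erase l, X (Sum.inl (j, a.2.1 j))) * X (Sum.inl a.2.2)))

lemma fQ1 (x : Fin 9 × Fin 2) (ε : Fin 9 → Fin 2) (p v : Fin 9 → Fin 2 → ℂ) :
    vf fQ p v (Sum.inl (x, ε)) = p x.1 x.2 * ∏ j ∈ Finset.univ.erase 0, p j (ε j) := by
  simp [vf, fQ, pt, map_prod]

lemma fQ2 (i : Fin 9) (ε : Fin 9 → Fin 2) (p v : Fin 9 → Fin 2 → ℂ) :
    vf fQ p v (Sum.inr (Sum.inl (i, ε))) = (p i 0 * v i 1 - p i 1 * v i 0) *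
      ∏ j ∈ Finset.univ.erase i, p j (ε j) := by
  simp [vf, fQ, pt, map_prod]

lemma fQ3 (c : Fin 3) (x : Fin 9 × Fin 2) (ε : Fin 9 → Fin 2) (p v : Fin 9 → Fin 2 → ℂ) :
    vf fQ p v (Sum.inr (Sum.inr (c, ε, x))) = (∑ l, cc c l * v l (ε l) *
      ∏ j ∈ Finset.univ.erase l, p j (ε j)) * p x.1 x.2 := by
  simp [vf, fQ, pt, map_prod, map_sum]

lemma prod_scale (t : ℂ) (p : Fin 9 → Fin 2 → ℂ) (ε : Fin 9 → Fin 2) (i : Fin 9) :
    ∏ j ∈ Finset.univ.erase i, (t * p j (ε j)) = t ^ 8 * ∏ j ∈ Finset.univ.erase i, p j (ε j) := by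
  rw [Finset.prod_mul_distrib, Finset.prod_const, Finset.card_erase_of_mem (Finset.mem_univ _),
    Finset.card_univ, Fintype.card_fin]

lemma fQ_scale (t : ℂ) (p v : Fin 9 → Fin 2 → ℂ) (a : KQ) :
    vf fQ (fun i s => t * p i s) v a = t ^ 9 * vf fQ p v a := by
  rcases a with ⟨x, ε⟩ | ⟨i, ε⟩ | ⟨c, ε, x⟩
  · rw [fQ1, fQ1, prod_scale]; ring
  · rw [fQ2, fQ2, prod_scale]; ring
  · rw [fQ3, fQ3]
    simp only [prod_scale]
    rw [Finset.sum_mul, Finset.sum_mul, Finset.mul_sum]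
    apply Finset.sum_congr rfl
    intro l _
    ring

lemma fQ_trans {w : Fin 9 → ℂ} (hw : w ∈ spW) (p v : Fin 9 → Fin 2 → ℂ) (a : KQ) :
    vf fQ p (fun i s => v i s + w i * p i s) a = vf fQ p v a := by
  rcases a with ⟨x, ε⟩ | ⟨i, ε⟩ | ⟨c, ε, x⟩
  · rw [fQ1, fQ1]
  · rw [fQ2, fQ2]; ring
  · rw [fQ3, fQ3]
    congr 1
    rw [← sub_eq_zero, ← Finset.sum_sub_distrib]
    have : ∀ l ∈ (Finset.univ : Finset (Fin 9)),
        cc c l * (v l (ε l) + w l * p l (ε l)) * ∏ j ∈ Finset.univ.erase l, p j (ε j) -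
        cc c l * v l (ε l) * ∏ j ∈ Finset.univ.erase l, p j (ε j) =
        (∏ j, p j (ε j)) * (cc c l * w l) := by
      intro l _
      rw [← Finset.mul_prod_erase Finset.univ (fun j => p j (ε j)) (Finset.mem_univ l)]
      ring
    rw [Finset.sum_congr rfl this, ← Finset.mul_sum, isForm_cc c w hw, mul_zero]

lemma sec_smul (a z1 z2 z3 : ℂ) (i : Fin 9) :
    sec (z1 * a) (z2 * a) (z3 * a) i = sec z1 z2 z3 i * a := by
  fin_cases i <;> simp [sec] <;> ring

lemma eval_sec_mv {κ : Type} (z1 z2 z3 : MvPolynomial κ ℂ) (t : κ → ℂ) (i : Fin 9) :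
    eval t (sec z1 z2 z3 i) = sec (eval t z1) (eval t z2) (eval t z3) i := by
  fin_cases i <;> simp [sec, smul_eval] <;> ring

lemma hom_sec {κ : Type} {z1 z2 z3 : MvPolynomial κ ℂ} (h1 : z1.IsHomogeneous 1)
    (h2 : z2.IsHomogeneous 1) (h3 : z3.IsHomogeneous 1) (i : Fin 9) :
    (sec z1 z2 z3 i).IsHomogeneous 1 := by
  have hC : ∀ (c : ℂ) {z : MvPolynomial κ ℂ}, z.IsHomogeneous 1 → (c • z).IsHomogeneous 1 := by
    intro c z hz
    rw [smul_eq_C_mul]
    simpa using (isHomogeneous_C κ c).mul hz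
  have h2' : ∀ {z : MvPolynomial κ ℂ}, z.IsHomogeneous 1 → (2 * z).IsHomogeneous 1 := by
    intro z hz
    rw [two_mul]; exact hz.add hz
  have h6' : ∀ {z : MvPolynomial κ ℂ}, z.IsHomogeneous 1 → (6 * z).IsHomogeneous 1 := by
    intro z hz
    have : 6 * z = (6 : ℂ) • z := by rw [smul_eq_C_mul]; congr 1
    rw [this]; exact hC _ hz
  have h7' : ∀ {z : MvPolynomial κ ℂ}, z.IsHomogeneous 1 → (7 * z).IsHomogeneous 1 := by
    intro z hz
    have : 7 * z = (7 : ℂ) • z := by rw [smul_eq_C_mul]; congr 1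
    rw [this]; exact hC _ hz
  have h0 : ((1 / 12 : ℂ) • (z3 - 7 * z1 + 6 * z2)).IsHomogeneous 1 :=
    hC _ ((h3.sub (h7' h1)).add (h6' h2))
  have hz : (0 : MvPolynomial κ ℂ).IsHomogeneous 1 := isHomogeneous_zero _ _ _
  fin_cases i
  · exact (h2.sub ((h1.sub h2).sub (h2' h0))).sub h0
  · exact (h1.sub h2).sub (h2' h0)
  · exact h0
  all_goals exact hz

/-- sign -/
noncomputable def sg (a s : Fin 2) : ℂ := if s = a then 0 else if a = 0 then 1 else -1

theorem eData : EData fQ 9 where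
  hne := by
    intro p v hp h0
    have : ∀ i, ∃ s, p i s ≠ 0 := fun i => Function.ne_iff.mp (hp i)
    choose ε hε using this
    have h1 := congrFun h0 (Sum.inl ((0, ε 0), ε))
    rw [fQ1] at h1
    exact mul_ne_zero (hε 0) (Finset.prod_ne_zero_iff.mpr fun j _ => hε j) h1
  hwt := by
    intro l
    rw [wt_iff]
    apply MvPolynomial.funext
    intro x
    rw [pt_surj x, eval_scale, map_mul, eval_C]
    exact fQ_scale 2 _ _ l
  hinv := by
    intro l w hw p v
    exact fQ_trans hw p v l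
  hsec := by
    intro p0 v0 hp0
    have : ∀ i, ∃ s, p0 i s ≠ 0 := fun i => Function.ne_iff.mp (hp0 i)
    choose ε hε using this
    refine ⟨X (Sum.inl ((0, ε 0), ε)), Sum.elim (fun x => X (Sum.inl (x, ε)))
      (fun x => C (sg (ε x.1) x.2) * X (Sum.inr (Sum.inl (x.1, ε))) +
        sec (X (Sum.inr (Sum.inr (0, ε, x)))) (X (Sum.inr (Sum.inr (1, ε, x))))
          (X (Sum.inr (Sum.inr (2, ε, x)))) x.1), isHomogeneous_X _ _, ?_, ?_, ?_⟩
    · rintro (x | x)
      · exact isHomogeneous_X _ _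
      · simp only [Sum.elim_inr]
        apply IsHomogeneous.add
        · simpa using (isHomogeneous_C KQ (sg (ε x.1) x.2)).mul
            (isHomogeneous_X ℂ (Sum.inr (Sum.inl (x.1, ε)) : KQ))
        · exact hom_sec (isHomogeneous_X _ _) (isHomogeneous_X _ _) (isHomogeneous_X _ _) _
    · rw [eval_X, fQ1]
      exact mul_ne_zero (hε 0) (Finset.prod_ne_zero_iff.mpr fun j _ => hε j)
    · intro p v hp hT
      rw [eval_X, fQ1] at hT
      have hT' : ∏ j, p j (ε j) ≠ 0 := by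
        rw [← Finset.mul_prod_erase Finset.univ (fun j => p j (ε j)) (Finset.mem_univ 0)]
        exact hT
      have hpe : ∀ j, p j (ε j) ≠ 0 := fun j => Finset.prod_ne_zero_iff.mp hT' j (Finset.mem_univ j)
      set u : Fin 9 → ℂ := fun i => v i (ε i) / p i (ε i) with hu
      set u' : Fin 9 → ℂ := sec (∑ i, cc 0 i * u i) (∑ i, cc 1 i * u i) (∑ i, cc 2 i * u i)
        with hu'
      have hTe : eval (vf fQ p v) (X (Sum.inl ((0, ε 0), ε))) = ∏ j, p j (ε j) := by
        rw [eval_X, fQ1, ← Finset.mul_prod_erase Finset.univ (fun j => p j (ε j))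
          (Finset.mem_univ 0)]
      have hJ : ∀ (c : Fin 3) (x : Fin 9 × Fin 2), vf fQ p v (Sum.inr (Sum.inr (c, ε, x))) =
          (∑ i, cc c i * u i) * (p x.1 x.2 * ∏ j, p j (ε j)) := by
        intro c x
        rw [fQ3, Finset.sum_mul, Finset.sum_mul]
        apply Finset.sum_congr rfl
        intro l _
        rw [← Finset.mul_prod_erase Finset.univ (fun j => p j (ε j)) (Finset.mem_univ l), hu]
        have := hpe l
        field_simp
      refine ⟨(p 0 (ε 0))⁻¹, u' - u, inv_ne_zero (hpe 0), ?_, ?_⟩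
      · rw [mem_spW]
        have e1 := sec_one (∑ i, cc 0 i * u i) (∑ i, cc 1 i * u i) (∑ i, cc 2 i * u i)
        have e2 := sec_tt (∑ i, cc 0 i * u i) (∑ i, cc 1 i * u i) (∑ i, cc 2 i * u i)
        have e3 := sec_tt3 (∑ i, cc 0 i * u i) (∑ i, cc 1 i * u i) (∑ i, cc 2 i * u i)
        rw [← hu'] at e1 e2 e3
        simp only [Pi.sub_apply, mul_sub, Finset.sum_sub_distrib]
        rw [e1, e2, e3]
        refine ⟨?_, ?_, ?_⟩
        · simp [cc]
        · simp [cc]
        · simp [cc]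
      · rintro (⟨i, s⟩ | ⟨i, s⟩)
        · rw [hTe]
          simp only [Sum.elim_inl, eval_X, pt]
          rw [fQ1, ← Finset.mul_prod_erase Finset.univ (fun j => p j (ε j)) (Finset.mem_univ 0)]
          have h1 := hpe 0
          have h2 : ∏ j ∈ Finset.univ.erase 0, p j (ε j) ≠ 0 :=
            Finset.prod_ne_zero_iff.mpr fun j _ => hpe j
          field_simp
        · rw [hTe]
          simp only [Sum.elim_inr, pt, map_add, map_mul, eval_C, eval_X, eval_sec_mv]
          rw [hJ, hJ, hJ, sec_smul, ← hu', fQ2,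
            ← Finset.mul_prod_erase Finset.univ (fun j => p j (ε j)) (Finset.mem_univ i)]
          have h1 := hpe i
          have h2 : ∏ j ∈ Finset.univ.erase i, p j (ε j) ≠ 0 :=
            Finset.prod_ne_zero_iff.mpr fun j _ => hpe j
          simp only [Pi.sub_apply, hu]
          generalize ∏ j ∈ Finset.univ.erase i, p j (ε j) = PP1 at h2 ⊢
          generalize u' i = U
          generalize hε' : ε i = a at h1 ⊢
          have e1 : (sg a s * ((p i 0 * v i 1 - p i 1 * v i 0) * PP1) + U * (p i s * (p i a * PP1))) /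
              (p i a * PP1) = sg a s * (p i 0 * v i 1 - p i 1 * v i 0) / p i a + U * p i s := by
            field_simp
          have e2 : v i s + (U - v i a / p i a) * p i s =
              (v i s * p i a - v i a * p i s) / p i a + U * p i s := by
            field_simp
            ring
          rw [e1, e2]
          congr 2
          fin_cases a <;> fin_cases s <;> simp [sg] <;> ring

theorem isQuasiProjective : IsQuasiProjective (homSpace grpG grpH) :=
  isQuasiProjective_of_data eData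

end Pool.Agent.H774R3
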