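import Mathlib
import Pool.Agent.Helper206.BoxS.SphereSC
set_option autoImplicit false
open Metric Module
namespace Pool.Agent.H774R3

lemma sc_prod (X Y : Type) [TopologicalSpace X] [TopologicalSpace Y] [SimplyConnectedSpace X]
    [SimplyConnectedSpace Y] : SimplyConnectedSpace (X × Y) := by
  rw [simply_connected_iff_paths_homotopic]
  refine ⟨inferInstance, ?_⟩
  rintro ⟨x1, y1⟩ ⟨x2, y2⟩
  constructor
  intro p q
  rw [← Path.Homotopic.prod_projLeft_projRight p, ← Path.Homotopic.prod_projLeft_projRight q]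
  congr 1 <;> exact Subsingleton.elim _ _

lemma sc_pi {ι : Type} (X : ι → Type) [∀ i, TopologicalSpace (X i)]
    [∀ i, SimplyConnectedSpace (X i)] : SimplyConnectedSpace (∀ i, X i) := by
  rw [simply_connected_iff_paths_homotopic]
  refine ⟨inferInstance, ?_⟩
  intro x y
  constructor
  intro p q
  rw [← Path.Homotopic.pi_proj p, ← Path.Homotopic.pi_proj q]
  congr 1
  funext i
  exact Subsingleton.elim _ _

lemma sc_ioi : SimplyConnectedSpace (Set.Ioi (0 : ℝ)) := by
  have : ContractibleSpace (Set.Ioi (0 : ℝ)) :=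
    (convex_Ioi (0 : ℝ)).contractibleSpace ⟨1, by simp⟩
  infer_instance

lemma sc_punctured : SimplyConnectedSpace {z : Fin 2 → ℂ // z ≠ 0} := by
  have h1 : SimplyConnectedSpace (sphere (0 : EuclideanSpace ℝ (Fin 4)) 1) :=
    Pool.Agent.Helper206.BoxS.Sph.simplyConnected_sphere (by simp)
  have h2 := sc_ioi
  have h3 := sc_prod (sphere (0 : EuclideanSpace ℝ (Fin 4)) 1) (Set.Ioi (0 : ℝ))
  have h4 : SimplyConnectedSpace ({0}ᶜ : Set (EuclideanSpace ℝ (Fin 4))) :=
    (homeomorphUnitSphereProd (EuclideanSpace ℝ (Fin 4))).toHomotopyEquiv.simplyConnectedSpace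
  have hfr : finrank ℝ (Fin 2 → ℂ) = finrank ℝ (EuclideanSpace ℝ (Fin 4)) := by
    rw [Module.finrank_pi_fintype]
    simp [Complex.finrank_real_complex]
  let e : (Fin 2 → ℂ) ≃L[ℝ] (EuclideanSpace ℝ (Fin 4)) := ContinuousLinearEquiv.ofFinrankEq hfr
  let e' : {z : Fin 2 → ℂ // z ≠ 0} ≃ₜ ({0}ᶜ : Set (EuclideanSpace ℝ (Fin 4))) :=
    e.toHomeomorph.subtype (fun z => by
      simp)
  exact e'.toHomotopyEquiv.simplyConnectedSpace

/-- the space of pairs `(p, v)` -/
abbrev MM : Type := {x : (Fin 9 → Fin 2 → ℂ) × (Fin 9 → Fin 2 → ℂ) // ∀ i, x.1 i ≠ 0}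

theorem sc_MM : SimplyConnectedSpace MM := by
  have h1 := sc_punctured
  have h2 := sc_pi (fun _ : Fin 9 => {z : Fin 2 → ℂ // z ≠ 0})
  have h3 : SimplyConnectedSpace (Fin 9 → Fin 2 → ℂ) := inferInstance
  have h4 := sc_prod (Fin 9 → {z : Fin 2 → ℂ // z ≠ 0}) (Fin 9 → Fin 2 → ℂ)
  let e : MM ≃ₜ (Fin 9 → {z : Fin 2 → ℂ // z ≠ 0}) × (Fin 9 → Fin 2 → ℂ) :=
    { toFun := fun x => (fun i => ⟨x.1.1 i, x.2 i⟩, x.1.2)
      invFun := fun x => ⟨(fun i => (x.1 i).1, x.2), fun i => (x.1 i).2⟩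
      left_inv := fun x => rfl
      right_inv := fun x => rfl
      continuous_toFun := by
        refine Continuous.prodMk ?_ (by fun_prop)
        refine continuous_pi fun i => ?_
        exact Continuous.subtype_mk (by fun_prop) _
      continuous_invFun := by
        refine Continuous.subtype_mk ?_ _
        refine Continuous.prodMk ?_ (by fun_prop)
        refine continuous_pi fun i => ?_
        exact continuous_subtype_val.comp ((continuous_apply i).comp continuous_fst) }
  exact e.toHomotopyEquiv.simplyConnectedSpace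

end Pool.Agent.H774R3
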