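import Mathlib
import Pool.Agent.H774R3.ScM
import Pool.Agent.H774R3.QPData
set_option autoImplicit false
open Topology
namespace Pool.Agent.H774R3

section cont
variable {X : Type} [TopologicalSpace X]

lemma cont_blk {p q v : X → Fin 9 → Fin 2 → ℂ} (hp : Continuous p) (hq : Continuous q)
    (hv : Continuous v) : Continuous fun x => blk (p x) (q x) (v x) := by
  refine continuous_matrix fun a b => ?_
  obtain ⟨a, i⟩ := a
  obtain ⟨b, j⟩ := b
  simp only [blk, Matrix.blockDiagonal_apply]
  by_cases hij : i = j
  · subst hij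
    simp only [if_true]
    fin_cases a <;> fin_cases b <;> simp [aff] <;> fun_prop
  · simp only [if_neg hij]
    fun_prop

lemma cont_mkG {p q v : X → Fin 9 → Fin 2 → ℂ} (hp : Continuous p) (hq : Continuous q)
    (hv : Continuous v) (h : ∀ x i, dt (p x i) (q x i) ≠ 0) :
    Continuous fun x => mkG (p x) (q x) (v x) (h x) := by
  refine Continuous.subtype_mk ?_ _
  rw [Units.continuous_iff]
  constructor
  · exact cont_blk hp hq hv
  · have hdt : ∀ i, Continuous fun x => dt (p x i) (q x i) := by
      intro i; simp only [dt]; fun_prop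
    have hip : Continuous fun x i => ip (p x i) (q x i) := by
      refine continuous_pi fun i => continuous_pi fun s => ?_
      fin_cases s
      · simp only [ip, Fin.zero_eta, Matrix.cons_val_zero]
        exact Continuous.div (by fun_prop) (hdt i) (fun x => h x i)
      · simp only [ip, Fin.mk_one, Matrix.cons_val_one, Matrix.cons_val_fin_one]
        exact Continuous.div (by fun_prop) (hdt i) (fun x => h x i)
    have hiq : Continuous fun x i => iq (p x i) (q x i) := by
      refine continuous_pi fun i => continuous_pi fun s => ?_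
      fin_cases s
      · simp only [iq, Fin.zero_eta, Matrix.cons_val_zero]
        exact Continuous.div (by fun_prop) (hdt i) (fun x => h x i)
      · simp only [iq, Fin.mk_one, Matrix.cons_val_one, Matrix.cons_val_fin_one]
        exact Continuous.div (by fun_prop) (hdt i) (fun x => h x i)
    have hiv : Continuous fun x i => iv (p x i) (q x i) (v x i) := by
      refine continuous_pi fun i => continuous_pi fun s => ?_
      simp only [iv, lc, Pi.neg_apply]
      have h1 : Continuous fun x => ip (p x i) (q x i) s :=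
        continuous_pi_iff.mp (continuous_pi_iff.mp hip i) s
      have h2 : Continuous fun x => iq (p x i) (q x i) s :=
        continuous_pi_iff.mp (continuous_pi_iff.mp hiq i) s
      fun_prop
    exact cont_blk hip hiq hiv

end cont

lemma cont_pc : Continuous fun g : grpG => pc g.1 := by
  refine continuous_pi fun i => continuous_pi fun s => ?_
  simp only [pc]
  exact ((Units.continuous_val.comp continuous_subtype_val)).matrix_elem _ _

lemma cont_vc : Continuous fun g : grpG => vc g.1 := by
  refine continuous_pi fun i => continuous_pi fun s => ?_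
  simp only [vc]
  exact ((Units.continuous_val.comp continuous_subtype_val)).matrix_elem _ _

lemma pc_mkG (p q v : Fin 9 → Fin 2 → ℂ) (h) : pc (mkG p q v h).1 = p := pc_blk p q v
lemma vc_mkG (p q v : Fin 9 → Fin 2 → ℂ) (h) : vc (mkG p q v h).1 = v := vc_blk p q v

/-! ### `G / H` is not compact -/

theorem notCompact : ¬ CompactSpace (grpG ⧸ grpH.subgroupOf grpG) := by
  intro hcomp
  let F : grpG → ℝ := fun g => ‖dt (pc g.1 0) (vc g.1 0)‖ / (‖pc g.1 0 0‖ + ‖pc g.1 0 1‖)
  have hpos : ∀ g : grpG, 0 < ‖pc g.1 0 0‖ + ‖pc g.1 0 1‖ := by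
    intro g
    obtain ⟨p, q, v, h, rfl⟩ := exists_mkG g
    rw [pc_mkG]
    by_contra hc
    have h1 : ‖p 0 0‖ = 0 := by have := norm_nonneg (p 0 0); have := norm_nonneg (p 0 1); linarith
    have h2 : ‖p 0 1‖ = 0 := by have := norm_nonneg (p 0 0); have := norm_nonneg (p 0 1); linarith
    rw [norm_eq_zero] at h1 h2
    apply h 0
    simp [dt, h1, h2]
  have hF : Continuous F := by
    have h1 := cont_pc
    have h2 := cont_vc
    have h3 : ∀ s, Continuous fun g : grpG => pc g.1 0 s := fun s => by fun_prop
    have h4 : ∀ s, Continuous fun g : grpG => vc g.1 0 s := fun s => by fun_prop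
    refine Continuous.div ?_ ((h3 0).norm.add (h3 1).norm) (fun g => (hpos g).ne')
    simp only [dt]
    exact (((h3 0).mul (h4 1)).sub ((h3 1).mul (h4 0))).norm
  have hFinv : ∀ g g' : grpG, (QuotientGroup.mk g : grpG ⧸ grpH.subgroupOf grpG) =
      QuotientGroup.mk g' → F g = F g' := by
    intro g g' hgg
    have hp := hpos g
    obtain ⟨p, q, v, h, rfl⟩ := exists_mkG g
    obtain ⟨p', q', v', h', rfl⟩ := exists_mkG g'
    obtain ⟨t, w, ht, hw, rfl, rfl⟩ := (coset_iff _ _ _ _ _ _ _ _).mp hgg
    simp only [F, pc_mkG, vc_mkG] at hp ⊢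
    have h1 : dt (fun s => t * p 0 s) (fun s => v 0 s + w 0 * p 0 s) = t * dt (p 0) (v 0) := by
      simp only [dt]; ring
    rw [h1, norm_mul, norm_mul, norm_mul, ← mul_add, mul_div_mul_left _ _ (norm_ne_zero_iff.mpr ht)]
  let G : grpG ⧸ grpH.subgroupOf grpG → ℝ := Quotient.lift F (by
    intro a b hab
    exact hFinv a b (Quotient.sound hab))
  have hG : Continuous G := Continuous.quotient_lift hF _
  obtain ⟨x, hx⟩ := (isCompact_range hG).bddAbove
  obtain ⟨n, hn⟩ := exists_nat_gt x
  have hdt : ∀ i : Fin 9, dt ((fun _ => ![1, 0]) i) ((fun _ => ![0, 1]) i) ≠ 0 := by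
    intro i; simp [dt]
  have h1 := hx ⟨QuotientGroup.mk (mkG (fun _ => ![1, 0]) (fun _ => ![0, 1])
    (fun _ => ![0, (n : ℂ)]) hdt), rfl⟩
  change F _ ≤ x at h1
  simp only [F, pc_mkG, vc_mkG] at h1
  simp [dt] at h1
  linarith

end Pool.Agent.H774R3
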