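import Mathlib
import Pool.Agent.H774R3.TopG
import Pool.Agent.H774R3.LemB
set_option autoImplicit false
open Topology
namespace Pool.Agent.H774R3

/-- a vector independent of `p` depending continuously on `p` -/
noncomputable def qq (p : Fin 2 → ℂ) : Fin 2 → ℂ := ![-(starRingEnd ℂ) (p 1), (starRingEnd ℂ) (p 0)]

lemma dt_qq {p : Fin 2 → ℂ} (hp : p ≠ 0) : dt p (qq p) ≠ 0 := by
  have h1 : dt p (qq p) = ((Complex.normSq (p 0) + Complex.normSq (p 1) : ℝ) : ℂ) := by
    simp only [dt, qq, Matrix.cons_val_one, Matrix.cons_val_zero, Matrix.cons_val_fin_one]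
    push_cast
    rw [← Complex.mul_conj, ← Complex.mul_conj]
    ring
  rw [h1]
  intro h2
  have h3 : Complex.normSq (p 0) + Complex.normSq (p 1) = 0 := by exact_mod_cast h2
  have h4 := Complex.normSq_nonneg (p 0)
  have h5 := Complex.normSq_nonneg (p 1)
  have h6 : Complex.normSq (p 0) = 0 := by linarith
  have h7 : Complex.normSq (p 1) = 0 := by linarith
  rw [Complex.normSq_eq_zero] at h6 h7
  apply hp
  funext s
  fin_cases s
  · exact h6
  · exact h7

/-- the map from the space of pairs to `G / H` -/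
noncomputable def pr (x : MM) : grpG ⧸ grpH.subgroupOf grpG :=
  QuotientGroup.mk (mkG x.1.1 (fun i => qq (x.1.1 i)) x.1.2 fun i => dt_qq (x.2 i))

lemma cont_pr : Continuous pr := by
  refine QuotientGroup.continuous_mk.comp (cont_mkG (by fun_prop) ?_ (by fun_prop) _)
  refine continuous_pi fun i => continuous_pi fun s => ?_
  fin_cases s
  · simp only [qq, Fin.zero_eta, Matrix.cons_val_zero]
    fun_prop
  · simp only [qq, Fin.mk_one, Matrix.cons_val_one, Matrix.cons_val_fin_one]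
    fun_prop

lemma pr_eq (x : MM) (q : Fin 9 → Fin 2 → ℂ) (h) :
    pr x = QuotientGroup.mk (mkG x.1.1 q x.1.2 h) := by
  rw [pr, coset_iff]
  exact ⟨1, 0, one_ne_zero, spW.zero_mem, by funext i s; simp, by funext i s; simp⟩

lemma pr_eq_iff (x y : MM) : pr x = pr y ↔ ∃ (t : ℂ) (w : Fin 9 → ℂ), t ≠ 0 ∧ w ∈ spW ∧
    y.1.1 = (fun i s => t * x.1.1 i s) ∧ y.1.2 = fun i s => x.1.2 i s + w i * x.1.1 i s := by
  rw [pr, pr, coset_iff]

lemma pr_surj : Function.Surjective pr := by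
  intro b
  induction b using QuotientGroup.induction_on with
  | H g =>
  obtain ⟨p, q, v, h, rfl⟩ := exists_mkG g
  exact ⟨⟨(p, v), fun i => ne_of_dt (h i)⟩, pr_eq _ q h⟩

lemma pr_fib (x y : MM) (hxy : pr x = pr y) : ∃ γ : Path x y, ∀ t, pr (γ t) = pr x := by
  obtain ⟨t, w, ht, hw, h1, h2⟩ := (pr_eq_iff x y).mp hxy
  have hpc : IsPathConnected ({0}ᶜ : Set ℂ) :=
    isPathConnected_compl_singleton_of_one_lt_rank (by simp [Complex.rank_real_complex]) 0
  obtain ⟨γ, hγ⟩ := hpc.joinedIn 1 (by simp) t (by simpa using ht)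
  have hne : ∀ s, γ s ≠ 0 := fun s => hγ s
  refine ⟨{ toFun := fun s => ⟨(fun i a => γ s * x.1.1 i a,
              fun i a => x.1.2 i a + ((s : ℝ) : ℂ) * w i * x.1.1 i a), ?_⟩
            continuous_toFun := ?_
            source' := ?_
            target' := ?_ }, ?_⟩
  · intro i h0
    apply x.2 i
    funext a
    have := congrFun h0 a
    exact (mul_eq_zero.mp this).resolve_left (hne s)
  · refine Continuous.subtype_mk ?_ _
    fun_prop
  · apply Subtype.ext
    apply Prod.ext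
    · funext i a; simp
    · funext i a; simp
  · apply Subtype.ext
    apply Prod.ext
    · rw [h1]; funext i a; simp
    · rw [h2]; funext i a; simp
  · intro s
    symm
    rw [pr_eq_iff]
    refine ⟨γ s, ((s : ℝ) : ℂ) • w, hne s, spW.smul_mem _ hw, rfl, ?_⟩
    funext i a
    simp

/-- normal form of the `p`-part -/
noncomputable def nf1 (ε : Fin 9 → Fin 2) (p : Fin 9 → Fin 2 → ℂ) : Fin 9 → Fin 2 → ℂ :=
  fun i a => p i a / p 0 (ε 0)

/-- the slopes -/
noncomputable def uu (ε : Fin 9 → Fin 2) (p v : Fin 9 → Fin 2 → ℂ) : Fin 9 → ℂ :=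
  fun i => v i (ε i) / p i (ε i)

/-- normalised slopes -/
noncomputable def us (ε : Fin 9 → Fin 2) (p v : Fin 9 → Fin 2 → ℂ) : Fin 9 → ℂ :=
  sec (∑ i, tt i * uu ε p v i) (∑ i, uu ε p v i) (∑ i, tt i ^ 3 * uu ε p v i)

/-- normal form of the `v`-part -/
noncomputable def nf2 (ε : Fin 9 → Fin 2) (p v : Fin 9 → Fin 2 → ℂ) : Fin 9 → Fin 2 → ℂ :=
  fun i a => v i a + (us ε p v i - uu ε p v i) * p i a

lemma nf_inv (ε : Fin 9 → Fin 2) (p v : Fin 9 → Fin 2 → ℂ) (hε : ∀ i, p i (ε i) ≠ 0) (t : ℂ)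
    (ht : t ≠ 0) (w : Fin 9 → ℂ) (hw : w ∈ spW) :
    nf1 ε (fun i s => t * p i s) = nf1 ε p ∧
    nf2 ε (fun i s => t * p i s) (fun i s => v i s + w i * p i s) = nf2 ε p v := by
  constructor
  · funext i a
    simp only [nf1]
    exact mul_div_mul_left _ _ ht
  · have h1 : uu ε (fun i s => t * p i s) (fun i s => v i s + w i * p i s) =
        fun i => uu ε p v i * t⁻¹ + w i * t⁻¹ := by
      funext i
      simp only [uu]
      have := hε i
      field_simp
    obtain ⟨w1, w2, w3⟩ := mem_spW.mp hw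
    have h2 : us ε (fun i s => t * p i s) (fun i s => v i s + w i * p i s) =
        fun i => us ε p v i * t⁻¹ := by
      funext i
      simp only [us]
      rw [h1]
      have e1 : ∑ i, tt i * (uu ε p v i * t⁻¹ + w i * t⁻¹) = (∑ i, tt i * uu ε p v i) * t⁻¹ := by
        rw [Finset.sum_mul]
        have : ∀ i ∈ (Finset.univ : Finset (Fin 9)), tt i * (uu ε p v i * t⁻¹ + w i * t⁻¹) =
          tt i * uu ε p v i * t⁻¹ + t⁻¹ * (tt i * w i) := by intro i _; ring
        rw [Finset.sum_congr rfl this, Finset.sum_add_distrib, ← Finset.mul_sum, w2, mul_zero,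
          add_zero]
      have e2 : ∑ i, (uu ε p v i * t⁻¹ + w i * t⁻¹) = (∑ i, uu ε p v i) * t⁻¹ := by
        rw [Finset.sum_add_distrib, ← Finset.sum_mul, ← Finset.sum_mul, w1, zero_mul, add_zero]
      have e3 : ∑ i, tt i ^ 3 * (uu ε p v i * t⁻¹ + w i * t⁻¹) =
          (∑ i, tt i ^ 3 * uu ε p v i) * t⁻¹ := by
        rw [Finset.sum_mul]
        have : ∀ i ∈ (Finset.univ : Finset (Fin 9)), tt i ^ 3 * (uu ε p v i * t⁻¹ + w i * t⁻¹) =
          tt i ^ 3 * uu ε p v i * t⁻¹ + t⁻¹ * (tt i ^ 3 * w i) := by intro i _; ring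
        rw [Finset.sum_congr rfl this, Finset.sum_add_distrib, ← Finset.mul_sum, w3, mul_zero,
          add_zero]
      rw [e1, e2, e3, sec_smul]
    funext i a
    simp only [nf2]
    rw [h1, h2]
    field_simp
    ring

lemma us_sub_mem (ε : Fin 9 → Fin 2) (p v : Fin 9 → Fin 2 → ℂ) : us ε p v - uu ε p v ∈ spW := by
  rw [mem_spW]
  have e1 := sec_one (∑ i, tt i * uu ε p v i) (∑ i, uu ε p v i) (∑ i, tt i ^ 3 * uu ε p v i)
  have e2 := sec_tt (∑ i, tt i * uu ε p v i) (∑ i, uu ε p v i) (∑ i, tt i ^ 3 * uu ε p v i)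
  have e3 := sec_tt3 (∑ i, tt i * uu ε p v i) (∑ i, uu ε p v i) (∑ i, tt i ^ 3 * uu ε p v i)
  simp only [Pi.sub_apply, mul_sub, Finset.sum_sub_distrib, us]
  rw [e1, e2, e3]
  simp

lemma cont_sec (i : Fin 9) : Continuous fun z : ℂ × ℂ × ℂ => sec z.1 z.2.1 z.2.2 i := by
  fin_cases i <;> simp [sec] <;> fun_prop

lemma contAt_sec {X : Type} [TopologicalSpace X] {A B D : X → ℂ} {x : X} (hA : ContinuousAt A x)
    (hB : ContinuousAt B x) (hD : ContinuousAt D x) (i : Fin 9) :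
    ContinuousAt (fun x => sec (A x) (B x) (D x) i) x :=
  (cont_sec i).continuousAt.comp (hA.prodMk (hB.prodMk hD))

lemma contAt_nf (ε : Fin 9 → Fin 2) (g : grpG) (hε : ∀ i, pc g.1 i (ε i) ≠ 0) :
    ContinuousAt (fun g : grpG => (nf1 ε (pc g.1), nf2 ε (pc g.1) (vc g.1))) g := by
  have hp : ∀ i s, ContinuousAt (fun g : grpG => pc g.1 i s) g := fun i s =>
    (continuous_pi_iff.mp (continuous_pi_iff.mp cont_pc i) s).continuousAt
  have hv : ∀ i s, ContinuousAt (fun g : grpG => vc g.1 i s) g := fun i s =>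
    (continuous_pi_iff.mp (continuous_pi_iff.mp cont_vc i) s).continuousAt
  have hu : ∀ i, ContinuousAt (fun g : grpG => uu ε (pc g.1) (vc g.1) i) g := fun i =>
    (hv i (ε i)).div (hp i (ε i)) (hε i)
  have hs : ∀ i, ContinuousAt (fun g : grpG => us ε (pc g.1) (vc g.1) i) g := by
    intro i
    have h1 : ContinuousAt (fun g : grpG => ∑ i, tt i * uu ε (pc g.1) (vc g.1) i) g :=
      tendsto_finsetSum _ fun i _ => (continuousAt_const.mul (hu i))
    have h2 : ContinuousAt (fun g : grpG => ∑ i, uu ε (pc g.1) (vc g.1) i) g :=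
      tendsto_finsetSum _ fun i _ => hu i
    have h3 : ContinuousAt (fun g : grpG => ∑ i, tt i ^ 3 * uu ε (pc g.1) (vc g.1) i) g :=
      tendsto_finsetSum _ fun i _ => (continuousAt_const.mul (hu i))
    exact contAt_sec h1 h2 h3 i
  refine ContinuousAt.prodMk ?_ ?_
  · refine continuousAt_pi.mpr fun i => continuousAt_pi.mpr fun a => ?_
    exact (hp i a).div (hp 0 (ε 0)) (hε 0)
  · refine continuousAt_pi.mpr fun i => continuousAt_pi.mpr fun a => ?_
    exact (hv i a).add (((hs i).sub (hu i)).mul (hp i a))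

lemma nf1_ne (ε : Fin 9 → Fin 2) (p : Fin 9 → Fin 2 → ℂ) (hp : ∀ i, p i ≠ 0)
    (h0 : p 0 (ε 0) ≠ 0) (i : Fin 9) : nf1 ε p i ≠ 0 := by
  intro h
  apply hp i
  funext a
  have := congrFun h a
  simp only [nf1, Pi.zero_apply, div_eq_zero_iff] at this
  exact this.resolve_right h0

lemma pr_sec (b : grpG ⧸ grpH.subgroupOf grpG) : ∃ V : Set (grpG ⧸ grpH.subgroupOf grpG),
    IsOpen V ∧ b ∈ V ∧ ∃ s : grpG ⧸ grpH.subgroupOf grpG → MM, ContinuousOn s V ∧
      ∀ c ∈ V, pr (s c) = c := by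
  classical
  induction b using QuotientGroup.induction_on with
  | H g0 =>
  obtain ⟨p0, q0, v0, h0, rfl⟩ := exists_mkG g0
  have : ∀ i, ∃ s, p0 i s ≠ 0 := fun i => Function.ne_iff.mp (ne_of_dt (h0 i))
  choose ε hε using this
  set V : Set (grpG ⧸ grpH.subgroupOf grpG) := {c | ∀ i, pc c.out.1 i (ε i) ≠ 0} with hV
  have hVmem : ∀ g : grpG, (QuotientGroup.mk g : grpG ⧸ grpH.subgroupOf grpG) ∈ V ↔
      ∀ i, pc g.1 i (ε i) ≠ 0 := by
    intro g
    have h1 : (QuotientGroup.mk (QuotientGroup.mk g : grpG ⧸ grpH.subgroupOf grpG).out :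
        grpG ⧸ grpH.subgroupOf grpG) = QuotientGroup.mk g := QuotientGroup.out_eq' _
    change (∀ i, pc (QuotientGroup.mk g : grpG ⧸ grpH.subgroupOf grpG).out.1 i (ε i) ≠ 0) ↔ _
    obtain ⟨p, q, v, h, hg⟩ := exists_mkG (QuotientGroup.mk g : grpG ⧸ grpH.subgroupOf grpG).out
    obtain ⟨p', q', v', h', hg'⟩ := exists_mkG g
    rw [hg] at h1 ⊢
    rw [hg'] at h1 ⊢
    obtain ⟨t, w, ht, hw, rfl, rfl⟩ := (coset_iff _ _ _ _ _ _ _ _).mp h1
    rw [pc_mkG, pc_mkG]
    constructor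
    · intro h i; exact mul_ne_zero ht (h i)
    · intro h i; exact right_ne_zero_of_mul (h i)
  have hVopen : IsOpen V := by
    rw [← QuotientGroup.isOpenQuotientMap_mk.isQuotientMap.isOpen_preimage]
    have : (QuotientGroup.mk ⁻¹' V : Set grpG) = ⋂ i, {g : grpG | pc g.1 i (ε i) ≠ 0} := by
      ext g
      rw [Set.mem_preimage, hVmem, Set.mem_iInter]
      rfl
    rw [this]
    apply isOpen_iInter_of_finite
    intro i
    have h1 := cont_pc
    have h2 : Continuous fun g : grpG => pc g.1 i (ε i) := by fun_prop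
    exact isOpen_ne_fun h2 continuous_const
  have x0 : MM := ⟨(p0, v0), fun i => ne_of_dt (h0 i)⟩
  have hne : ∀ g : grpG, ∀ i, pc g.1 i ≠ 0 := by
    intro g i
    obtain ⟨p, q, v, h, rfl⟩ := exists_mkG g
    rw [pc_mkG]; exact ne_of_dt (h i)
  set s : grpG ⧸ grpH.subgroupOf grpG → MM := fun c =>
    if hc : c ∈ V then ⟨(nf1 ε (pc c.out.1), nf2 ε (pc c.out.1) (vc c.out.1)),
      nf1_ne ε _ (hne _) (hc 0)⟩ else x0 with hs
  have hsval : ∀ g : grpG, (QuotientGroup.mk g : grpG ⧸ grpH.subgroupOf grpG) ∈ V →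
      (s (QuotientGroup.mk g)).1 = (nf1 ε (pc g.1), nf2 ε (pc g.1) (vc g.1)) := by
    intro g hg
    have h1 : (QuotientGroup.mk (QuotientGroup.mk g : grpG ⧸ grpH.subgroupOf grpG).out :
        grpG ⧸ grpH.subgroupOf grpG) = QuotientGroup.mk g := QuotientGroup.out_eq' _
    have h2 := (hVmem g).mp hg
    simp only [hs, dif_pos hg]
    have h3 : ∀ i, pc (QuotientGroup.mk g : grpG ⧸ grpH.subgroupOf grpG).out.1 i (ε i) ≠ 0 := hg
    obtain ⟨p, q, v, h, hg1⟩ := exists_mkG (QuotientGroup.mk g : grpG ⧸ grpH.subgroupOf grpG).out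
    obtain ⟨p', q', v', h', hg'⟩ := exists_mkG g
    rw [hg1] at h1 h3 ⊢
    rw [hg'] at h1 ⊢
    obtain ⟨t, w, ht, hw, rfl, rfl⟩ := (coset_iff _ _ _ _ _ _ _ _).mp h1
    rw [pc_mkG] at h3
    rw [pc_mkG, vc_mkG, pc_mkG, vc_mkG]
    obtain ⟨e1, e2⟩ := nf_inv ε p v h3 t ht w hw
    rw [e1, e2]
  refine ⟨V, hVopen, (hVmem _).mpr (by rw [pc_mkG]; exact hε), s, ?_, ?_⟩
  · intro c hc
    apply ContinuousAt.continuousWithinAt
    induction c using QuotientGroup.induction_on with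
    | H g =>
    rw [← QuotientGroup.isOpenQuotientMap_mk.continuousAt_comp_iff]
    refine Topology.IsInducing.subtypeVal.continuousAt_iff.mpr ?_
    have h1 := contAt_nf ε g ((hVmem g).mp hc)
    refine h1.congr ?_
    have h2 : (QuotientGroup.mk ⁻¹' V : Set grpG) ∈ 𝓝 g :=
      (hVopen.preimage QuotientGroup.continuous_mk).mem_nhds hc
    filter_upwards [h2] with g' hg'
    exact (hsval g' hg').symm
  · intro c hc
    induction c using QuotientGroup.induction_on with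
    | H g =>
    have h1 := hsval g hc
    have h2 := (hVmem g).mp hc
    obtain ⟨p, q, v, h, rfl⟩ := exists_mkG g
    rw [pc_mkG] at h2
    rw [pc_mkG, vc_mkG] at h1
    refine Eq.trans ?_ (pr_eq (⟨(p, v), fun i => ne_of_dt (h i)⟩ : MM) q h)
    symm
    rw [pr_eq_iff]
    refine ⟨(p 0 (ε 0))⁻¹, us ε p v - uu ε p v, inv_ne_zero (h2 0), us_sub_mem ε p v, ?_, ?_⟩
    · rw [h1]
      funext i a
      simp only [nf1]
      rw [div_eq_inv_mul]
    · rw [h1]
      rfl

theorem simplyConnected : SimplyConnectedSpace (grpG ⧸ grpH.subgroupOf grpG) := by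
  have := sc_MM
  exact simplyConnected_of_localSections pr cont_pr pr_surj pr_fib pr_sec

end Pool.Agent.H774R3
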