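import Mathlib
import Pool.Agent.H774R3.Sc
set_option autoImplicit false
open MvPolynomial
open Topology
namespace Pool.Agent.H774R3

lemma gl_closed_of_eqs {ι : Type} [Fintype ι] [DecidableEq ι]
    (E : Set (MvPolynomial (ι × ι) ℂ)) :
    IsClosed[(glSpace ι).top] {g : GL ι ℂ | ∀ P ∈ E, eval (entries g) P = 0} := by
  let _ := (glSpace ι).top
  rw [← isOpen_compl_iff, isOpen_iff_forall_mem_open]
  intro g hg
  simp only [Set.mem_compl_iff, Set.mem_ofPred_eq, not_forall] at hg
  obtain ⟨P, hP, hPg⟩ := hg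
  refine ⟨_, ?_, gl_open_D P, hPg⟩
  intro g' hg' h
  exact hg' (h P hP)

lemma det_aff (p q v : Fin 2 → ℂ) : (aff p q v).det = dt p q := by
  simp [aff, Matrix.det_fin_three, dt]; ring

lemma det_blk (p q v : Fin 9 → Fin 2 → ℂ) : (blk p q v).det = ∏ i, dt (p i) (q i) := by
  rw [blk, Matrix.det_blockDiagonal]
  simp only [det_aff]

/-- equations of `G` -/
def eqG : Set (MvPolynomial ((Fin 3 × Fin 9) × (Fin 3 × Fin 9)) ℂ) :=
  {P | (∃ a b i j, i ≠ j ∧ P = X ((a, i), (b, j))) ∨ (∃ i, P = X ((2, i), (0, i))) ∨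
    (∃ i, P = X ((2, i), (1, i))) ∨ ∃ i, P = X ((2, i), (2, i)) - 1}

lemma mem_grpG_iff (g : GL (Fin 3 × Fin 9) ℂ) : g ∈ grpG ↔ ∀ P ∈ eqG, eval (entries g) P = 0 := by
  constructor
  · rintro ⟨p, q, v, h, hg⟩ P hP
    have hent : ∀ x y, entries g (x, y) = blk p q v x y := by
      intro x y; rw [entries, hg]
    rcases hP with ⟨a, b, i, j, hij, rfl⟩ | ⟨i, rfl⟩ | ⟨i, rfl⟩ | ⟨i, rfl⟩
    · rw [eval_X, hent, blk, Matrix.blockDiagonal_apply, if_neg hij]
    · rw [eval_X, hent, blk, Matrix.blockDiagonal_apply]; simp [aff]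
    · rw [eval_X, hent, blk, Matrix.blockDiagonal_apply]; simp [aff]
    · rw [map_sub, eval_X, hent, blk, Matrix.blockDiagonal_apply]; simp [aff]
  · intro h
    set A : Matrix (Fin 3 × Fin 9) (Fin 3 × Fin 9) ℂ :=
      (g : Matrix (Fin 3 × Fin 9) (Fin 3 × Fin 9) ℂ) with hA
    have e1 : ∀ a b i j, i ≠ j → A (a, i) (b, j) = 0 := by
      intro a b i j hij
      have := h _ (Or.inl ⟨a, b, i, j, hij, rfl⟩)
      rwa [eval_X] at this
    have e2 : ∀ i, A (2, i) (0, i) = 0 := by
      intro i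
      have := h _ (Or.inr (Or.inl ⟨i, rfl⟩))
      rwa [eval_X] at this
    have e3 : ∀ i, A (2, i) (1, i) = 0 := by
      intro i
      have := h _ (Or.inr (Or.inr (Or.inl ⟨i, rfl⟩)))
      rwa [eval_X] at this
    have e4 : ∀ i, A (2, i) (2, i) = 1 := by
      intro i
      have := h _ (Or.inr (Or.inr (Or.inr ⟨i, rfl⟩)))
      rw [map_sub, eval_X, map_one, sub_eq_zero] at this
      exact this
    have hAb : A = blk (pc A) (qc A) (vc A) := by
      ext ⟨a, i⟩ ⟨b, j⟩
      rw [blk, Matrix.blockDiagonal_apply]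
      by_cases hij : i = j
      · subst hij
        simp only [if_true]
        fin_cases a <;> fin_cases b
        · rfl
        · rfl
        · rfl
        · rfl
        · rfl
        · rfl
        · exact e2 i
        · exact e3 i
        · exact e4 i
      · simp only [if_neg hij]
        exact e1 a b i j hij
    refine ⟨pc A, qc A, vc A, ?_, hAb⟩
    have hdet : A.det ≠ 0 := by
      have := g.isUnit
      rw [Matrix.isUnit_iff_isUnit_det] at this
      exact this.ne_zero
    rw [hAb, det_blk] at hdet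
    intro i
    exact Finset.prod_ne_zero_iff.mp hdet i (Finset.mem_univ i)

theorem closed_grpG : IsClosed[(glSpace (Fin 3 × Fin 9)).top]
    (grpG : Set (GL (Fin 3 × Fin 9) ℂ)) := by
  have : (grpG : Set (GL (Fin 3 × Fin 9) ℂ)) = {g | ∀ P ∈ eqG, eval (entries g) P = 0} := by
    ext g; exact mem_grpG_iff g
  rw [this]
  exact gl_closed_of_eqs _

/-- additional equations of `H` -/
noncomputable def eqH : Set (MvPolynomial ((Fin 3 × Fin 9) × (Fin 3 × Fin 9)) ℂ) :=
  {P | (∃ i, P = X ((1, i), (0, i))) ∨ (∃ i, P = X ((1, i), (2, i))) ∨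
    (∃ i, P = X ((0, i), (0, i)) - X ((0, 0), (0, 0))) ∨
    (P = ∑ i, X ((0, i), (2, i))) ∨ (P = ∑ i, C (tt i) * X ((0, i), (2, i))) ∨
    (P = ∑ i, C (tt i ^ 3) * X ((0, i), (2, i)))}

lemma mem_grpH_iff (g : GL (Fin 3 × Fin 9) ℂ) :
    g ∈ grpH ↔ ∀ P ∈ eqG ∪ eqH, eval (entries g) P = 0 := by
  constructor
  · intro hg P hP
    rcases hP with hP | hP
    · exact (mem_grpG_iff g).mp (grpH_le hg) P hP
    · obtain ⟨t, q, w, ht, hq, hw, hg⟩ := hg
      have hent : ∀ x y, entries g (x, y) = blk (fun _ => ![t, 0]) q (fun i => ![w i, 0]) x y := by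
        intro x y; rw [entries, hg]
      obtain ⟨w1, w2, w3⟩ := mem_spW.mp hw
      rcases hP with ⟨i, rfl⟩ | ⟨i, rfl⟩ | ⟨i, rfl⟩ | rfl | rfl | rfl
      · rw [eval_X, hent, blk, Matrix.blockDiagonal_apply]; simp [aff]
      · rw [eval_X, hent, blk, Matrix.blockDiagonal_apply]; simp [aff]
      · rw [map_sub, eval_X, eval_X, hent, hent, blk, Matrix.blockDiagonal_apply,
          Matrix.blockDiagonal_apply]; simp [aff]
      · rw [map_sum, ← w1]
        apply Finset.sum_congr rfl
        intro i _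
        rw [eval_X, hent, blk, Matrix.blockDiagonal_apply]; simp [aff]
      · rw [map_sum, ← w2]
        apply Finset.sum_congr rfl
        intro i _
        rw [map_mul, eval_C, eval_X, hent, blk, Matrix.blockDiagonal_apply]; simp [aff]
      · rw [map_sum, ← w3]
        apply Finset.sum_congr rfl
        intro i _
        rw [map_mul, eval_C, eval_X, hent, blk, Matrix.blockDiagonal_apply]; simp [aff]
  · intro h
    obtain ⟨p, q, v, hd, hg⟩ := (mem_grpG_iff g).mpr fun P hP => h P (Or.inl hP)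
    have hent : ∀ x y, entries g (x, y) = blk p q v x y := by
      intro x y; rw [entries, hg]
    have e1 : ∀ i, p i 1 = 0 := by
      intro i
      have := h _ (Or.inr (Or.inl ⟨i, rfl⟩))
      rw [eval_X, hent, blk, Matrix.blockDiagonal_apply] at this
      simpa [aff] using this
    have e2 : ∀ i, v i 1 = 0 := by
      intro i
      have := h _ (Or.inr (Or.inr (Or.inl ⟨i, rfl⟩)))
      rw [eval_X, hent, blk, Matrix.blockDiagonal_apply] at this
      simpa [aff] using this
    have e3 : ∀ i, p i 0 = p 0 0 := by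
      intro i
      have := h _ (Or.inr (Or.inr (Or.inr (Or.inl ⟨i, rfl⟩))))
      rw [map_sub, eval_X, eval_X, hent, hent, blk, Matrix.blockDiagonal_apply,
        Matrix.blockDiagonal_apply, sub_eq_zero] at this
      simpa [aff] using this
    have hw : ∀ i, entries g ((0, i), (2, i)) = v i 0 := by
      intro i
      rw [hent, blk, Matrix.blockDiagonal_apply]; simp [aff]
    have hW : (fun i => v i 0) ∈ spW := by
      rw [mem_spW]
      refine ⟨?_, ?_, ?_⟩
      · have := h _ (Or.inr (Or.inr (Or.inr (Or.inr (Or.inl rfl)))))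
        rw [map_sum] at this
        simpa only [eval_X, hw] using this
      · have := h _ (Or.inr (Or.inr (Or.inr (Or.inr (Or.inr (Or.inl rfl))))))
        rw [map_sum] at this
        simpa only [map_mul, eval_C, eval_X, hw] using this
      · have := h _ (Or.inr (Or.inr (Or.inr (Or.inr (Or.inr (Or.inr rfl))))))
        rw [map_sum] at this
        simpa only [map_mul, eval_C, eval_X, hw] using this
    have hpeq : p = fun _ => ![p 0 0, 0] := by
      funext i s
      fin_cases s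
      · exact e3 i
      · exact e1 i
    have hveq : v = fun i => ![v i 0, 0] := by
      funext i s
      fin_cases s
      · rfl
      · exact e2 i
    have hdt : ∀ i, dt (p i) (q i) = p 0 0 * q i 1 := by
      intro i
      simp only [dt]
      rw [e1 i, e3 i]; ring
    refine ⟨p 0 0, q, fun i => v i 0, ?_, ?_, hW, ?_⟩
    · have := hd 0
      rw [hdt] at this
      exact left_ne_zero_of_mul this
    · intro i
      have := hd i
      rw [hdt] at this
      exact right_ne_zero_of_mul this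
    · rw [hg]
      congr 1

theorem closed_grpH : IsClosed[(glSpace (Fin 3 × Fin 9)).top]
    (grpH : Set (GL (Fin 3 × Fin 9) ℂ)) := by
  have : (grpH : Set (GL (Fin 3 × Fin 9) ℂ)) = {g | ∀ P ∈ eqG ∪ eqH, eval (entries g) P = 0} := by
    ext g; exact mem_grpH_iff g
  rw [this]
  exact gl_closed_of_eqs _

/-! ### irreducibility of `G` -/

/-- generic element of `G` -/
noncomputable def gen3 : (Fin 3 × Fin 9) × (Fin 3 × Fin 9) →
    MvPolynomial (Fin 3 × Fin 9 × Fin 2) ℂ := fun xy =>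
  Matrix.blockDiagonal (fun i => (!![X (0, i, 0), X (1, i, 0), X (2, i, 0);
    X (0, i, 1), X (1, i, 1), X (2, i, 1); 0, 0, 1] :
      Matrix (Fin 3) (Fin 3) (MvPolynomial (Fin 3 × Fin 9 × Fin 2) ℂ))) xy.1 xy.2

lemma eval_gen3 (x : Fin 3 × Fin 9 × Fin 2 → ℂ) (xy : (Fin 3 × Fin 9) × (Fin 3 × Fin 9)) :
    eval x (gen3 xy) = blk (fun i s => x (0, i, s)) (fun i s => x (1, i, s))
      (fun i s => x (2, i, s)) xy.1 xy.2 := by
  obtain ⟨⟨a, i⟩, ⟨b, j⟩⟩ := xy
  simp only [gen3, blk, Matrix.blockDiagonal_apply]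
  by_cases hij : i = j
  · subst hij
    simp only [if_true]
    fin_cases a <;> fin_cases b <;> simp [aff]
  · simp [hij]

theorem irred_grpG : @IsIrreducible _ (glSpace (Fin 3 × Fin 9)).top
    (grpG : Set (GL (Fin 3 × Fin 9) ℂ)) := by
  refine ⟨⟨1, grpG.one_mem⟩, ?_⟩
  rintro u v hu hv ⟨g1, hg1, hg1u⟩ ⟨g2, hg2, hg2v⟩
  obtain ⟨q1, h1, h1'⟩ := gl_basis hu hg1u
  obtain ⟨q2, h2, h2'⟩ := gl_basis hv hg2v
  set D : MvPolynomial (Fin 3 × Fin 9 × Fin 2) ℂ :=
    ∏ i : Fin 9, (X (0, i, 0) * X (1, i, 1) - X (0, i, 1) * X (1, i, 0)) with hD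
  have hDe : ∀ x : Fin 3 × Fin 9 × Fin 2 → ℂ, eval x D =
      ∏ i, dt (fun s => x (0, i, s)) (fun s => x (1, i, s)) := by
    intro x
    simp [hD, map_prod, dt]
  have hcoord : ∀ g ∈ grpG, ∃ x : Fin 3 × Fin 9 × Fin 2 → ℂ, eval x D ≠ 0 ∧
      ∀ P, eval x (bind₁ gen3 P) = eval (entries g) P := by
    rintro g ⟨p, q, v, h, hg⟩
    refine ⟨fun y => (![p y.2.1 y.2.2, q y.2.1 y.2.2, v y.2.1 y.2.2] : Fin 3 → ℂ) y.1, ?_, ?_⟩
    · rw [hDe]
      exact Finset.prod_ne_zero_iff.mpr fun i _ => h i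
    · intro P
      rw [eval_bind]
      congr 2
      funext xy
      rw [eval_gen3, entries, hg]
      rfl
  obtain ⟨x1, hx1, hx1'⟩ := hcoord g1 hg1
  obtain ⟨x2, hx2, hx2'⟩ := hcoord g2 hg2
  have hne : bind₁ gen3 q1 * bind₁ gen3 q2 * D ≠ 0 := by
    refine mul_ne_zero (mul_ne_zero ?_ ?_) ?_
    · intro h0
      have := hx1' q1
      rw [h0, map_zero] at this
      exact h1 this.symm
    · intro h0
      have := hx2' q2
      rw [h0, map_zero] at this
      exact h2 this.symm
    · intro h0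
      rw [h0, map_zero] at hx1
      exact hx1 rfl
  obtain ⟨x, hx⟩ : ∃ x, eval x (bind₁ gen3 q1 * bind₁ gen3 q2 * D) ≠ 0 := by
    by_contra hc
    push Not at hc
    exact hne (MvPolynomial.funext fun x => by rw [hc x, map_zero])
  rw [map_mul, map_mul, hDe] at hx
  have a1 := left_ne_zero_of_mul (left_ne_zero_of_mul hx)
  have a2 := right_ne_zero_of_mul (left_ne_zero_of_mul hx)
  have a3 : ∀ i, dt (fun s => x (0, i, s)) (fun s => x (1, i, s)) ≠ 0 := fun i =>
    Finset.prod_ne_zero_iff.mp (right_ne_zero_of_mul hx) i (Finset.mem_univ i)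
  set g := mkGL (fun i s => x (0, i, s)) (fun i s => x (1, i, s)) (fun i s => x (2, i, s)) a3
    with hg
  have hP : ∀ P, eval x (bind₁ gen3 P) = eval (entries g) P := by
    intro P
    rw [eval_bind]
    congr 2
    funext xy
    rw [eval_gen3]
    rfl
  have hgG : g ∈ grpG := ⟨(fun i s => x (0, i, s)), (fun i s => x (1, i, s)),
    (fun i s => x (2, i, s)), a3, hg ▸ mkGL_val _ _ _ a3⟩
  refine ⟨g, hgG, h1' g ?_, h2' g ?_⟩
  · rw [← hP]; exact a1
  · rw [← hP]; exact a2

end Pool.Agent.H774R3
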