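import Mathlib

set_option autoImplicit false

open Polynomial

namespace Pool.Agent.H774R3

namespace LemC

lemma two_sum (N : ℕ) : 2 * ∑ b ∈ Finset.range N, (N - b) = N * (N + 1) := by
  have h : ∑ b ∈ Finset.range N, (N - b) = ∑ b ∈ Finset.range N, (b + 1) := by
    rw [← Finset.sum_range_reflect]
    refine Finset.sum_congr rfl (fun b hb => ?_)
    have := Finset.mem_range.mp hb
    omega
  rw [h, Finset.sum_add_distrib]
  have h2 := Finset.sum_range_id_mul_two N
  simp only [Finset.sum_const, Finset.card_range, smul_eq_mul, mul_one]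
  rcases Nat.eq_zero_or_pos N with rfl | hN
  · simp
  · obtain ⟨k, rfl⟩ : ∃ k, N = k + 1 := ⟨N - 1, by omega⟩
    simp only [Nat.add_sub_cancel] at h2
    nlinarith

/-- index of coefficients -/
abbrev Idx (m : ℕ) : Type := Σ b : Fin (3 * m + 2), Fin (3 * m + 2 - b)
/-- index of conditions -/
abbrev Cnd (m : ℕ) : Type := (Fin 9 × Σ j : Fin m, Fin (m - j)) ⊕ (Fin 3 × Fin m)

lemma card_lt (m : ℕ) : Fintype.card (Cnd m) < Fintype.card (Idx m) := by
  simp only [Cnd, Idx, Fintype.card_sum, Fintype.card_prod, Fintype.card_sigma, Fintype.card_fin]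
  rw [Fin.sum_univ_eq_sum_range (fun j => m - j) m, Fin.sum_univ_eq_sum_range (fun b => 3 * m + 2 - b) (3 * m + 2)]
  have h1 := two_sum m
  have h2 := two_sum (3 * m + 2)
  nlinarith

/-- the polynomial with given coefficients -/
noncomputable def phiL (m : ℕ) : (Idx m → ℂ) →ₗ[ℂ] (ℂ[X])[X] :=
  ∑ p : Idx m, (((monomial (p.1 : ℕ) : ℂ[X] →ₗ[ℂ[X]] (ℂ[X])[X]).restrictScalars ℂ).comp
    (monomial (p.2 : ℕ) : ℂ →ₗ[ℂ] ℂ[X])).comp (LinearMap.proj p)

lemma phiL_apply (m : ℕ) (c : Idx m → ℂ) :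
    phiL m c = ∑ p : Idx m, monomial (p.1 : ℕ) (monomial (p.2 : ℕ) (c p)) := by
  simp [phiL, LinearMap.sum_apply]

lemma phiL_coeff (m : ℕ) (c : Idx m → ℂ) (b a : ℕ) :
    ((phiL m c).coeff b).coeff a = ∑ p : Idx m, if (p.1 : ℕ) = b ∧ (p.2 : ℕ) = a then c p else 0 := by
  rw [phiL_apply, finsetSum_coeff, finsetSum_coeff]
  refine Finset.sum_congr rfl (fun p _ => ?_)
  rw [coeff_monomial]
  by_cases h1 : (p.1 : ℕ) = b
  · rw [if_pos h1, coeff_monomial]
    by_cases h2 : (p.2 : ℕ) = a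
    · rw [if_pos h2, if_pos ⟨h1, h2⟩]
    · rw [if_neg h2, if_neg (fun h => h2 h.2)]
  · rw [if_neg h1, if_neg (fun h => h1 h.1), coeff_zero]

lemma phiL_coeff_idx (m : ℕ) (c : Idx m → ℂ) (p : Idx m) :
    ((phiL m c).coeff p.1).coeff p.2 = c p := by
  rw [phiL_coeff, Finset.sum_eq_single p]
  · simp
  · rintro ⟨b, a⟩ _ hne
    rw [if_neg]
    rintro ⟨h1, h2⟩
    apply hne
    obtain ⟨b', a'⟩ := p
    simp only at h1 h2
    have hb : b = b' := Fin.ext h1
    subst hb
    have ha : a = a' := Fin.ext h2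
    rw [ha]
  · intro h; exact absurd (Finset.mem_univ _) h

lemma phiL_td (m : ℕ) (c : Idx m → ℂ) (a b : ℕ) (h : 3 * m + 1 < a + b) :
    ((phiL m c).coeff b).coeff a = 0 := by
  rw [phiL_coeff]
  refine Finset.sum_eq_zero (fun p _ => ?_)
  rw [if_neg]
  rintro ⟨h1, h2⟩
  have h3 := p.1.2
  have h4 := p.2.2
  omega

/-- one step -/
lemma step (φ φ' : (ℂ[X])[X]) (h : φ = (X - C (X ^ 3)) * φ') (d : ℕ)
    (hd : ∀ a b, d < a + b → (φ.coeff b).coeff a = 0) :
    ∀ b a, d < a + b + 3 → (φ'.coeff b).coeff a = 0 := by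
  intro b
  induction b with
  | zero =>
    intro a ha
    have h1 : (φ.coeff 0).coeff (a + 3) = 0 := hd _ _ (by omega)
    rw [h, sub_mul, coeff_sub, mul_coeff_zero, coeff_X_zero, zero_mul, coeff_C_mul, zero_sub,
      coeff_neg, coeff_X_pow_mul] at h1
    simpa using h1
  | succ b ih =>
    intro a ha
    have h1 : (φ.coeff (b + 1)).coeff (a + 3) = 0 := hd _ _ (by omega)
    rw [h, sub_mul, coeff_sub, coeff_X_mul, coeff_C_mul, coeff_sub, coeff_X_pow_mul,
      ih (a + 3) (by omega), zero_sub] at h1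
    simpa using h1

lemma steps (j : ℕ) : ∀ (φ φ' : (ℂ[X])[X]) (_ : φ = (X - C (X ^ 3)) ^ j * φ') (d : ℕ)
    (_ : ∀ a b, d < a + b → (φ.coeff b).coeff a = 0),
    ∀ b a, d < a + b + 3 * j → (φ'.coeff b).coeff a = 0 := by
  induction j with
  | zero =>
    intro φ φ' h d hd b a hab
    rw [pow_zero, one_mul] at h
    rw [← h]
    exact hd a b (by omega)
  | succ j ih =>
    intro φ φ' h d hd b a hab
    have h1 := ih φ ((X - C (X ^ 3)) * φ') (by rw [h, pow_succ]; ring) d hd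
    -- (Y - X^3) φ' has total degree ≤ d - 3 j
    by_cases hj : 3 * j ≤ d
    · refine step _ φ' rfl (d - 3 * j) (fun a b hab => h1 b a (by omega)) b a (by omega)
    · have hz : (X - C (X ^ 3)) * φ' = 0 := by
        ext b a
        rw [h1 b a (by omega)]
        simp
      have hz2 : φ' = 0 := by
        rcases mul_eq_zero.mp hz with h2 | h2
        · exact absurd h2 (X_sub_C_ne_zero _)
        · exact h2
      rw [hz2]; simp

lemma eval_coeff (φ : (ℂ[X])[X]) (n : ℕ) : (φ.eval (X ^ 3 : ℂ[X])).coeff n =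
    ∑ b ∈ Finset.range (φ.natDegree + 1), if 3 * b ≤ n then (φ.coeff b).coeff (n - 3 * b) else 0 := by
  rw [eval_eq_sum_range, finsetSum_coeff]
  refine Finset.sum_congr rfl (fun b _ => ?_)
  rw [← pow_mul, coeff_mul_X_pow']

lemma taylor_coeff_lt {R : Type*} [CommRing R] (r : R) (φ : R[X]) (j : ℕ) :
    (X - C r) ^ j ∣ φ ↔ ∀ d < j, (taylor r φ).coeff d = 0 := by
  rw [X_sub_C_pow_dvd_iff, X_pow_dvd_iff]
  rfl

end LemC

open LemC in
theorem exists_phi (m : ℕ) : ∃ φ : (ℂ[X])[X], (∀ b, φ.coeff b ≠ 0 → (φ.coeff b).natDegree + b ≤ 3 * m + 1) ∧ (∀ i : Fin 9, ∀ j : ℕ, (X - C ((i : ℕ) + 1 : ℂ)) ^ (m - j) ∣ (taylor (X ^ 3 : ℂ[X]) φ).coeff j) ∧ (taylor (X ^ 3 : ℂ[X]) φ).coeff 0 ≠ 0 := by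
  classical
  -- the linear map
  let psiL : ℕ → (Idx m → ℂ) →ₗ[ℂ] ℂ[X] := fun j =>
    (((lcoeff ℂ[X] j).restrictScalars ℂ).comp ((taylor (X ^ 3 : ℂ[X])).restrictScalars ℂ)).comp (phiL m)
  have hpsi : ∀ j c, psiL j c = (taylor (X ^ 3 : ℂ[X]) (phiL m c)).coeff j := fun j c => rfl
  let L : (Idx m → ℂ) →ₗ[ℂ] (Cnd m → ℂ) := LinearMap.pi (fun q => match q with
    | Sum.inl (i, ⟨j, l⟩) => ((lcoeff ℂ (l : ℕ)).comp (taylor ((i : ℕ) + 1 : ℂ))).comp (psiL (j : ℕ))
    | Sum.inr (k, j) => (leval ((k : ℕ) + 10 : ℂ)).comp (psiL ((j : ℕ) + 1)))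
  have hker : LinearMap.ker L ≠ ⊥ := by
    apply LinearMap.ker_ne_bot_of_finrank_lt
    rw [Module.finrank_pi, Module.finrank_pi]
    exact card_lt m
  obtain ⟨c, hc, hc0⟩ := (Submodule.ne_bot_iff _).mp hker
  set φ := phiL m c with hφ
  have hφ0 : φ ≠ 0 := by
    intro h0
    apply hc0
    funext p
    have := phiL_coeff_idx m c p
    rw [← hφ, h0] at this
    simpa using this.symm
  have hL : ∀ q, L c q = 0 := fun q => congrFun (LinearMap.mem_ker.mp hc) q
  have hdiv : ∀ i : Fin 9, ∀ j : ℕ, (X - C ((i : ℕ) + 1 : ℂ)) ^ (m - j) ∣ (taylor (X ^ 3 : ℂ[X]) φ).coeff j := by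
    intro i j
    rw [taylor_coeff_lt]
    intro l hl
    have hj : j < m := by omega
    exact hL (Sum.inl (i, ⟨⟨j, hj⟩, ⟨l, hl⟩⟩))
  have hev : ∀ k : Fin 3, ∀ j : ℕ, 1 ≤ j → j ≤ m →
      ((taylor (X ^ 3 : ℂ[X]) φ).coeff j).eval ((k : ℕ) + 10 : ℂ) = 0 := by
    intro k j h1 h2
    have h3 := hL (Sum.inr (k, ⟨j - 1, by omega⟩))
    have h4 : (psiL ((j - 1) + 1) c).eval ((k : ℕ) + 10 : ℂ) = 0 := h3
    rw [hpsi, show j - 1 + 1 = j by omega] at h4
    exact h4
  have htd : ∀ a b, 3 * m + 1 < a + b → (φ.coeff b).coeff a = 0 := phiL_td m c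
  refine ⟨φ, ?_, hdiv, ?_⟩
  · intro b hb
    by_contra hcon
    push Not at hcon
    have := htd _ _ hcon
    rw [coeff_natDegree, leadingCoeff_eq_zero] at this
    exact hb this
  · intro h00
    -- least j with nonzero coefficient
    have hex : ∃ j, (taylor (X ^ 3 : ℂ[X]) φ).coeff j ≠ 0 := by
      by_contra hcon
      push Not at hcon
      have h1 : taylor (X ^ 3 : ℂ[X]) φ = 0 := by
        ext1 j
        rw [hcon j, coeff_zero]
      exact hφ0 (taylor_injective _ (by rw [h1, map_zero]))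
    set j := Nat.find hex with hj
    have hj1 : (taylor (X ^ 3 : ℂ[X]) φ).coeff j ≠ 0 := Nat.find_spec hex
    have hj2 : ∀ d < j, (taylor (X ^ 3 : ℂ[X]) φ).coeff d = 0 := by
      intro d hd
      by_contra hcon
      exact Nat.find_min hex hd hcon
    have hjpos : 1 ≤ j := by
      by_contra hcon
      have : j = 0 := by omega
      rw [this] at hj1
      exact hj1 h00
    obtain ⟨φ', hφ'⟩ := (taylor_coeff_lt (X ^ 3 : ℂ[X]) φ j).mpr hj2
    have hst := steps j φ φ' hφ' (3 * m + 1) htd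
    have hφ'0 : φ' ≠ 0 := by
      rintro rfl
      rw [mul_zero] at hφ'
      exact hφ0 hφ'
    have hjm : j ≤ m := by
      by_contra hcon
      apply hφ'0
      ext b a
      rw [hst b a (by omega)]
      simp
    have hψ : (taylor (X ^ 3 : ℂ[X]) φ).coeff j = φ'.eval (X ^ 3) := by
      have e1 : taylor (X ^ 3 : ℂ[X]) φ = X ^ j * taylor (X ^ 3 : ℂ[X]) φ' := by
        conv_lhs => rw [hφ']
        rw [taylor_mul, taylor_pow, map_sub, taylor_X, taylor_C, add_sub_cancel_right]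
      have e2 : (X ^ j * taylor (X ^ 3 : ℂ[X]) φ').coeff (0 + j) = (taylor (X ^ 3 : ℂ[X]) φ').coeff 0 :=
        coeff_X_pow_mul _ _ _
      rw [zero_add] at e2
      rw [e1, e2, taylor_coeff_zero]
    set P : ℂ[X] := φ'.eval (X ^ 3) with hP
    rw [hψ] at hj1
    set D : ℕ := 3 * (m - j) + 1 with hD
    have hP1 : ∀ n, 3 * D < n → P.coeff n = 0 := by
      intro n hn
      rw [hP, eval_coeff]
      refine Finset.sum_eq_zero (fun b _ => ?_)
      split_ifs with hb
      · exact hst b _ (by omega)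
      · rfl
    have hP2 : P.coeff (3 * D - 1) = 0 := by
      rw [hP, eval_coeff]
      refine Finset.sum_eq_zero (fun b _ => ?_)
      split_ifs with hb
      · exact hst b _ (by omega)
      · rfl
    -- the divisor
    let ee : Fin 12 → ℕ := fun i => if (i : ℕ) < 9 then m - j else 1
    let FF : Fin 12 → ℂ[X] := fun i => (X - C ((i : ℕ) + 1 : ℂ)) ^ (ee i)
    have hFd : ∀ i ∈ (Finset.univ : Finset (Fin 12)), FF i ∣ P := by
      intro i _
      by_cases hi : (i : ℕ) < 9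
      · have h1 := hdiv ⟨i, hi⟩ j
        rw [hψ] at h1
        simp only [FF, ee, if_pos hi]
        exact h1
      · have h1 := hev ⟨i - 9, by omega⟩ j hjpos hjm
        rw [hψ] at h1
        simp only [FF, ee, if_neg hi, pow_one]
        rw [dvd_iff_isRoot, IsRoot]
        have e : (((⟨i - 9, by omega⟩ : Fin 3) : ℕ) : ℂ) + 10 = ((i : ℕ) : ℂ) + 1 := by
          have h9 : 9 ≤ (i : ℕ) := by omega
          change (((i : ℕ) - 9 : ℕ) : ℂ) + 10 = ((i : ℕ) : ℂ) + 1
          rw [Nat.cast_sub h9]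
          push_cast
          ring
        rw [← e]
        exact h1
    have hcop : ((Finset.univ : Finset (Fin 12)) : Set (Fin 12)).Pairwise (Function.onFun IsCoprime FF) := by
      intro a _ b _ hab
      have h1 : IsCoprime (X - C ((a : ℕ) + 1 : ℂ)) (X - C ((b : ℕ) + 1 : ℂ)) := by
        apply isCoprime_X_sub_C_of_isUnit_sub
        rw [isUnit_iff_ne_zero]
        intro h
        apply hab
        have h2 : ((a : ℕ) : ℂ) = ((b : ℕ) : ℂ) := by linear_combination h
        exact Fin.ext (by exact_mod_cast h2)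
      exact h1.pow
    have hQd : (∏ i, FF i) ∣ P := Finset.prod_dvd_of_coprime hcop hFd
    set Q : ℂ[X] := ∏ i, FF i with hQ
    have hFm : ∀ i ∈ (Finset.univ : Finset (Fin 12)), (FF i).Monic := fun i _ => (monic_X_sub_C _).pow _
    have hQm : Q.Monic := monic_prod_of_monic _ _ hFm
    have hQdeg : Q.natDegree = 3 * D := by
      rw [hQ, natDegree_prod_of_monic _ _ hFm]
      have : ∀ i, (FF i).natDegree = ee i := by
        intro i
        simp only [FF]
        rw [natDegree_pow, natDegree_X_sub_C, mul_one]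
      simp only [this, ee]
      simp [Fin.sum_univ_succ]
      omega
    obtain ⟨S, hS⟩ := hQd
    have hS0 : S ≠ 0 := by
      rintro rfl
      rw [mul_zero] at hS
      exact hj1 hS
    have hPdeg : P.natDegree ≤ 3 * D := natDegree_le_iff_coeff_eq_zero.mpr hP1
    have hSdeg : S.natDegree = 0 := by
      have h1 := hQm.natDegree_mul' hS0
      rw [← hS, hQdeg] at h1
      omega
    rw [eq_C_of_natDegree_eq_zero hSdeg] at hS hS0
    have hs0 : S.coeff 0 ≠ 0 := by
      intro h; apply hS0; rw [h, C_0]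
    have h1 : P.coeff (3 * D - 1) = Q.coeff (3 * D - 1) * S.coeff 0 := by
      rw [hS, coeff_mul_C]
    rw [hP2] at h1
    have h2 : Q.coeff (3 * D - 1) = 0 := by
      rcases mul_eq_zero.mp h1.symm with h | h
      · exact h
      · exact absurd h hs0
    have h3 : Q.nextCoeff = 0 := by
      rw [nextCoeff_of_natDegree_pos (by rw [hQdeg]; omega), hQdeg, h2]
    rw [hQ, Monic.nextCoeff_prod _ _ hFm] at h3
    have h4 : ∀ i, (FF i).nextCoeff = -((ee i * ((i : ℕ) + 1) : ℕ) : ℂ) := by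
      intro i
      simp only [FF]
      rw [(monic_X_sub_C _).nextCoeff_pow, nextCoeff_X_sub_C]
      push_cast
      rw [nsmul_eq_mul]
      ring
    simp only [h4] at h3
    rw [Finset.sum_neg_distrib, neg_eq_zero] at h3
    have h5 : (∑ i : Fin 12, (ee i * ((i : ℕ) + 1)) : ℕ) = 0 := by
      exact_mod_cast h3
    rw [Finset.sum_eq_zero_iff] at h5
    have h6 := h5 (11 : Fin 12) (Finset.mem_univ _)
    have h7 : ee (11 : Fin 12) = 1 := by
      simp only [ee]
      rw [if_neg]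
      decide
    rw [h7] at h6
    simp at h6

end Pool.Agent.H774R3
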